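import Pool.Agent.Helper43.GH.Bas
import Pool.Agent.Helper98.MH.Spc
import Pool.Agent.Helper98.MH.Onb

/-!
Project GH (MP_b8862a_ag), block M1: for `x` of nonzero degree the part `x E₀ + E₀ x` is in `L`.
-/

set_option linter.unusedSectionVars false

open Matrix Module

namespace GH

open MH

variable {n : Type*} [Fintype n] [DecidableEq n] {L : Submodule ℂ (Matrix n n ℂ)} {h : Matrix n n ℂ}
  {E : ℝ → Matrix n n ℂ} {Λ : Finset ℝ}

/-- the pair `(u, v)` of matrices on the kernel of `h`: `x u + v x ∈ L` for all `x` of nonzero degree -/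
structure Pr98 (L : Submodule ℂ (Matrix n n ℂ)) (h : Matrix n n ℂ) (E : ℝ → Matrix n n ℂ)
    (u v : Matrix n n ℂ) : Prop where
  lu : E 0 * u = u
  ru : u * E 0 = u
  lv : E 0 * v = v
  rv : v * E 0 = v
  mem : ∀ ν : ℝ, ν ≠ 0 → ∀ x ∈ Ld L h ν, x * u + v * x ∈ L

namespace Pr98

variable {u v u' v' : Matrix n n ℂ}

theorem zero : Pr98 L h E 0 0 := ⟨by simp, by simp, by simp, by simp, fun ν _ x _ => by simp⟩

theorem add (a : Pr98 L h E u v) (b : Pr98 L h E u' v') : Pr98 L h E (u + u') (v + v') := by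
  refine ⟨by rw [mul_add, a.lu, b.lu], by rw [add_mul, a.ru, b.ru], by rw [mul_add, a.lv, b.lv],
    by rw [add_mul, a.rv, b.rv], fun ν hν x hx => ?_⟩
  have : x * (u + u') + (v + v') * x = (x * u + v * x) + (x * u' + v' * x) := by noncomm_ring
  rw [this]
  exact L.add_mem (a.mem ν hν x hx) (b.mem ν hν x hx)

theorem smul (c : ℂ) (a : Pr98 L h E u v) : Pr98 L h E (c • u) (c • v) := by
  refine ⟨by rw [mul_smul_comm, a.lu], by rw [smul_mul_assoc, a.ru], by rw [mul_smul_comm, a.lv],
    by rw [smul_mul_assoc, a.rv], fun ν hν x hx => ?_⟩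
  rw [mul_smul_comm, smul_mul_assoc, ← smul_add]
  exact L.smul_mem c (a.mem ν hν x hx)

theorem deg (G : Gr L h E Λ) (a : Pr98 L h E u v) {ν : ℝ} (hν : ν ≠ 0) {x : Matrix n n ℂ} (hx : x ∈ Ld L h ν) :
    x * u + v * x ∈ Ld L h ν := by
  refine ⟨a.mem ν hν x hx, ?_⟩
  have h0 : h * E 0 = 0 := by rw [G.spec.h_mul]; simp
  have h0' : E 0 * h = 0 := by rw [G.spec.mul_h]; simp
  have e1 : h * u = 0 := by rw [← a.lu, ← mul_assoc, h0, zero_mul]
  have e2 : u * h = 0 := by rw [← a.ru, mul_assoc, h0', mul_zero]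
  have e3 : h * v = 0 := by rw [← a.lv, ← mul_assoc, h0, zero_mul]
  have e4 : v * h = 0 := by rw [← a.rv, mul_assoc, h0', mul_zero]
  have e5 : h * (x * u + v * x) - (x * u + v * x) * h = (h * x - x * h) * u + v * (h * x - x * h) +
      x * (h * u) + h * v * x - x * (u * h) - v * h * x := by noncomm_ring
  rw [e5, e1, e2, e3, e4, hx.2]
  simp only [mul_zero, zero_mul, add_zero, sub_zero, smul_mul_assoc, mul_smul_comm, smul_add]

theorem mul (G : Gr L h E Λ) (a : Pr98 L h E u v) (b : Pr98 L h E u' v') : Pr98 L h E (u * u') (v' * v) := by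
  refine ⟨by rw [← mul_assoc, a.lu], by rw [mul_assoc, b.ru], by rw [← mul_assoc, b.lv],
    by rw [mul_assoc, a.rv], fun ν hν x hx => ?_⟩
  have h1 := b.mem ν hν _ (a.deg G hν hx)
  have e1 : v * x * u' = 0 := by
    have : v * x * u' = v * (E 0 * x * E 0) * u' := by
      rw [← mul_assoc, ← mul_assoc, a.rv, mul_assoc (v * x), b.lu]
    rw [this, G.EE hν hx, mul_zero, zero_mul]
  have e2 : v' * x * u = 0 := by
    have : v' * x * u = v' * (E 0 * x * E 0) * u := by
      rw [← mul_assoc, ← mul_assoc, b.rv, mul_assoc (v' * x), a.lu]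
    rw [this, G.EE hν hx, mul_zero, zero_mul]
  have e3 : (x * u + v * x) * u' + v' * (x * u + v * x) = x * (u * u') + v' * v * x + v * x * u' + v' * x * u := by
    noncomm_ring
  rw [e3, e1, e2, add_zero, add_zero] at h1
  exact h1

theorem of_KK (G : Gr L h E Λ) {z : Matrix n n ℂ} (hz : z ∈ KK L E) : Pr98 L h E z (-z) := by
  have hE : E 0 * E 0 = E 0 := by rw [G.spec.mul, if_pos rfl]
  have h1 : E 0 * z = z := by rw [← hz.2, ← mul_assoc, ← mul_assoc, hE]
  have h2 : z * E 0 = z := by rw [← hz.2, mul_assoc, hE]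
  refine ⟨h1, h2, by rw [mul_neg, h1], by rw [neg_mul, h2], fun ν hν x hx => ?_⟩
  rw [neg_mul, ← sub_eq_add_neg]
  exact G.br x hx.1 z hz.1

end Pr98

/-- the support of `KK`: a projection `q` with `q z = z = z q` for the `z` in `KK`, that gives a pair, and such
that `X = q X` if all elements of `KK` kill `X - q X`. -/
theorem Gr.exists_q (G : Gr L h E Λ) : ∃ q : Matrix n n ℂ, q * q = q ∧ qᴴ = q ∧ Pr98 L h E q q ∧
    (∀ z ∈ KK L E, z * q = z) ∧ ∀ X : Matrix n n ℂ, (∀ z ∈ KK L E, z * X = 0) → q * X = 0 := by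
  classical
  obtain ⟨s, hs⟩ : (KK L E).FG := IsNoetherian.noetherian _
  have hsm : ∀ z ∈ s, z ∈ KK L E := fun z hz => by rw [← hs]; exact Submodule.subset_span hz
  set Ω : Matrix n n ℂ := ∑ z ∈ s, (z * zᴴ + zᴴ * z) with hΩ
  have hΩs : Ωᴴ = Ω := by
    rw [hΩ, conjTranspose_sum]
    refine Finset.sum_congr rfl fun z _ => ?_
    rw [conjTranspose_add, conjTranspose_mul, conjTranspose_mul, conjTranspose_conjTranspose]
  have hpair : ∀ z ∈ KK L E, Pr98 L h E (z * zᴴ + zᴴ * z) (z * zᴴ + zᴴ * z) := by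
    intro z hz
    have a := Pr98.of_KK G hz
    have b := Pr98.of_KK G (G.KK_star hz)
    have h1 := (a.mul G b).add (b.mul G a)
    have e1 : -zᴴ * -z + -z * -zᴴ = z * zᴴ + zᴴ * z := by
      rw [neg_mul_neg, neg_mul_neg, add_comm]
    rwa [e1] at h1
  have hP : Pr98 L h E Ω Ω := by
    rw [hΩ]
    refine Finset.sum_induction _ (fun X => Pr98 L h E X X) (fun a b ha hb => ha.add hb) Pr98.zero ?_
    intro z hz
    exact hpair z (hsm z hz)
  obtain ⟨F, M, S, hF⟩ := exists_spec98 hΩs
  -- the submodule of the diagonal pairs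
  let W : Submodule ℂ (Matrix n n ℂ) :=
    { carrier := {u | Pr98 L h E u u ∧ Ω * u = u * Ω}
      add_mem' := by
        rintro a b ⟨ha, ha'⟩ ⟨hb, hb'⟩
        exact ⟨ha.add hb, by rw [mul_add, add_mul, ha', hb']⟩
      zero_mem' := ⟨Pr98.zero, by simp⟩
      smul_mem' := by
        rintro c a ⟨ha, ha'⟩
        exact ⟨ha.smul c, by rw [mul_smul_comm, smul_mul_assoc, ha']⟩ }
  have hWm : ∀ u, u ∈ W ↔ Pr98 L h E u u ∧ Ω * u = u * Ω := fun u => Iff.rfl
  have hD : ∀ x ∈ W, LinearMap.mulLeft ℂ Ω x ∈ W := by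
    intro x hx
    rw [hWm] at hx ⊢
    rw [LinearMap.mulLeft_apply]
    obtain ⟨h1, h2⟩ := hx
    refine ⟨?_, by rw [mul_assoc Ω x Ω, ← h2]⟩
    have h3 := hP.mul G h1
    rwa [← h2] at h3
  have h1 := eig_mem (LinearMap.mulLeft ℂ Ω) hD (M.image (fun μ : ℝ => (μ : ℂ)))
    (fun c => c • F c.re) (by
      intro c hc
      rw [Finset.mem_image] at hc
      obtain ⟨μ, _, rfl⟩ := hc
      rw [LinearMap.mulLeft_apply, mul_smul_comm, Complex.ofReal_re, S.h_mul]) (by
      rw [Finset.sum_image (fun a _ b _ hab => Complex.ofReal_injective hab)]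
      simp only [Complex.ofReal_re]
      rw [← S.eq]
      exact ⟨hP, rfl⟩)
  have h2 : ∀ μ ∈ M, μ ≠ 0 → F μ ∈ W := by
    intro μ hμ h0
    have h3 := h1 (μ : ℂ) (Finset.mem_image_of_mem _ hμ)
    have h4 := W.smul_mem ((μ : ℂ)⁻¹) h3
    simp only [Complex.ofReal_re, smul_smul] at h4
    rwa [inv_mul_cancel₀ (Complex.ofReal_ne_zero.2 h0), one_smul] at h4
  set q : Matrix n n ℂ := ∑ μ ∈ M.filter (fun μ => μ ≠ 0), F μ with hq
  have hqW : q ∈ W := by
    rw [hq]
    refine W.sum_mem fun μ hμ => ?_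
    rw [Finset.mem_filter] at hμ
    exact h2 μ hμ.1 hμ.2
  have hq1 : q = 1 - F 0 := by
    have : ∑ μ ∈ M, F μ = q + F 0 := by
      rw [hq, ← Finset.sum_filter_add_sum_filter_not M (fun μ => μ ≠ 0)]
      congr 1
      by_cases h0 : (0 : ℝ) ∈ M
      · have : M.filter (fun μ => ¬ μ ≠ 0) = {0} := by
          ext μ
          simp only [Finset.mem_filter, Finset.mem_singleton, not_not]
          constructor
          · exact fun h => h.2
          · rintro rfl
            exact ⟨h0, rfl⟩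
        rw [this, Finset.sum_singleton]
      · have : M.filter (fun μ => ¬ μ ≠ 0) = ∅ := by
          ext μ
          simp only [Finset.mem_filter, not_not, Finset.notMem_empty, iff_false, not_and]
          rintro hμ rfl
          exact h0 hμ
        rw [this, Finset.sum_empty, S.supp 0 h0]
    rw [← S.sum, this]
    abel
  have hF0 : F 0 * F 0 = F 0 := by rw [S.mul, if_pos rfl]
  have hker : ∀ z ∈ s, z * F 0 = 0 := by
    have h3 : Ω * F 0 = 0 := by rw [S.h_mul]; simp
    have h4 : (∑ z ∈ s, ((z * F 0)ᴴ * (z * F 0) + (zᴴ * F 0)ᴴ * (zᴴ * F 0))).trace = 0 := by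
      have : ∑ z ∈ s, ((z * F 0)ᴴ * (z * F 0) + (zᴴ * F 0)ᴴ * (zᴴ * F 0)) = F 0 * (Ω * F 0) := by
        rw [hΩ, Finset.sum_mul, Finset.mul_sum]
        refine Finset.sum_congr rfl fun z _ => ?_
        rw [conjTranspose_mul, conjTranspose_mul, S.star, conjTranspose_conjTranspose]
        noncomm_ring
      rw [this, h3, mul_zero, Matrix.trace_zero]
    rw [Matrix.trace_sum] at h4
    have h5 : ∑ z ∈ s, ((z * F 0)ᴴ * (z * F 0) + (zᴴ * F 0)ᴴ * (zᴴ * F 0)).trace.re = 0 := by
      rw [← Complex.re_sum, h4, Complex.zero_re]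
    have h6 : ∀ z ∈ s, 0 ≤ ((z * F 0)ᴴ * (z * F 0) + (zᴴ * F 0)ᴴ * (zᴴ * F 0)).trace.re := by
      intro z _
      rw [Matrix.trace_add, Complex.add_re]
      exact add_nonneg (trace_nonneg _) (trace_nonneg _)
    intro z hz
    have h7 := (Finset.sum_eq_zero_iff_of_nonneg h6).1 h5 z hz
    rw [Matrix.trace_add, Complex.add_re] at h7
    exact eq_zero_of_trace (le_antisymm (by linarith [trace_nonneg (zᴴ * F 0)]) (trace_nonneg _))
  have hker' : ∀ z ∈ KK L E, z * F 0 = 0 := by
    intro z hz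
    rw [← hs] at hz
    induction hz using Submodule.span_induction with
    | mem z hz => exact hker z hz
    | zero => simp
    | add a b _ _ ha hb => rw [add_mul, ha, hb, add_zero]
    | smul c a _ ha => rw [smul_mul_assoc, ha, smul_zero]
  refine ⟨q, ?_, ?_, hqW.1, ?_, ?_⟩
  · have e1 : (1 - F 0) * (1 - F 0) = 1 - F 0 - F 0 + F 0 * F 0 := by noncomm_ring
    rw [hq1, e1, hF0]
    abel
  · rw [hq1, conjTranspose_sub, conjTranspose_one, S.star]
  · intro z hz
    rw [hq1, mul_sub, mul_one, hker' z hz, sub_zero]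
  · intro X hX
    have h3 : Ω * X = 0 := by
      rw [hΩ, Finset.sum_mul]
      refine Finset.sum_eq_zero fun z hz => ?_
      rw [add_mul, mul_assoc, mul_assoc, hX _ (hsm z hz), hX _ (G.KK_star (hsm z hz)), mul_zero, mul_zero,
        add_zero]
    rw [hq, Finset.sum_mul]
    refine Finset.sum_eq_zero fun μ hμ => ?_
    rw [Finset.mem_filter] at hμ
    have h4 : (μ : ℂ) • (F μ * X) = 0 := by
      rw [← smul_mul_assoc, ← S.mul_h, mul_assoc, h3, mul_zero]
    exact (smul_eq_zero.1 h4).resolve_left (Complex.ofReal_ne_zero.2 hμ.2)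

/-- **M1.** -/
theorem Gr.unit {ι : Type*} [Fintype ι] [DecidableEq ι] {f : ι → Matrix n n ℂ} (G : Gr L h E Λ) (F : Fam L f)
    (h4 : Four L E f) : Un L h E := by
  classical
  obtain ⟨q, hqq, hqs, hqP, hqz, hqX⟩ := G.exists_q
  have hE : E 0 * E 0 = E 0 := by rw [G.spec.mul, if_pos rfl]
  -- q commutes with the elements of degree 0
  have h1 : ∀ y ∈ Ld L h 0, q * y * (1 - q) = 0 := by
    intro y hy
    rw [mul_assoc]
    apply hqX
    intro z hz
    have h2 := G.KK_br hz hy
    have e1 : z * (y * (1 - q)) = y * (z * (1 - q)) - (y * z - z * y) * (1 - q) := by noncomm_ring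
    have e2 : ∀ z ∈ KK L E, z * (1 - q) = 0 := by
      intro z hz
      rw [mul_sub, mul_one, hqz z hz, sub_self]
    rw [e1, e2 z hz, e2 _ h2, mul_zero, sub_zero]
  have hcom : ∀ y ∈ Ld L h 0, q * y = y * q := by
    intro y hy
    have h2 := h1 y hy
    have h3 := h1 _ (by simpa using G.star_Ld hy)
    have h4 := congrArg conjTranspose h3
    rw [conjTranspose_mul, conjTranspose_mul, conjTranspose_sub, conjTranspose_one, hqs,
      conjTranspose_conjTranspose, conjTranspose_zero] at h4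
    have e1 : q * y * (1 - q) = q * y - q * y * q := by noncomm_ring
    have e2 : (1 - q) * (y * q) = y * q - q * y * q := by noncomm_ring
    rw [e1, sub_eq_zero] at h2
    rw [e2, sub_eq_zero] at h4
    rw [h2, h4]
  have hqxq : ∀ ν : ℝ, ν ≠ 0 → ∀ x ∈ Ld L h ν, q * x * q = 0 := by
    intro ν hν x hx
    have : q * x * q = q * (E 0 * x * E 0) * q := by
      rw [← mul_assoc, ← mul_assoc, hqP.ru, mul_assoc (q * x), hqP.lu]
    rw [this, G.EE hν hx, mul_zero, zero_mul]
  -- the stable subspace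
  set T : Set (n → ℂ) := {w | (∃ v, w = q *ᵥ v) ∨ ∃ ν : ℝ, ν ≠ 0 ∧ ∃ x ∈ Ld L h ν, ∃ v, w = (x * q) *ᵥ v} with hT
  set W : Submodule ℂ (n → ℂ) := Submodule.span ℂ T with hW
  have hm1 : ∀ v, q *ᵥ v ∈ W := fun v => Submodule.subset_span (Or.inl ⟨v, rfl⟩)
  have hm2 : ∀ ν : ℝ, ∀ x ∈ Ld L h ν, ∀ v, (x * q) *ᵥ v ∈ W := by
    intro ν x hx v
    by_cases hν : ν = 0
    · subst hν
      rw [← hcom x hx, ← Matrix.mulVec_mulVec]
      exact hm1 _
    · exact Submodule.subset_span (Or.inr ⟨ν, hν, x, hx, v, rfl⟩)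
  have hst : ∀ μ : ℝ, ∀ y ∈ Ld L h μ, ∀ w ∈ W, y *ᵥ w ∈ W := by
    intro μ y hy w hw
    rw [hW] at hw
    induction hw using Submodule.span_induction with
    | mem w hw =>
      rcases hw with ⟨v, rfl⟩ | ⟨ν, hν, x, hx, v, rfl⟩
      · rw [Matrix.mulVec_mulVec]
        exact hm2 μ y hy v
      · rw [Matrix.mulVec_mulVec]
        have hx' := hqP.deg G hν hx
        have hbr := G.br_Ld hy hx'
        have e1 : y * (x * q) = (y * (x * q + q * x) - (x * q + q * x) * y) * q + (x * q) * (y * q) +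
            q * (x * y * q) - y * (q * x * q) := by
          have : (y * (x * q + q * x) - (x * q + q * x) * y) * q = y * x * (q * q) + y * (q * x * q)
              - x * q * (y * q) - q * (x * y * q) := by noncomm_ring
          rw [this, hqq]
          noncomm_ring
        rw [e1, hqxq ν hν x hx, mul_zero, sub_zero, Matrix.add_mulVec, Matrix.add_mulVec]
        refine W.add_mem (W.add_mem (hm2 _ _ hbr v) ?_) ?_
        · by_cases hμ : μ = 0
          · subst hμ
            have e2 : x * q * (y * q) = (x * q) * y := by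
              rw [mul_assoc x q (y * q), ← mul_assoc q y q, hcom y hy, mul_assoc y q q, hqq, ← hcom y hy,
                ← mul_assoc]
            rw [e2, ← Matrix.mulVec_mulVec]
            exact hm2 ν x hx _
          · have e2 : x * q * (y * q) = x * (q * y * q) := by noncomm_ring
            rw [e2, hqxq μ hμ y hy, mul_zero, Matrix.zero_mulVec]
            exact W.zero_mem
        · rw [← Matrix.mulVec_mulVec]
          exact hm1 _
    | zero => rw [Matrix.mulVec_zero]; exact W.zero_mem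
    | add a b _ _ ha hb => rw [Matrix.mulVec_add]; exact W.add_mem ha hb
    | smul c a _ ha => rw [Matrix.mulVec_smul]; exact W.smul_mem c ha
  have hst' : ∀ x ∈ L, ∀ v ∈ W, x *ᵥ v ∈ W := by
    intro x hx v hv
    rw [G.spec.sum_cmp x, Matrix.sum_mulVec]
    exact W.sum_mem fun ν _ => hst ν _ (G.cmp_mem_Ld hx ν) v hv
  obtain ⟨I, hI⟩ := F.sub G W hst'
  have hall : ∀ i, i ∈ I := by
    intro i
    by_contra hi
    have h2 : f i * q = 0 := by
      have h3 : ∀ v, (f i * q) *ᵥ v = 0 := by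
        intro v
        have h5 := (hI (q *ᵥ v)).1 (hm1 v)
        rw [← Matrix.mulVec_mulVec, ← h5, Matrix.mulVec_mulVec, Finset.mul_sum]
        have h6 : ∑ j ∈ I, f i * f j = 0 := by
          refine Finset.sum_eq_zero fun j hj => ?_
          rw [F.mul, if_neg (by rintro rfl; exact hi hj)]
        rw [h6, Matrix.zero_mulVec]
      ext a b
      have := congrFun (h3 (Pi.single b 1)) a
      simpa using this
    have h3 : (KK L E).map (LinearMap.mulLeft ℂ (f i)) = ⊥ := by
      rw [Submodule.eq_bot_iff]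
      rintro _ ⟨z, hz, rfl⟩
      rw [LinearMap.mulLeft_apply]
      have h5 : q * z = z := by
        have := congrArg conjTranspose (hqz _ (G.KK_star hz))
        rwa [conjTranspose_mul, hqs, conjTranspose_conjTranspose] at this
      rw [← h5, ← mul_assoc, h2, zero_mul]
    have h5 := h4 i
    rw [h3, finrank_bot] at h5
    omega
  have hWt : ∀ v, v ∈ W := by
    intro v
    rw [hI v]
    have : ∑ i ∈ I, f i = 1 := by
      rw [← F.sum]
      congr 1
      ext i
      simp [hall i]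
    rw [this, Matrix.one_mulVec]
  have hqE : q = E 0 := by
    have h2 : ∀ w ∈ W, q *ᵥ (E 0 *ᵥ w) = E 0 *ᵥ w := by
      intro w hw
      rw [hW] at hw
      induction hw using Submodule.span_induction with
      | mem w hw =>
        rcases hw with ⟨v, rfl⟩ | ⟨ν, hν, x, hx, v, rfl⟩
        · simp only [Matrix.mulVec_mulVec, hqP.lu, hqq]
        · have e1 : E 0 * (x * q) = 0 := by
            have : E 0 * (x * q) = E 0 * x * E 0 * q := by
              rw [mul_assoc (E 0 * x), hqP.lu, mul_assoc]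
            rw [this, G.EE hν hx, zero_mul]
          have e2 : E 0 *ᵥ ((x * q) *ᵥ v) = 0 := by rw [Matrix.mulVec_mulVec, e1, Matrix.zero_mulVec]
          rw [e2, Matrix.mulVec_zero]
      | zero => simp
      | add a b _ _ ha hb => rw [Matrix.mulVec_add, Matrix.mulVec_add, ha, hb]
      | smul c a _ ha => rw [Matrix.mulVec_smul, Matrix.mulVec_smul, ha]
    have h3 : q * E 0 = E 0 := by
      ext a b
      have := congrFun (h2 (Pi.single b 1) (hWt _)) a
      rw [Matrix.mulVec_mulVec] at this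
      simpa using this
    rw [← hqP.ru, h3]
  intro ν hν x hx
  rw [← hqE]
  exact hqP.mem ν hν x hx

end GH
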