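import Pool.Agent.Helper43.GH.Defs
import Pool.Agent.Helper98.MH.Onb

/-!
Project GH (MP_b8862a_ag): irreducible self-adjoint Lie algebras without an invariant form.
* `stable98`: stable subspaces are trivial.
* `sl_of_rank_one`: if `L` contains `c + μ w w*` with `μ ≠ 0`, then `L` contains all matrices of trace zero.
* `Gr.one_sl`: the same if `1 - E 0` has rank one.
-/

set_option linter.deprecated false
set_option linter.unusedSimpArgs false

open Matrix

namespace GH

variable {n : Type*} [Fintype n] [DecidableEq n] {L : Submodule ℂ (Matrix n n ℂ)}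

/-- An `L`-stable subspace is trivial. -/
theorem stable98 (st : ∀ x ∈ L, xᴴ ∈ L)
    (irr : ∀ T : Matrix n n ℂ, (∀ x ∈ L, T * x = x * T) → ∃ c : ℂ, T = c • (1 : Matrix n n ℂ))
    (W : Submodule ℂ (n → ℂ)) (hW : ∀ x ∈ L, ∀ w ∈ W, x *ᵥ w ∈ W) : W = ⊥ ∨ W = ⊤ := by
  classical
  set e := (WithLp.linearEquiv 2 ℂ (n → ℂ)) with he
  set U : Submodule ℂ (EuclideanSpace ℂ n) := W.comap e.toLinearMap with hU
  have hUmem : ∀ v : EuclideanSpace ℂ n, v ∈ U ↔ WithLp.ofLp v ∈ W := fun v => Iff.rfl
  have hst : ∀ x ∈ L, ∀ v ∈ U, Matrix.toEuclideanLin x v ∈ U := by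
    intro x hx v hv
    rw [hUmem, Matrix.ofLp_toEuclideanLin_apply]
    exact hW x hx _ hv
  have hadj : ∀ x : Matrix n n ℂ, ∀ v w : EuclideanSpace ℂ n,
      inner ℂ (Matrix.toEuclideanLin xᴴ v) w = inner ℂ v (Matrix.toEuclideanLin x w) := by
    intro x v w
    rw [Matrix.toEuclideanLin_conjTranspose_eq_adjoint, LinearMap.adjoint_inner_left]
  have hort : ∀ x ∈ L, ∀ v ∈ Uᗮ, Matrix.toEuclideanLin x v ∈ Uᗮ := by
    intro x hx v hv
    rw [Submodule.mem_orthogonal] at hv ⊢
    intro u hu
    rw [← hadj]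
    exact hv _ (hst _ (st x hx) _ hu)
  let p : EuclideanSpace ℂ n →ₗ[ℂ] EuclideanSpace ℂ n := U.starProjection.toLinearMap
  have hp : ∀ v, p v = U.starProjection v := fun v => rfl
  have hcomm : ∀ x ∈ L, ∀ v, p (Matrix.toEuclideanLin x v) = Matrix.toEuclideanLin x (p v) := by
    intro x hx v
    rw [hp, hp]
    have h1 : Matrix.toEuclideanLin x v = Matrix.toEuclideanLin x (U.starProjection v) +
        Matrix.toEuclideanLin x (v - U.starProjection v) := by
      rw [← map_add]; congr 1; abel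
    exact Submodule.eq_starProjection_of_mem_orthogonal'
      (z := Matrix.toEuclideanLin x (v - U.starProjection v))
      (hst x hx _ (Submodule.starProjection_apply_mem U v))
      (hort x hx _ (Submodule.sub_starProjection_mem_orthogonal v)) h1
  obtain ⟨T, hT⟩ : ∃ T : Matrix n n ℂ, Matrix.toEuclideanLin T = p :=
    ⟨Matrix.toEuclideanLin.symm p, by simp⟩
  obtain ⟨c, hc⟩ := irr T (by
    intro x hx
    apply Matrix.toEuclideanLin.injective
    apply LinearMap.ext
    intro v
    have e1 : ∀ A B : Matrix n n ℂ, Matrix.toEuclideanLin (A * B) v =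
        Matrix.toEuclideanLin A (Matrix.toEuclideanLin B v) := by
      intro A B
      apply (WithLp.ofLp_injective 2)
      simp only [Matrix.ofLp_toEuclideanLin_apply, Matrix.mulVec_mulVec]
    rw [e1, e1, hT, hcomm x hx])
  have hpc : ∀ v, U.starProjection v = c • v := by
    intro v
    rw [← hp, ← hT, hc]
    apply (WithLp.ofLp_injective 2)
    simp [Matrix.ofLp_toEuclideanLin_apply, Matrix.smul_mulVec]
  by_cases hb : W = ⊥
  · exact Or.inl hb
  · right
    obtain ⟨w, hw, hw0⟩ := Submodule.exists_mem_ne_zero_of_ne_bot hb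
    have h1 : WithLp.toLp 2 w ∈ U := hw
    have h2 : U.starProjection (WithLp.toLp 2 w) = WithLp.toLp 2 w :=
      Submodule.starProjection_eq_self_iff.mpr h1
    rw [hpc] at h2
    have h3 : c = 1 := by
      have h4 : (c - 1) • (WithLp.toLp 2 w) = 0 := by rw [sub_smul, h2, one_smul, sub_self]
      rcases smul_eq_zero.mp h4 with h5 | h5
      · exact sub_eq_zero.mp h5
      · exfalso; apply hw0
        have := congrArg WithLp.ofLp h5
        simpa using this
    rw [eq_top_iff]
    intro v _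
    have h4 : U.starProjection (WithLp.toLp 2 v) = WithLp.toLp 2 v := by
      rw [hpc, h3, one_smul]
    have h5 := Submodule.starProjection_eq_self_iff.mp h4
    exact h5

/-- **The case of a pseudo-reflection**: `L` contains all matrices of trace zero. -/
theorem sl_of_rank_one (br : ∀ x ∈ L, ∀ y ∈ L, x * y - y * x ∈ L) (st : ∀ x ∈ L, xᴴ ∈ L)
    (irr : ∀ T : Matrix n n ℂ, (∀ x ∈ L, T * x = x * T) → ∃ c : ℂ, T = c • (1 : Matrix n n ℂ))
    {w : n → ℂ} (hw : star w ⬝ᵥ w = 1) {c μ : ℂ} (hμ : μ ≠ 0)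
    (hh : c • (1 : Matrix n n ℂ) + μ • vecMulVec w (star w) ∈ L)
    {x : Matrix n n ℂ} (hx : x.trace = 0) : x ∈ L := by
  classical
  set p : Matrix n n ℂ := vecMulVec w (star w) with hp
  have hpv : ∀ v : n → ℂ, p *ᵥ v = (star w ⬝ᵥ v) • w := by
    intro v
    rw [hp, Matrix.vecMulVec_mulVec]
    ext i
    simp [mul_comm]
  have hpw : p *ᵥ w = w := by rw [hpv, hw, one_smul]
  have hpp : p * p = p := by
    rw [hp, Matrix.vecMulVec_mul_vecMulVec, hw, one_smul]
  have hps : pᴴ = p := by
    rw [hp, Matrix.conjTranspose_vecMulVec, star_star]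
  have hpx : ∀ y : Matrix n n ℂ, p * y * p = (star w ⬝ᵥ (y *ᵥ w)) • p := by
    intro y
    rw [hp, mul_assoc, Matrix.mul_vecMulVec, Matrix.vecMulVec_mul_vecMulVec, Matrix.vecMulVec_smul]
  have hc1 : ∀ y ∈ L, p * y - y * p ∈ L := by
    intro y hy
    have h1 := L.smul_mem μ⁻¹ (br _ hh _ hy)
    have e1 : μ⁻¹ • ((c • (1 : Matrix n n ℂ) + μ • p) * y - y * (c • (1 : Matrix n n ℂ) + μ • p)) =
        p * y - y * p := by
      rw [add_mul, mul_add, smul_mul_assoc, mul_smul_comm, one_mul, mul_one, smul_mul_assoc,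
        mul_smul_comm, add_sub_add_left_eq_sub, ← smul_sub, smul_smul, inv_mul_cancel₀ hμ, one_smul]
    rwa [e1] at h1
  have hc2 : ∀ y ∈ L, p * y * (1 - p) ∈ L := by
    intro y hy
    have h1 := hc1 y hy
    have h2 := L.smul_mem (2⁻¹ : ℂ) (L.add_mem h1 (hc1 _ h1))
    have e1 : (2⁻¹ : ℂ) • ((p * y - y * p) + (p * (p * y - y * p) - (p * y - y * p) * p)) =
        p * y * (1 - p) := by
      have e2 : (p * y - y * p) + (p * (p * y - y * p) - (p * y - y * p) * p) =
          (2 : ℂ) • (p * y * (1 - p)) := by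
        rw [two_smul]
        have : p * (p * y - y * p) - (p * y - y * p) * p = (p * p) * y - p * y * p - p * y * p + y * (p * p) := by
          noncomm_ring
        rw [this, hpp]
        noncomm_ring
      rw [e2, smul_smul, inv_mul_cancel₀ two_ne_zero, one_smul]
    rwa [e1] at h2
  have hc3 : ∀ y ∈ L, (1 - p) * y * p ∈ L := by
    intro y hy
    have h1 := st _ (hc2 _ (st _ hy))
    rwa [Matrix.conjTranspose_mul, Matrix.conjTranspose_mul, conjTranspose_sub, conjTranspose_one,
      hps, conjTranspose_conjTranspose, ← mul_assoc] at h1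
  have hqp : (1 - p) * p = 0 := by rw [sub_mul, one_mul, hpp, sub_self]
  have hpq : p * (1 - p) = 0 := by rw [mul_sub, mul_one, hpp, sub_self]
  -- the stable subspace
  have hfix : ∀ v : n → ℂ, vecMulVec v (star w) * p = vecMulVec v (star w) := by
    intro v
    rw [hp, Matrix.vecMulVec_mul_vecMulVec, hw, one_smul]
  let W : Submodule ℂ (n → ℂ) :=
    { carrier := {v | (1 - p) * vecMulVec v (star w) ∈ L}
      add_mem' := by
        intro a b ha hb
        have : (1 - p) * vecMulVec (a + b) (star w) =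
            (1 - p) * vecMulVec a (star w) + (1 - p) * vecMulVec b (star w) := by
          rw [Matrix.add_vecMulVec, mul_add]
        show (1 - p) * vecMulVec (a + b) (star w) ∈ L
        rw [this]
        exact L.add_mem ha hb
      zero_mem' := by
        show (1 - p) * vecMulVec 0 (star w) ∈ L
        rw [Matrix.zero_vecMulVec, mul_zero]
        exact L.zero_mem
      smul_mem' := by
        intro a b hb
        show (1 - p) * vecMulVec (a • b) (star w) ∈ L
        rw [Matrix.smul_vecMulVec, mul_smul_comm]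
        exact L.smul_mem a hb }
  have hWm : ∀ v : n → ℂ, v ∈ W ↔ (1 - p) * vecMulVec v (star w) ∈ L := fun v => Iff.rfl
  have hWst : ∀ y ∈ L, ∀ v ∈ W, y *ᵥ v ∈ W := by
    intro y hy v hv
    rw [hWm] at hv ⊢
    set z := (1 - p) * vecMulVec v (star w) with hz
    have hzp : z * p = z := by rw [hz, mul_assoc, hfix]
    have hqz : (1 - p) * z = z := by
      rw [hz, ← mul_assoc]
      congr 1
      rw [mul_sub, hqp, mul_one, sub_zero]
    have e1 : (1 - p) * vecMulVec (y *ᵥ v) (star w) =
        (1 - p) * (y * z - z * y) * p + (star w ⬝ᵥ (y *ᵥ w)) • z + (star w ⬝ᵥ v) • ((1 - p) * y * p) := by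
      have e2 : vecMulVec v (star w) = z + (star w ⬝ᵥ v) • p := by
        rw [hz, sub_mul, one_mul, hp, Matrix.vecMulVec_mul_vecMulVec, Matrix.vecMulVec_smul]
        abel
      have e3 : z * y * p = (star w ⬝ᵥ (y *ᵥ w)) • z := by
        rw [← hzp, mul_assoc z p y, mul_assoc z (p * y) p, hpx, mul_smul_comm]
      have e4 : (1 - p) * (y * z - z * y) * p = (1 - p) * y * z - (star w ⬝ᵥ (y *ᵥ w)) • z := by
        rw [← e3]
        have : (1 - p) * (y * z - z * y) * p = (1 - p) * y * (z * p) - (1 - p) * z * (y * p) := by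
          noncomm_ring
        rw [this, hzp, hqz, mul_assoc z y p]
      rw [← Matrix.mul_vecMulVec, e2, e4]
      simp only [mul_add, mul_smul_comm, ← mul_assoc]
      abel
    rw [e1]
    exact L.add_mem (L.add_mem (hc3 _ (br _ hy _ hv)) (L.smul_mem _ hv)) (L.smul_mem _ (hc3 _ hy))
  have hW : W = ⊤ := by
    rcases stable98 st irr W hWst with h1 | h1
    · exfalso
      have h2 : w ∈ W := by
        rw [hWm, ← hp, hqp]
        exact L.zero_mem
      rw [h1, Submodule.mem_bot] at h2
      rw [h2] at hw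
      simp at hw
    · exact h1
  have hA : ∀ v : n → ℂ, (1 - p) * vecMulVec v (star w) ∈ L := by
    intro v
    rw [← hWm, hW]
    trivial
  have hB : ∀ v : n → ℂ, vecMulVec w (star v) * (1 - p) ∈ L := by
    intro v
    have h1 := st _ (hA v)
    rwa [Matrix.conjTranspose_mul, conjTranspose_sub, conjTranspose_one, hps,
      Matrix.conjTranspose_vecMulVec, star_star] at h1
  have hC : ∀ y : Matrix n n ℂ, (1 - p) * y * (1 - p) - ((1 - p) * y * (1 - p)).trace • p ∈ L := by
    intro y
    have h1 : ∀ a b : n → ℂ, (1 - p) * vecMulVec a (star b) * (1 - p) -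
        ((1 - p) * vecMulVec a (star b) * (1 - p)).trace • p ∈ L := by
      intro a b
      have h2 := br _ (hA a) _ (hB b)
      have e1 : (1 - p) * vecMulVec a (star w) * (vecMulVec w (star b) * (1 - p)) =
          (1 - p) * vecMulVec a (star b) * (1 - p) := by
        have : (1 - p) * vecMulVec a (star w) * (vecMulVec w (star b) * (1 - p)) =
            (1 - p) * (vecMulVec a (star w) * vecMulVec w (star b)) * (1 - p) := by noncomm_ring
        rw [this, Matrix.vecMulVec_mul_vecMulVec, hw, one_smul]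
      have hqq : (1 - p) * (1 - p) = 1 - p := by rw [mul_sub, hqp, mul_one, sub_zero]
      have e2 : vecMulVec w (star b) * (1 - p) * ((1 - p) * vecMulVec a (star w)) =
          ((1 - p) * vecMulVec a (star b) * (1 - p)).trace • p := by
        have e3 : vecMulVec w (star b) * (1 - p) * ((1 - p) * vecMulVec a (star w)) =
            vecMulVec w (star b) * ((1 - p) * (1 - p)) * vecMulVec a (star w) := by noncomm_ring
        have e4 : ((1 - p) * vecMulVec a (star b) * (1 - p)).trace = star b ⬝ᵥ ((1 - p) *ᵥ a) := by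
          rw [Matrix.trace_mul_comm, ← mul_assoc, hqq, Matrix.mul_vecMulVec, Matrix.trace_vecMulVec,
            dotProduct_comm]
        rw [e3, hqq, e4, mul_assoc, Matrix.mul_vecMulVec, Matrix.vecMulVec_mul_vecMulVec,
          Matrix.vecMulVec_smul, ← hp]
      rw [e1, e2] at h2
      exact h2
    have h2 : y = ∑ i, ∑ j, y i j • vecMulVec (Pi.single i (1 : ℂ)) (star (Pi.single j (1 : ℂ))) := by
      ext a b
      simp only [Matrix.sum_apply, Matrix.smul_apply, Matrix.vecMulVec_apply, Pi.star_apply, smul_eq_mul]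
      rw [Finset.sum_eq_single a, Finset.sum_eq_single b]
      · simp
      · intro j _ hj
        simp [Pi.single_apply, Ne.symm hj]
      · simp
      · intro i _ hi
        simp [Pi.single_apply, Ne.symm hi]
      · simp
    let F : Matrix n n ℂ →ₗ[ℂ] Matrix n n ℂ :=
      { toFun := fun y => (1 - p) * y * (1 - p) - ((1 - p) * y * (1 - p)).trace • p
        map_add' := by
          intro a b
          simp only [mul_add, add_mul, Matrix.trace_add, add_smul]
          abel
        map_smul' := by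
          intro a b
          simp only [mul_smul_comm, smul_mul_assoc, Matrix.trace_smul, smul_sub, smul_smul,
            RingHom.id_apply, smul_eq_mul] }
    have h3 : F y ∈ L := by
      rw [h2, map_sum]
      refine L.sum_mem fun i _ => ?_
      rw [map_sum]
      refine L.sum_mem fun j _ => ?_
      rw [map_smul]
      exact L.smul_mem _ (h1 _ _)
    exact h3
  have h1 : x = ((1 - p) * x * (1 - p) - ((1 - p) * x * (1 - p)).trace • p) + (1 - p) * (x * p) +
      (p * x) * (1 - p) := by
    have e1 : ((1 - p) * x * (1 - p)).trace = - (star w ⬝ᵥ (x *ᵥ w)) := by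
      have e2 : ((1 - p) * x * (1 - p)) = x - p * x - x * p + p * x * p := by noncomm_ring
      rw [e2, Matrix.trace_add, Matrix.trace_sub, Matrix.trace_sub, hx, Matrix.trace_mul_comm x p]
      have e3 : (p * x).trace = star w ⬝ᵥ (x *ᵥ w) := by
        rw [Matrix.trace_mul_comm, hp, Matrix.mul_vecMulVec, Matrix.trace_vecMulVec, dotProduct_comm]
      have e4 : (p * x * p).trace = star w ⬝ᵥ (x *ᵥ w) := by
        rw [Matrix.trace_mul_comm, ← mul_assoc, hpp, e3]
      rw [e3, e4]
      ring
    rw [e1, neg_smul, sub_neg_eq_add, ← hpx]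
    noncomm_ring
  rw [h1]
  refine L.add_mem (L.add_mem (hC x) ?_) ?_
  · have e1 : x * p = vecMulVec (x *ᵥ w) (star w) := by rw [hp, Matrix.mul_vecMulVec]
    rw [e1]
    exact hA _
  · have e1 : p * x = vecMulVec w (star (xᴴ *ᵥ w)) := by
      rw [hp, Matrix.vecMulVec_mul, Matrix.star_mulVec, conjTranspose_conjTranspose]
    rw [e1]
    exact hB _

theorem rank_eq_zero98 {X : Matrix n n ℂ} (h : X.rank = 0) : X = 0 := by
  rw [Matrix.rank, Submodule.finrank_eq_zero, LinearMap.range_eq_bot] at h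
  ext a b
  have := congrFun (LinearMap.congr_fun h (Pi.single b 1)) a
  simpa using this

/-- a Hermitian idempotent of trace one is `w w*` -/
theorem exists_vec98 {p : Matrix n n ℂ} (hp : p * p = p) (hps : pᴴ = p) (hr : p.rank = 1) :
    ∃ w : n → ℂ, star w ⬝ᵥ w = 1 ∧ p = vecMulVec w (star w) := by
  classical
  have h0 : p ≠ 0 := by
    rintro rfl
    rw [Matrix.rank_zero] at hr
    exact absurd hr (by norm_num)
  obtain ⟨v, hv⟩ : ∃ v : n → ℂ, p *ᵥ v ≠ 0 := by
    by_contra hc
    push Not at hc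
    apply h0
    ext a b
    have := congrFun (hc (Pi.single b 1)) a
    simpa using this
  set u := p *ᵥ v with hu
  have hpu : p *ᵥ u = u := by rw [hu, Matrix.mulVec_mulVec, hp]
  set t : ℝ := ∑ i, ‖u i‖ ^ 2 with ht
  have hut : star u ⬝ᵥ u = (t : ℂ) := by
    rw [ht, dotProduct]
    push_cast
    refine Finset.sum_congr rfl fun i _ => ?_
    rw [Pi.star_apply, Complex.star_def, ← Complex.normSq_eq_conj_mul_self, Complex.normSq_eq_norm_sq]
    push_cast
    rfl
  have htpos : 0 < t := by
    rw [ht]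
    obtain ⟨i, hi⟩ : ∃ i, u i ≠ 0 := by
      by_contra hc
      push Not at hc
      exact hv (funext hc)
    refine Finset.sum_pos' (fun i _ => by positivity) ⟨i, Finset.mem_univ _, ?_⟩
    have : 0 < ‖u i‖ := norm_pos_iff.2 hi
    positivity
  set c : ℂ := (((Real.sqrt t)⁻¹ : ℝ) : ℂ) with hc
  have hcc : star c * c * (t : ℂ) = 1 := by
    have h1 : star c = c := by rw [hc, Complex.star_def, Complex.conj_ofReal]
    rw [h1, hc, ← Complex.ofReal_mul, ← Complex.ofReal_mul]
    have h2 : (Real.sqrt t)⁻¹ * (Real.sqrt t)⁻¹ * t = 1 := by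
      have h3 : Real.sqrt t * Real.sqrt t = t := Real.mul_self_sqrt htpos.le
      have h4 : Real.sqrt t ≠ 0 := (Real.sqrt_pos.2 htpos).ne'
      calc (Real.sqrt t)⁻¹ * (Real.sqrt t)⁻¹ * t = (Real.sqrt t)⁻¹ * (Real.sqrt t)⁻¹ * (Real.sqrt t * Real.sqrt t) := by
            rw [h3]
        _ = 1 := by field_simp
    rw [h2]
    simp
  have hw : star (c • u) ⬝ᵥ (c • u) = 1 := by
    rw [star_smul, smul_dotProduct, dotProduct_smul, hut, smul_eq_mul, smul_eq_mul, ← mul_assoc, hcc]
  refine ⟨c • u, hw, ?_⟩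
  set w := c • u with hwd
  have hpw : p *ᵥ w = w := by rw [hwd, Matrix.mulVec_smul, hpu]
  set p' := vecMulVec w (star w) with hp'
  have h1 : p * p' = p' := by rw [hp', Matrix.mul_vecMulVec, hpw]
  have h2 : p' * p = p' := by
    have := congrArg conjTranspose h1
    rwa [conjTranspose_mul, hps, hp', Matrix.conjTranspose_vecMulVec, star_star] at this
  have h3 : p' * p' = p' := by rw [hp', Matrix.vecMulVec_mul_vecMulVec, hw, one_smul]
  have h4 : (p - p') * (p - p') = p - p' := by
    have : (p - p') * (p - p') = p * p - p * p' - p' * p + p' * p' := by noncomm_ring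
    rw [this, hp, h1, h2, h3]
    abel
  have h5 := MH.rank_eq_trace h4
  have h6 : (p - p').trace = 0 := by
    rw [Matrix.trace_sub, ← MH.rank_eq_trace hp, hr, hp', Matrix.trace_vecMulVec, dotProduct_comm, hw]
    simp
  rw [h6] at h5
  have h7 : (p - p').rank = 0 := by exact_mod_cast h5
  exact sub_eq_zero.1 (rank_eq_zero98 h7)

open MH in
/-- **The case of rank one.** -/
theorem Gr.one_sl {h : Matrix n n ℂ} {E : ℝ → Matrix n n ℂ} {Λ : Finset ℝ} (G : Gr L h E Λ)
    (irr : ∀ T : Matrix n n ℂ, (∀ x ∈ L, T * x = x * T) → ∃ c : ℂ, T = c • (1 : Matrix n n ℂ))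
    (hE : E 0 ≠ 1) (hr : (1 - E 0).rank ≤ 1) {x : Matrix n n ℂ} (hx : x.trace = 0) : x ∈ L := by
  classical
  have S := G.spec
  have hmul : ∀ μ, E μ * E μ = E μ := fun μ => by rw [S.mul, if_pos rfl]
  obtain ⟨μ, hμ0, hμ⟩ : ∃ μ : ℝ, μ ≠ 0 ∧ E μ ≠ 0 := by
    by_contra hc
    push Not at hc
    apply hE
    have h1 := S.sum
    by_cases h0 : (0 : ℝ) ∈ Λ
    · rw [Finset.sum_eq_single_of_mem (0 : ℝ) h0 (fun μ _ hμ => hc μ hμ)] at h1
      exact h1
    · rw [Finset.sum_eq_zero (fun μ hμ => hc μ (by rintro rfl; exact h0 hμ))] at h1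
      rw [S.supp 0 h0]
      exact h1
  have hE0 : E 0 * E μ = 0 := by rw [S.mul, if_neg (Ne.symm hμ0)]
  have hE0' : E μ * E 0 = 0 := by rw [S.mul, if_neg hμ0]
  have i1 : (1 - E 0) * (1 - E 0) = 1 - E 0 := by
    have : (1 - E 0) * (1 - E 0) = 1 - E 0 - E 0 + E 0 * E 0 := by noncomm_ring
    rw [this, hmul]
    abel
  have i2 : (1 - E 0 - E μ) * (1 - E 0 - E μ) = 1 - E 0 - E μ := by
    have : (1 - E 0 - E μ) * (1 - E 0 - E μ) = 1 - E 0 - E 0 - E μ - E μ + E 0 * E 0 + E μ * E μ + E 0 * E μ +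
        E μ * E 0 := by noncomm_ring
    rw [this, hmul, hmul, hE0, hE0']
    abel
  have t1 := rank_eq_trace i1
  have t2 := rank_eq_trace i2
  have t3 := rank_eq_trace (hmul μ)
  have t4 : (1 - E 0).rank = (1 - E 0 - E μ).rank + (E μ).rank := by
    have : ((1 - E 0).rank : ℂ) = (((1 - E 0 - E μ).rank + (E μ).rank : ℕ) : ℂ) := by
      rw [Nat.cast_add, t1, t2, t3, ← Matrix.trace_add, sub_add_cancel]
    exact_mod_cast this
  have t5 : (E μ).rank ≠ 0 := fun h0 => hμ (rank_eq_zero98 h0)
  have t6 : (E μ).rank = 1 := by omega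
  have t7 : (1 - E 0 - E μ).rank = 0 := by omega
  replace t7 := rank_eq_zero98 t7
  obtain ⟨w, hw, hwE⟩ := exists_vec98 (hmul μ) (S.star μ) t6
  have hh : h = (0 : ℂ) • (1 : Matrix n n ℂ) + (μ : ℂ) • vecMulVec w (star w) := by
    have h1 : (1 : Matrix n n ℂ) = E 0 + E μ := by
      have : (1 : Matrix n n ℂ) - (E 0 + E μ) = 0 := by rw [← t7]; abel
      exact sub_eq_zero.1 this
    have h2 : h = h * (E 0 + E μ) := by rw [← h1, mul_one]
    rw [h2, mul_add, S.h_mul, S.h_mul, ← hwE]
    simp
  have hh' := G.mem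
  rw [hh] at hh'
  exact sl_of_rank_one G.br G.st irr hw (Complex.ofReal_ne_zero.2 hμ0) hh' hx

end GH
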