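import Pool.Agent.Helper98.GH.Unit
import Pool.Agent.Helper63.GH.Dcom

/-!
Project GH (MP_b8862a_ag), block C4b: if a form `B` is invariant under the elements of nonzero degree and under the
elements on the kernel of `h`, then `L` is, up to scalars, the algebra of all skew matrices for `B`.
-/

set_option linter.unusedSectionVars false
set_option linter.unusedVariables false

open Matrix Module

namespace GH

open MH

variable {n : Type*} [Fintype n] [DecidableEq n] {L : Submodule ℂ (Matrix n n ℂ)} {h : Matrix n n ℂ}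
  {E : ℝ → Matrix n n ℂ} {Λ : Finset ℝ}

theorem zero_of_mulVec98 {X : Matrix n n ℂ} (hX : ∀ v : n → ℂ, X *ᵥ v = 0) : X = 0 := by
  ext a b
  have := congrFun (hX (Pi.single b 1)) a
  simpa using this

/-- a subspace that contains the kernel of `h` and its images under the elements of nonzero degree is everything -/
theorem Gr.span_top98 (G : Gr L h E Λ) (S0 : Sp0 L h E) (Z : Submodule ℂ (n → ℂ)) (h0 : ∀ v, E 0 *ᵥ v ∈ Z)
    (h1 : ∀ ν : ℝ, ν ≠ 0 → ∀ x ∈ Ld L h ν, ∀ v, x *ᵥ (E 0 *ᵥ v) ∈ Z) : Z = ⊤ := by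
  obtain ⟨T, hTT, hTs, hTZ, -⟩ := proj Z
  have e1 : (1 - T) * E 0 = 0 := by
    apply zero_of_mulVec98
    intro v
    rw [sub_mul, one_mul, Matrix.sub_mulVec, ← Matrix.mulVec_mulVec, (hTZ _).1 (h0 v), sub_self]
  have e2 : E 0 * (1 - T) = 0 := by
    have := congrArg conjTranspose e1
    rwa [conjTranspose_mul, conjTranspose_sub, conjTranspose_one, hTs, G.spec.star, conjTranspose_zero] at this
  have e3 : ∀ ν : ℝ, ν ≠ 0 → ∀ x ∈ Ld L h ν, E 0 * x * (1 - T) = 0 := by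
    intro ν hν x hx
    have e4 : (1 - T) * (xᴴ * E 0) = 0 := by
      apply zero_of_mulVec98
      intro v
      have e5 := (hTZ _).1 (h1 (-ν) (neg_ne_zero.2 hν) _ (G.star_Ld hx) v)
      rw [Matrix.mulVec_mulVec v xᴴ (E 0)] at e5
      rw [sub_mul, one_mul, Matrix.sub_mulVec, ← Matrix.mulVec_mulVec v T (xᴴ * E 0), e5, sub_self]
    have := congrArg conjTranspose e4
    rwa [conjTranspose_mul, conjTranspose_mul, conjTranspose_sub, conjTranspose_one, hTs, G.spec.star,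
      conjTranspose_zero, conjTranspose_conjTranspose] at this
  have e5 : (1 - T) = 0 := by
    apply zero_of_mulVec98
    intro v
    apply S0
    · rw [Matrix.mulVec_mulVec, e2, Matrix.zero_mulVec]
    · intro ν hν x hx
      rw [Matrix.mulVec_mulVec, Matrix.mulVec_mulVec, e3 ν hν x hx, Matrix.zero_mulVec]
  rw [eq_top_iff]
  intro v _
  rw [hTZ v]
  have : T = 1 := (sub_eq_zero.1 e5).symm
  rw [this, Matrix.one_mulVec]

/-- the skew matrix `(a bᵀ - ε b aᵀ) B` -/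
def Dm98 (B : Matrix n n ℂ) (ε : ℂ) (a b : n → ℂ) : Matrix n n ℂ :=
  (vecMulVec a b - ε • vecMulVec b a) * B

theorem Dm98_add (B : Matrix n n ℂ) (ε : ℂ) (a a' b : n → ℂ) : Dm98 B ε (a + a') b = Dm98 B ε a b + Dm98 B ε a' b := by
  simp only [Dm98, Matrix.add_vecMulVec, Matrix.vecMulVec_add, smul_add, sub_mul, add_mul]
  abel

theorem Dm98_smul (B : Matrix n n ℂ) (ε c : ℂ) (a b : n → ℂ) : Dm98 B ε (c • a) b = c • Dm98 B ε a b := by
  simp only [Dm98, Matrix.smul_vecMulVec, Matrix.vecMulVec_smul, smul_sub, sub_mul, smul_mul_assoc, smul_smul,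
    mul_comm ε c]

theorem Dm98_swap (B : Matrix n n ℂ) {ε : ℂ} (hε : ε * ε = 1) (a b : n → ℂ) : Dm98 B ε b a = -ε • Dm98 B ε a b := by
  simp only [Dm98, smul_sub, sub_mul, smul_mul_assoc, smul_smul, neg_mul, hε, neg_smul, one_smul]
  abel

theorem Dm98_br (B : Matrix n n ℂ) {ε : ℂ} (hε : ε * ε = 1) (hB : Bᵀ = ε • B) {w l w' l' : n → ℂ}
    (h1 : ∀ a ∈ ({w, w'} : Set (n → ℂ)), ∀ b ∈ ({l, l'} : Set (n → ℂ)), b ⬝ᵥ (B *ᵥ a) = 0) :
    Dm98 B ε w l * Dm98 B ε w' l' - Dm98 B ε w' l' * Dm98 B ε w l =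
      (-ε * (l ⬝ᵥ (B *ᵥ l'))) • Dm98 B ε w w' + (-ε * (w ⬝ᵥ (B *ᵥ w'))) • Dm98 B ε l l' := by
  have hsw : ∀ a b : n → ℂ, a ⬝ᵥ (B *ᵥ b) = ε * (b ⬝ᵥ (B *ᵥ a)) := by
    intro a b
    rw [dotProduct_comm a, ← Matrix.vecMul_transpose, ← Matrix.dotProduct_mulVec, hB, Matrix.smul_mulVec,
      dotProduct_smul, smul_eq_mul]
  have hv : ∀ a b c d : n → ℂ, vecMulVec a b * B * (vecMulVec c d * B) = (b ⬝ᵥ (B *ᵥ c)) • (vecMulVec a d * B) := by
    intro a b c d
    have : vecMulVec a b * B * (vecMulVec c d * B) = vecMulVec a b * (B * vecMulVec c d) * B := by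
      simp only [mul_assoc]
    rw [this, Matrix.mul_vecMulVec, Matrix.vecMulVec_mul_vecMulVec, Matrix.vecMulVec_smul, smul_mul_assoc]
  have z1 : l ⬝ᵥ (B *ᵥ w') = 0 := h1 w' (by simp) l (by simp)
  have z2 : l' ⬝ᵥ (B *ᵥ w) = 0 := h1 w (by simp) l' (by simp)
  have z3 : w ⬝ᵥ (B *ᵥ l') = 0 := by rw [hsw, z2, mul_zero]
  have z4 : w' ⬝ᵥ (B *ᵥ l) = 0 := by rw [hsw, z1, mul_zero]
  have s1 : l' ⬝ᵥ (B *ᵥ l) = ε * (l ⬝ᵥ (B *ᵥ l')) := hsw _ _
  have s2 : w' ⬝ᵥ (B *ᵥ w) = ε * (w ⬝ᵥ (B *ᵥ w')) := hsw _ _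
  simp only [Dm98, sub_mul, mul_sub, smul_mul_assoc, mul_smul_comm, hv, z1, z2, z3, z4, s1, s2, smul_smul,
    zero_smul, smul_zero, sub_zero, zero_sub, smul_sub]
  rcases mul_self_eq_one_iff.1 hε with rfl | rfl
  · module
  · module

theorem Dm98_add_right (B : Matrix n n ℂ) (ε : ℂ) (a b b' : n → ℂ) :
    Dm98 B ε a (b + b') = Dm98 B ε a b + Dm98 B ε a b' := by
  simp only [Dm98, Matrix.add_vecMulVec, Matrix.vecMulVec_add, smul_add, sub_mul, add_mul]
  abel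

theorem form_zero98 {B X Y : Matrix n n ℂ} (hXY : ∀ a b : n → ℂ, (X *ᵥ a) ⬝ᵥ (B *ᵥ (Y *ᵥ b)) = 0) :
    Xᵀ * B * Y = 0 := by
  ext i j
  have h1 := hXY (Pi.single i 1) (Pi.single j 1)
  rw [Matrix.mulVec_mulVec, Matrix.mulVec_single_one, Matrix.mulVec_single_one] at h1
  rw [mul_assoc, Matrix.mul_apply]
  simpa [dotProduct] using h1

theorem sum_single98 (M : Matrix n n ℂ) :
    M = ∑ i, ∑ j, M i j • vecMulVec (Pi.single i (1 : ℂ)) (Pi.single j (1 : ℂ)) := by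
  ext a b
  simp only [Matrix.sum_apply, Matrix.smul_apply, Matrix.vecMulVec_apply, smul_eq_mul]
  rw [Finset.sum_eq_single a, Finset.sum_eq_single b]
  · simp
  · intro j _ hj
    simp [Pi.single_apply, Ne.symm hj]
  · simp
  · intro i _ hi
    simp [Pi.single_apply, Ne.symm hi]
  · simp

/-- the pairs `(u, B⁻¹ uᵀ B)` -/
theorem Gr.pair_form98 (G : Gr L h E Λ) (U : Un L h E) (hk : ∀ T, Ck L E T → ∃ c : ℂ, T = c • E 0)
    {B Bi : Matrix n n ℂ} (hB1 : B * Bi = 1) (hB2 : Bi * B = 1) (h1 : B * E 0 = (E 0)ᵀ * B)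
    (h3 : ∀ z ∈ KK L E, zᵀ * B + B * z = 0) {u : Matrix n n ℂ} (hu : E 0 * u = u) (hu' : u * E 0 = u) :
    Pr98 L h E u (Bi * uᵀ * B) := by
  classical
  have hEE := G.E0_E0
  have hPE : Pr98 L h E (E 0) (E 0) := ⟨hEE, hEE, hEE, hEE, fun ν hν x hx => U ν hν x hx⟩
  have hσE : Bi * (E 0)ᵀ * B = E 0 := by rw [mul_assoc, ← h1, ← mul_assoc, hB2, one_mul]
  set A := Algebra.adjoin ℂ ((KK L E : Set (Matrix n n ℂ)) ∪ {E 0}) with hA
  have hP : ∀ m ∈ A, E 0 * m = m * E 0 ∧ Pr98 L h E (m * E 0) (Bi * (m * E 0)ᵀ * B) := by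
    intro m hm
    rw [hA] at hm
    induction hm using Algebra.adjoin_induction with
    | mem m hm =>
      rcases hm with hm | hm
      · have hm' : m ∈ KK L E := hm
        rw [G.KK_left hm', G.KK_right hm']
        refine ⟨rfl, ?_⟩
        have e1 : Bi * mᵀ * B = -m := by
          rw [mul_assoc, eq_neg_of_add_eq_zero_left (h3 m hm'), mul_neg, ← mul_assoc, hB2, one_mul]
        rw [e1]
        exact Pr98.of_KK G hm'
      · rw [Set.mem_singleton_iff] at hm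
        subst hm
        refine ⟨rfl, ?_⟩
        rw [hEE, hσE]
        exact hPE
    | algebraMap r =>
      rw [Algebra.algebraMap_eq_smul_one, smul_mul_assoc, one_mul, mul_smul_comm, mul_one]
      refine ⟨rfl, ?_⟩
      rw [transpose_smul, mul_smul_comm, smul_mul_assoc, hσE]
      exact hPE.smul r
    | add a b _ _ ha hb =>
      refine ⟨by rw [mul_add, add_mul, ha.1, hb.1], ?_⟩
      rw [add_mul, transpose_add, mul_add, add_mul]
      exact ha.2.add hb.2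
    | mul a b _ _ ha hb =>
      refine ⟨by rw [← mul_assoc, ha.1, mul_assoc, hb.1, mul_assoc], ?_⟩
      have e1 : a * b * E 0 = (a * E 0) * (b * E 0) := by
        rw [mul_assoc a (E 0), ← mul_assoc (E 0) b, hb.1, mul_assoc b, hEE, mul_assoc]
      have e2 : Bi * ((a * E 0) * (b * E 0))ᵀ * B = (Bi * (b * E 0)ᵀ * B) * (Bi * (a * E 0)ᵀ * B) := by
        rw [transpose_mul]
        have : (Bi * (b * E 0)ᵀ * B) * (Bi * (a * E 0)ᵀ * B) = Bi * (b * E 0)ᵀ * (B * Bi) * (a * E 0)ᵀ * B := by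
          simp only [mul_assoc]
        rw [this, hB1, mul_one]
        simp only [mul_assoc]
      rw [e1, e2]
      exact ha.2.mul G hb.2
  have hAst : ∀ m ∈ A, mᴴ ∈ A := by
    intro m hm
    rw [hA] at hm ⊢
    induction hm using Algebra.adjoin_induction with
    | mem m hm =>
      apply Algebra.subset_adjoin
      rcases hm with hm | hm
      · exact Or.inl (G.KK_star hm)
      · rw [Set.mem_singleton_iff] at hm
        subst hm
        exact Or.inr (by rw [G.spec.star]; rfl)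
    | algebraMap r =>
      rw [Algebra.algebraMap_eq_smul_one, conjTranspose_smul, conjTranspose_one, ← Algebra.algebraMap_eq_smul_one]
      exact Subalgebra.algebraMap_mem _ _
    | add a b _ _ ha hb => rw [conjTranspose_add]; exact add_mem ha hb
    | mul a b _ _ ha hb => rw [conjTranspose_mul]; exact mul_mem hb ha
  have hE0A : E 0 ∈ A := Algebra.subset_adjoin (Or.inr rfl)
  have huA : u ∈ A := by
    apply dcom A hAst
    intro y hy
    have hyE := hy _ hE0A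
    obtain ⟨c, hc⟩ := hk (E 0 * y) ⟨by rw [← mul_assoc, hEE], by rw [mul_assoc, hyE, ← mul_assoc, hEE], by
      intro z hz
      have hyz := hy z (Algebra.subset_adjoin (Or.inl hz))
      rw [mul_assoc, hyz, ← mul_assoc, G.KK_left hz, ← mul_assoc, G.KK_right hz]⟩
    have e1 : u * y = c • u := by
      rw [← hu', mul_assoc, hc, mul_smul_comm, hu']
    have e2 : y * u = c • u := by
      rw [← hu, ← mul_assoc, hyE, hc, smul_mul_assoc, hu]
    rw [e1, e2]
  have := (hP u huA).2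
  rwa [hu'] at this

/-- all matrices `(a bᵀ - ε b aᵀ) B` are in `L` -/
theorem Gr.all_D98 (G : Gr L h E Λ) (S0 : Sp0 L h E) (U : Un L h E) (hE : E 0 ≠ 1)
    (hk : ∀ T, Ck L E T → ∃ c : ℂ, T = c • E 0) {B Bi : Matrix n n ℂ} (hB0 : B * E 0 ≠ 0)
    (hB1 : B * Bi = 1) (hB2 : Bi * B = 1) {ε : ℂ} (hε : ε * ε = 1) (hBt : Bᵀ = ε • B)
    (h1 : B * E 0 = (E 0)ᵀ * B) (h2 : ∀ ν : ℝ, ν ≠ 0 → ∀ x ∈ Ld L h ν, xᵀ * B + B * x = 0)
    (h3 : ∀ z ∈ KK L E, zᵀ * B + B * z = 0) (a b : n → ℂ) : Dm98 B ε a b ∈ L := by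
  classical
  have hEE := G.E0_E0
  have hD1 : ∀ ν : ℝ, ν ≠ 0 → ∀ x ∈ Ld L h ν, ∀ k l : n → ℂ, E 0 *ᵥ k = k → E 0 *ᵥ l = l →
      Dm98 B ε (x *ᵥ k) l ∈ L := by
    intro ν hν x hx k l hk' hl
    have e1 : vecMulVec k l * B * E 0 = vecMulVec k l * B := by
      rw [mul_assoc, h1, ← mul_assoc, Matrix.vecMulVec_mul, Matrix.vecMul_transpose, hl]
    have e2 : E 0 * (vecMulVec k l * B) = vecMulVec k l * B := by
      rw [← mul_assoc, Matrix.mul_vecMulVec, hk']
    have h5 := (G.pair_form98 U hk hB1 hB2 h1 h3 e2 e1).mem ν hν x hx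
    have e3 : Bi * (vecMulVec k l * B)ᵀ * B * x = -(ε • (vecMulVec l (x *ᵥ k) * B)) := by
      have e4 : (vecMulVec k l * B)ᵀ = ε • (B * vecMulVec l k) := by
        rw [transpose_mul, hBt, Matrix.transpose_vecMulVec, smul_mul_assoc]
      have e5 : B * x = -(xᵀ * B) := eq_neg_of_add_eq_zero_right (h2 ν hν x hx)
      have e6 : Bi * (vecMulVec k l * B)ᵀ * B * x = ε • ((Bi * B) * vecMulVec l k * (B * x)) := by
        rw [e4]
        simp only [mul_smul_comm, smul_mul_assoc, mul_assoc]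
      rw [e6, hB2, one_mul, e5, mul_neg, ← mul_assoc, Matrix.vecMulVec_mul, Matrix.vecMul_transpose, smul_neg]
    rw [e3, ← mul_assoc, Matrix.mul_vecMulVec] at h5
    rw [Dm98, sub_mul, smul_mul_assoc, sub_eq_add_neg]
    exact h5
  have hD2 : ∀ v l : n → ℂ, E 0 *ᵥ l = l → Dm98 B ε ((1 - E 0) *ᵥ v) l ∈ L := by
    intro v l hl
    let Z : Submodule ℂ (n → ℂ) :=
      { carrier := {v | Dm98 B ε ((1 - E 0) *ᵥ v) l ∈ L}
        add_mem' := by
          intro a b ha hb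
          show Dm98 B ε ((1 - E 0) *ᵥ (a + b)) l ∈ L
          rw [Matrix.mulVec_add, Dm98_add]
          exact L.add_mem ha hb
        zero_mem' := by
          show Dm98 B ε ((1 - E 0) *ᵥ 0) l ∈ L
          have : (1 - E 0) *ᵥ (0 : n → ℂ) = (0 : ℂ) • (0 : n → ℂ) := by simp
          rw [this, Dm98_smul, zero_smul]
          exact L.zero_mem
        smul_mem' := by
          intro a b hb
          show Dm98 B ε ((1 - E 0) *ᵥ (a • b)) l ∈ L
          rw [Matrix.mulVec_smul, Dm98_smul]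
          exact L.smul_mem a hb }
    have hZ : Z = ⊤ := by
      apply G.span_top98 S0
      · intro v
        show Dm98 B ε ((1 - E 0) *ᵥ (E 0 *ᵥ v)) l ∈ L
        have : (1 - E 0) *ᵥ (E 0 *ᵥ v) = (0 : ℂ) • (0 : n → ℂ) := by
          rw [Matrix.mulVec_mulVec, sub_mul, one_mul, hEE, sub_self]
          simp
        rw [this, Dm98_smul, zero_smul]
        exact L.zero_mem
      · intro ν hν x hx v
        show Dm98 B ε ((1 - E 0) *ᵥ (x *ᵥ (E 0 *ᵥ v))) l ∈ L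
        have : (1 - E 0) *ᵥ (x *ᵥ (E 0 *ᵥ v)) = x *ᵥ (E 0 *ᵥ v) := by
          rw [Matrix.sub_mulVec, Matrix.one_mulVec, Matrix.mulVec_mulVec v x (E 0), Matrix.mulVec_mulVec v (E 0),
            ← mul_assoc, G.EE hν hx, Matrix.zero_mulVec, sub_zero]
        rw [this]
        exact hD1 ν hν x hx _ l (by rw [Matrix.mulVec_mulVec, hEE]) hl
    have : v ∈ Z := by rw [hZ]; trivial
    exact this
  have hD3 : ∀ w l : n → ℂ, E 0 *ᵥ w = 0 → E 0 *ᵥ l = l → Dm98 B ε w l ∈ L := by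
    intro w l hw hl
    have := hD2 w l hl
    rwa [Matrix.sub_mulVec, Matrix.one_mulVec, hw, sub_zero] at this
  have hort : ∀ w l : n → ℂ, E 0 *ᵥ w = 0 → E 0 *ᵥ l = l → l ⬝ᵥ (B *ᵥ w) = 0 := by
    intro w l hw hl
    rw [← hl, ← Matrix.vecMul_transpose, ← Matrix.dotProduct_mulVec, Matrix.mulVec_mulVec, ← h1,
      ← Matrix.mulVec_mulVec, hw, Matrix.mulVec_zero, dotProduct_zero]
  have hsw : ∀ a b : n → ℂ, a ⬝ᵥ (B *ᵥ b) = ε * (b ⬝ᵥ (B *ᵥ a)) := by
    intro a b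
    rw [dotProduct_comm a, ← Matrix.vecMul_transpose, ← Matrix.dotProduct_mulVec, hBt, Matrix.smul_mulVec,
      dotProduct_smul, smul_eq_mul]
  -- the two combinations of brackets
  have hbr : ∀ w w' l l' : n → ℂ, E 0 *ᵥ w = 0 → E 0 *ᵥ w' = 0 → E 0 *ᵥ l = l → E 0 *ᵥ l' = l' →
      (l ⬝ᵥ (B *ᵥ l')) • Dm98 B ε w w' ∈ L ∧ (w ⬝ᵥ (B *ᵥ w')) • Dm98 B ε l l' ∈ L := by
    intro w w' l l' hw hw' hl hl'
    have o : ∀ a ∈ ({w, w'} : Set (n → ℂ)), ∀ b ∈ ({l, l'} : Set (n → ℂ)), b ⬝ᵥ (B *ᵥ a) = 0 := by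
      intro a ha b hb
      rcases ha with rfl | ha
      · rcases hb with rfl | hb
        · exact hort _ _ hw hl
        · rw [Set.mem_singleton_iff.1 hb]; exact hort _ _ hw hl'
      · rw [Set.mem_singleton_iff.1 ha]
        rcases hb with rfl | hb
        · exact hort _ _ hw' hl
        · rw [Set.mem_singleton_iff.1 hb]; exact hort _ _ hw' hl'
    have o' : ∀ a ∈ ({w, w'} : Set (n → ℂ)), ∀ b ∈ ({l', l} : Set (n → ℂ)), b ⬝ᵥ (B *ᵥ a) = 0 := by
      rw [Set.pair_comm l' l]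
      exact o
    have b1 := G.br _ (hD3 w l hw hl) _ (hD3 w' l' hw' hl')
    have b2 := G.br _ (hD3 w l' hw hl') _ (hD3 w' l hw' hl)
    rw [Dm98_br B hε hBt o] at b1
    rw [Dm98_br B hε hBt o', hsw l' l, Dm98_swap B hε l l'] at b2
    have c1 := L.smul_mem ε b1
    have c2 := L.smul_mem (-(2 : ℂ)⁻¹) (L.add_mem c1 b2)
    have c3 := L.smul_mem (-(2 : ℂ)⁻¹) (L.sub_mem c1 b2)
    rcases mul_self_eq_one_iff.1 hε with rfl | rfl
    · constructor
      · convert c2 using 1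
        module
      · convert c3 using 1
        module
    · constructor
      · convert c2 using 1
        module
      · convert c3 using 1
        module
  obtain ⟨l, l', hl, hl', hll⟩ : ∃ l l' : n → ℂ, E 0 *ᵥ l = l ∧ E 0 *ᵥ l' = l' ∧ l ⬝ᵥ (B *ᵥ l') ≠ 0 := by
    by_contra hc
    push Not at hc
    apply hB0
    have h5 := form_zero98 (B := B) (X := E 0) (Y := E 0) (fun a b => hc _ _
      (by rw [Matrix.mulVec_mulVec, hEE]) (by rw [Matrix.mulVec_mulVec, hEE]))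
    rw [← h1, mul_assoc, hEE] at h5
    exact h5
  have hQ : (1 - E 0) * (1 - E 0) = 1 - E 0 := by
    have : (1 - E 0) * (1 - E 0) = 1 - E 0 - E 0 + E 0 * E 0 := by noncomm_ring
    rw [this, hEE]
    abel
  have hEQ : E 0 * (1 - E 0) = 0 := by rw [mul_sub, mul_one, hEE, sub_self]
  obtain ⟨w, w', hw, hw', hww⟩ : ∃ w w' : n → ℂ, E 0 *ᵥ w = 0 ∧ E 0 *ᵥ w' = 0 ∧ w ⬝ᵥ (B *ᵥ w') ≠ 0 := by
    by_contra hc
    push Not at hc
    apply hE
    have h5 := form_zero98 (B := B) (X := 1 - E 0) (Y := 1 - E 0) (fun a b => hc _ _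
      (by rw [Matrix.mulVec_mulVec, hEQ, Matrix.zero_mulVec]) (by rw [Matrix.mulVec_mulVec, hEQ, Matrix.zero_mulVec]))
    have e1 : (1 - E 0)ᵀ * B = B * (1 - E 0) := by
      rw [transpose_sub, transpose_one, sub_mul, one_mul, ← h1, mul_sub, mul_one]
    rw [e1, mul_assoc, hQ] at h5
    have h6 : Bi * (B * (1 - E 0)) = 0 := by rw [h5, mul_zero]
    rw [← mul_assoc, hB2, one_mul, sub_eq_zero] at h6
    exact h6.symm
  have hWW : ∀ w w' : n → ℂ, E 0 *ᵥ w = 0 → E 0 *ᵥ w' = 0 → Dm98 B ε w w' ∈ L := by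
    intro w w' hw hw'
    have := L.smul_mem (l ⬝ᵥ (B *ᵥ l'))⁻¹ (hbr w w' l l' hw hw' hl hl').1
    rwa [smul_smul, inv_mul_cancel₀ hll, one_smul] at this
  have hKK : ∀ l l' : n → ℂ, E 0 *ᵥ l = l → E 0 *ᵥ l' = l' → Dm98 B ε l l' ∈ L := by
    intro l l' hl hl'
    have := L.smul_mem (w ⬝ᵥ (B *ᵥ w'))⁻¹ (hbr w w' l l' hw hw' hl hl').2
    rwa [smul_smul, inv_mul_cancel₀ hww, one_smul] at this
  have ea : ∀ a : n → ℂ, a = E 0 *ᵥ a + (1 - E 0) *ᵥ a := by
    intro a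
    rw [← Matrix.add_mulVec]
    simp
  have i1 : ∀ a : n → ℂ, E 0 *ᵥ (E 0 *ᵥ a) = E 0 *ᵥ a := fun a => by rw [Matrix.mulVec_mulVec, hEE]
  have i2 : ∀ a : n → ℂ, E 0 *ᵥ ((1 - E 0) *ᵥ a) = 0 := fun a => by
    rw [Matrix.mulVec_mulVec, hEQ, Matrix.zero_mulVec]
  rw [ea a, ea b, Dm98_add, Dm98_add_right, Dm98_add_right]
  refine L.add_mem (L.add_mem (hKK _ _ (i1 a) (i1 b)) ?_) (L.add_mem (hD3 _ _ (i2 a) (i1 b)) (hWW _ _ (i2 a) (i2 b)))
  rw [Dm98_swap B hε]
  exact L.smul_mem _ (hD3 _ _ (i2 b) (i1 a))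

/-- **C4b.** -/
theorem Gr.skew (G : Gr L h E Λ) (S0 : Sp0 L h E) (U : Un L h E) (hE : E 0 ≠ 1)
    (nr : ∀ T : Matrix n n ℂ, T * h = h * T → (∀ ν : ℝ, ν ≠ 0 → ∀ x ∈ Ld L h ν, T * x = x * T) →
      ∃ c : ℂ, T = c • (1 : Matrix n n ℂ))
    (hk : ∀ T, Ck L E T → ∃ c : ℂ, T = c • E 0) (h4 : 4 ≤ finrank ℂ (KK L E)) {B : Matrix n n ℂ} (hB0 : B * E 0 ≠ 0)
    (h1 : B * E 0 = (E 0)ᵀ * B) (hh : hᵀ * B + B * h = 0) (h2 : ∀ ν : ℝ, ν ≠ 0 → ∀ x ∈ Ld L h ν, xᵀ * B + B * x = 0)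
    (h3 : ∀ z ∈ KK L E, zᵀ * B + B * z = 0) : Ty L := by
  classical
  have hBne : B ≠ 0 := by
    rintro rfl
    exact hB0 (zero_mul _)
  -- the kernel of `B`
  have hker : ∀ v, B *ᵥ v = 0 → v = 0 := by
    intro v hv
    by_contra hv0
    obtain ⟨T, hTT, hTs, hTZ, hTc⟩ := proj (LinearMap.ker B.mulVecLin)
    have hmem : ∀ v, v ∈ LinearMap.ker B.mulVecLin ↔ B *ᵥ v = 0 := fun v => by
      rw [LinearMap.mem_ker, Matrix.mulVecLin_apply]
    have hst : ∀ x : Matrix n n ℂ, xᵀ * B + B * x = 0 → ∀ v ∈ LinearMap.ker B.mulVecLin,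
        x *ᵥ v ∈ LinearMap.ker B.mulVecLin := by
      intro x hx v hv
      rw [hmem] at hv ⊢
      rw [Matrix.mulVec_mulVec, eq_neg_of_add_eq_zero_right hx, Matrix.neg_mulVec, ← Matrix.mulVec_mulVec, hv,
        Matrix.mulVec_zero, neg_zero]
    have hc1 : T * h = h * T := hTc h (hst h hh) (by rw [G.spec.hh]; exact hst h hh)
    have hc2 : ∀ ν : ℝ, ν ≠ 0 → ∀ x ∈ Ld L h ν, T * x = x * T := fun ν hν x hx =>
      hTc x (hst x (h2 ν hν x hx)) (hst _ (h2 (-ν) (neg_ne_zero.2 hν) _ (G.star_Ld hx)))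
    obtain ⟨c, hc⟩ := nr T hc1 hc2
    have h5 : T *ᵥ v = v := (hTZ v).1 ((hmem v).2 hv)
    have h6 : c = 1 := by
      rw [hc, Matrix.smul_mulVec, Matrix.one_mulVec] at h5
      have h7 : (c - 1) • v = 0 := by rw [sub_smul, one_smul, h5, sub_self]
      exact sub_eq_zero.1 ((smul_eq_zero.1 h7).resolve_right hv0)
    apply hBne
    apply zero_of_mulVec98
    intro u
    rw [← hmem, hTZ, hc, h6, one_smul, Matrix.one_mulVec]
  have hBu : IsUnit B := by
    rw [← Matrix.mulVec_injective_iff_isUnit]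
    intro a b hab
    have hab' : B *ᵥ a = B *ᵥ b := hab
    have h5 := hker (a - b) (by rw [Matrix.mulVec_sub, hab', sub_self])
    exact sub_eq_zero.1 h5
  obtain ⟨Bu, hBu'⟩ := hBu
  set Bi : Matrix n n ℂ := ((Bu⁻¹ : (Matrix n n ℂ)ˣ) : Matrix n n ℂ) with hBi
  have hB1 : B * Bi = 1 := by rw [← hBu', hBi, Units.mul_inv]
  have hB2 : Bi * B = 1 := by rw [← hBu', hBi, Units.inv_mul]
  have hiv : ∀ x : Matrix n n ℂ, xᵀ * B + B * x = 0 → Bi * xᵀ = -(x * Bi) := by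
    intro x hx
    have e1 : Bi * xᵀ = Bi * (xᵀ * B) * Bi := by
      rw [mul_assoc Bi, mul_assoc xᵀ, hB1, mul_one]
    rw [e1, eq_neg_of_add_eq_zero_left hx, mul_neg, ← mul_assoc, hB2, one_mul, neg_mul]
  have hcomm : ∀ x F : Matrix n n ℂ, xᵀ * B + B * x = 0 → xᵀ * F + F * x = 0 → Bi * F * x = x * (Bi * F) := by
    intro x F hx hF
    rw [mul_assoc, eq_neg_of_add_eq_zero_right hF, mul_neg, ← mul_assoc, hiv x hx, neg_mul, neg_neg, mul_assoc]
  obtain ⟨ε, hε0⟩ := nr (Bi * Bᵀ) (hcomm h Bᵀ hh (by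
      have := congrArg transpose hh
      rw [transpose_add, transpose_mul, transpose_mul, transpose_transpose, transpose_zero] at this
      rw [add_comm]
      exact this)) (fun ν hν x hx => hcomm x Bᵀ (h2 ν hν x hx) (by
      have := congrArg transpose (h2 ν hν x hx)
      rw [transpose_add, transpose_mul, transpose_mul, transpose_transpose, transpose_zero] at this
      rw [add_comm]
      exact this))
  have hBt : Bᵀ = ε • B := by
    have : B * (Bi * Bᵀ) = ε • B := by rw [hε0, mul_smul_comm, mul_one]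
    rwa [← mul_assoc, hB1, one_mul] at this
  have hε : ε * ε = 1 := by
    have h5 := congrArg transpose hBt
    rw [transpose_transpose, transpose_smul, hBt, smul_smul] at h5
    have h6 : (ε * ε - 1) • B = 0 := by rw [sub_smul, one_smul, ← h5, sub_self]
    exact sub_eq_zero.1 ((smul_eq_zero.1 h6).resolve_right hBne)
  have hD := G.all_D98 S0 U hE hk hB0 hB1 hB2 hε hBt h1 h2 h3
  right
  refine ⟨B, ?_, ⟨Bu, hBu'⟩, ?_, ?_⟩
  · rcases mul_self_eq_one_iff.1 hε with rfl | rfl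
    · left; rw [hBt, one_smul]
    · right; rw [hBt, neg_smul, one_smul]
  · intro x hx
    set M := x * Bi with hM
    have hMB : M * B = x := by rw [hM, mul_assoc, hB2, mul_one]
    have hMt : ε • Mᵀ = -M := by
      have e1 : xᵀ * B = ε • (B * Mᵀ * B) := by
        rw [← hMB, transpose_mul, hBt, smul_mul_assoc, smul_mul_assoc]
      rw [e1] at hx
      have e2 : ε • (B * Mᵀ * B) = -(B * (M * B)) := by rw [hMB]; exact eq_neg_of_add_eq_zero_left hx
      have e3 := congrArg (fun Y => Bi * Y * Bi) e2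
      simp only [mul_smul_comm, smul_mul_assoc, mul_neg, neg_mul] at e3
      have e4 : Bi * (B * Mᵀ * B) * Bi = Mᵀ := by
        have : Bi * (B * Mᵀ * B) * Bi = (Bi * B) * Mᵀ * (B * Bi) := by simp only [mul_assoc]
        rw [this, hB1, hB2, one_mul, mul_one]
      have e5 : Bi * (B * (M * B)) * Bi = M := by
        have : Bi * (B * (M * B)) * Bi = (Bi * B) * M * (B * Bi) := by simp only [mul_assoc]
        rw [this, hB1, hB2, one_mul, mul_one]
      rwa [e4, e5] at e3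
    have h5 : (2 : ℂ) • x = ∑ i, ∑ j, M i j • Dm98 B ε (Pi.single i 1) (Pi.single j 1) := by
      have e1 : ∑ i, ∑ j, M i j • Dm98 B ε (Pi.single i 1) (Pi.single j 1) =
          (∑ i, ∑ j, M i j • vecMulVec (Pi.single i (1 : ℂ)) (Pi.single j (1 : ℂ))) * B -
            ε • ((∑ i, ∑ j, M i j • vecMulVec (Pi.single j (1 : ℂ)) (Pi.single i (1 : ℂ))) * B) := by
        simp only [Finset.sum_mul, Finset.smul_sum, ← Finset.sum_sub_distrib]
        refine Finset.sum_congr rfl fun i _ => Finset.sum_congr rfl fun j _ => ?_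
        simp only [Dm98, sub_mul, smul_sub, smul_mul_assoc]
        rw [smul_comm ε]
      have e2 : ∑ i, ∑ j, M i j • vecMulVec (Pi.single j (1 : ℂ)) (Pi.single i (1 : ℂ)) = Mᵀ := by
        conv_rhs => rw [sum_single98 Mᵀ]
        rw [Finset.sum_comm]
        rfl
      rw [e1, e2, ← sum_single98 M, ← smul_mul_assoc, hMt, neg_mul, sub_neg_eq_add, hMB, two_smul]
    have h6 : (2 : ℂ) • x ∈ L := by
      rw [h5]
      exact L.sum_mem fun i _ => L.sum_mem fun j _ => L.smul_mem _ (hD _ _)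
    have h7 := L.smul_mem (2 : ℂ)⁻¹ h6
    rwa [smul_smul, inv_mul_cancel₀ two_ne_zero, one_smul] at h7
  · intro y₀ hy₀
    refine G.induct (p := fun x => ∃ c : ℂ, xᵀ * B + B * x = c • B) ?_ ?_ ?_ ?_ hy₀
    · intro y hy
      have key : ∀ x : Matrix n n ℂ, xᵀ * B + B * x = 0 → (y * x - x * y)ᵀ * B + B * (y * x - x * y) = 0 →
          xᵀ * (yᵀ * B + B * y) + (yᵀ * B + B * y) * x = 0 := by
        intro x hx hyx
        have e1 : B * x = -(xᵀ * B) := eq_neg_of_add_eq_zero_right hx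
        have e2 : xᵀ * (yᵀ * B + B * y) + (yᵀ * B + B * y) * x =
            xᵀ * yᵀ * B + xᵀ * B * y + yᵀ * (B * x) + B * (y * x) := by noncomm_ring
        have e3 : (y * x - x * y)ᵀ * B + B * (y * x - x * y) =
            xᵀ * yᵀ * B - yᵀ * (xᵀ * B) + B * (y * x) - B * x * y := by
          rw [transpose_sub, transpose_mul, transpose_mul]
          noncomm_ring
        rw [e3, e1] at hyx
        rw [e2, e1, ← hyx]
        noncomm_ring
      obtain ⟨c, hc⟩ := nr (Bi * (yᵀ * B + B * y)) (hcomm h _ hh (key h hh (by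
          have e1 : y * h - h * y = 0 := by
            have := hy.2
            simp only [Complex.ofReal_zero, zero_smul] at this
            rw [← neg_sub, this, neg_zero]
          rw [e1]
          simp))) (fun ν hν x hx => hcomm x _ (h2 ν hν x hx) (key x (h2 ν hν x hx) (by
          have := G.br_Ld hy hx
          rw [zero_add] at this
          exact h2 ν hν _ this)))
      refine ⟨c, ?_⟩
      have : B * (Bi * (yᵀ * B + B * y)) = c • B := by rw [hc, mul_smul_comm, mul_one]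
      rwa [← mul_assoc, hB1, one_mul] at this
    · intro ν hν x hx
      exact ⟨0, by rw [h2 ν hν x hx, zero_smul]⟩
    · exact ⟨0, by simp⟩
    · rintro x y ⟨c, hc⟩ ⟨d, hd⟩
      refine ⟨c + d, ?_⟩
      rw [add_smul, ← hc, ← hd, transpose_add]
      noncomm_ring

end GH
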