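import Pool.Agent.Helper48.GH.GalBase
import Pool.Agent.Helper53.EL.Cliff
import Pool.Agent.Helper56.EL.Lie
import Pool.Agent.Helper14.GH.HW3
import Pool.Agent.Helper14.GH.Cp
import Pool.Agent.Helper21.MH.Cnt
import Pool.Agent.Helper14.GH.Sd
import Pool.Agent.Helper21.MH.Mul

/-!
Project GH (MP_b8862a_ag), l-adic side, block B, first part: a block of the Lie algebra `LG` in coordinates: it is
normalised by the compression of a subgroup of finite index of `Γ`, which is irreducible under all subgroups of finite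
index, and contains the Hodge-Tate elements.
-/

set_option linter.unusedSectionVars false

open Matrix

namespace MH

variable {n : Type*} [Fintype n] [DecidableEq n]
variable {w : ℤ} {Q : Matrix n n ℚ} {S S' : Finset ℤ} {P R : ℤ → Matrix n n ℂ} {Γ : Subgroup (GL n ℂ)}

theorem IsGalW.LG_com (G : IsGalW w Q S P Γ) {X x : Matrix n n ℂ} (hX : X ∈ LG Γ) (hx : x ∈ EC P) :
    X * x = x * X := by
  obtain ⟨Γ', h1, h2, h3⟩ := G.comm
  have h4 : IsTateTensor Γ 1 1 (t11 x) := by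
    refine ⟨Γ', h1, h2, fun g hg => ?_⟩
    rw [slot11, h3 g hg x hx, mul_assoc, ← Units.val_mul, mul_inv_cancel, Units.val_one, mul_one]
  have h5 := hX 1 1 _ h4
  rw [dL_t11] at h5
  have h6 : X * x - x * X = 0 := t11_inj (h5.trans (by funext i; rfl))
  exact sub_eq_zero.1 h6

/-- the Hodge-Tate projections commute with what commutes with the Hodge-Tate element -/
theorem IsHTw.com_of (G : IsHTw w Q S' Γ R) {x : Matrix n n ℂ} (hc : hR S' R * x = x * hR S' R) (p : ℤ) :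
    R p * x = x * R p := by
  classical
  set h := hR S' R with hh
  have hl : ∀ q, R q * h = (q : ℂ) • R q := by
    intro q
    by_cases hq : q ∈ S'
    · rw [hh, hR, Finset.mul_sum, Finset.sum_eq_single q]
      · rw [mul_smul_comm, G.mul, if_pos rfl]
      · intro r _ hr
        rw [mul_smul_comm, G.mul, if_neg (Ne.symm hr), smul_zero]
      · exact fun h => absurd hq h
    · rw [G.supp q hq, zero_mul, smul_zero]
  have hr : ∀ q, h * R q = (q : ℂ) • R q := by
    intro q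
    by_cases hq : q ∈ S'
    · rw [hh, hR, Finset.sum_mul, Finset.sum_eq_single q]
      · rw [smul_mul_assoc, G.mul, if_pos rfl]
      · intro r _ hr
        rw [smul_mul_assoc, G.mul, if_neg hr, smul_zero]
      · exact fun h => absurd hq h
    · rw [G.supp q hq, mul_zero, smul_zero]
  have hz : ∀ q r, q ≠ r → R q * x * R r = 0 := by
    intro q r hqr
    have h2 : (q : ℂ) • (R q * x * R r) = (r : ℂ) • (R q * x * R r) := by
      calc (q : ℂ) • (R q * x * R r) = R q * h * x * R r := by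
            rw [hl, smul_mul_assoc, smul_mul_assoc]
        _ = R q * (h * x) * R r := by simp only [mul_assoc]
        _ = R q * (x * h) * R r := by rw [hc]
        _ = R q * x * (h * R r) := by simp only [mul_assoc]
        _ = (r : ℂ) • (R q * x * R r) := by rw [hr, mul_smul_comm]
    have h3 : ((q : ℂ) - (r : ℂ)) • (R q * x * R r) = 0 := by rw [sub_smul, h2, sub_self]
    rcases smul_eq_zero.mp h3 with h4 | h4
    · exact absurd (by exact_mod_cast sub_eq_zero.mp h4) hqr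
    · exact h4
  by_cases hp : p ∈ S'
  · calc R p * x = R p * x * ∑ q ∈ S', R q := by rw [G.sum, mul_one]
      _ = R p * x * R p := by
          rw [Finset.mul_sum, Finset.sum_eq_single p]
          · intro q _ hq
            exact hz p q (Ne.symm hq)
          · exact fun h => absurd hp h
      _ = (∑ q ∈ S', R q) * x * R p := by
          rw [Finset.sum_mul, Finset.sum_mul, Finset.sum_eq_single p]
          · intro q _ hq
            exact hz q p hq
          · exact fun h => absurd hp h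
      _ = x * R p := by rw [G.sum, one_mul]
  · rw [G.supp p hp, zero_mul, mul_zero]

theorem IsGalW.R_com (G : IsGalW w Q S P Γ) (hG : IsHTw w Q S' Γ R) {x : Matrix n n ℂ} (hx : x ∈ EC P) (p : ℤ) :
    R p * x = x * R p := hG.com_of (G.LG_com hG.hR_mem hx) p

/-- every block is irreducible under all subgroups of finite index that commute with the endomorphisms -/
theorem IsGalW.block_irr (G : IsGalW w Q S P Γ) {e : Matrix n n ℂ}
    (he : IsBlk P e) {Γ' : Subgroup (GL n ℂ)} (hΓ : Γ' ≤ Γ) (hi : Γ'.relIndex Γ ≠ 0)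
    (W : Submodule ℂ (n → ℂ)) (hW : ∀ g ∈ Γ', ∀ w ∈ W, (g : Matrix n n ℂ) *ᵥ w ∈ W) (hWe : ∀ w ∈ W, e *ᵥ w = w) :
    W = ⊥ ∨ ∀ w, e *ᵥ w = w → w ∈ W := by
  classical
  by_cases h0 : W = ⊥
  · exact Or.inl h0
  right
  obtain ⟨W', hW', hWW⟩ := G.ss Γ' hΓ hi W hW
  obtain ⟨w₀, hw₀, hne⟩ := (Submodule.ne_bot_iff W).mp h0
  -- the projection onto `W` along `W'`
  set f : (n → ℂ) →ₗ[ℂ] (n → ℂ) := W.subtype ∘ₗ W.projectionOnto W' hWW with hf
  have f1 : ∀ w ∈ W, f w = w := by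
    intro w hw
    have := Submodule.projectionOnto_apply_left hWW ⟨w, hw⟩
    rw [hf, LinearMap.comp_apply, this]
    rfl
  have f2 : ∀ w ∈ W', f w = 0 := by
    intro w hw
    rw [hf, LinearMap.comp_apply, (Submodule.projectionOnto_apply_eq_zero_iff hWW).mpr hw, map_zero]
  have f3 : ∀ w, f w ∈ W := fun w => (W.projectionOnto W' hWW w).2
  set T := LinearMap.toMatrix' f with hT
  have hTv : ∀ w, T *ᵥ w = f w := fun w => LinearMap.toMatrix'_mulVec f w
  have hTc : ∀ g ∈ Γ', (g : Matrix n n ℂ) * T = T * (g : Matrix n n ℂ) := by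
    intro g hg
    apply Matrix.toLin'.injective
    apply LinearMap.ext
    intro v
    rw [Matrix.toLin'_apply, Matrix.toLin'_apply, ← Matrix.mulVec_mulVec, ← Matrix.mulVec_mulVec, hTv, hTv]
    obtain ⟨y, hy, z, hz, rfl⟩ := Submodule.mem_sup.mp (hWW.sup_eq_top ▸ Submodule.mem_top (x := v))
    rw [map_add, f1 y hy, f2 z hz, add_zero, Matrix.mulVec_add, map_add, f1 _ (hW g hg y hy),
      f2 _ (hW' g hg z hz), add_zero]
  obtain ⟨c, hc⟩ := he.min T (G.cent Γ' hΓ hi T hTc)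
  have hTe : ∀ w, e *ᵥ (T *ᵥ w) = T *ᵥ w := fun w => by rw [hTv]; exact hWe _ (f3 w)
  have hc1 : c = 1 := by
    have h1 : (e * T * e) *ᵥ w₀ = w₀ := by
      rw [← Matrix.mulVec_mulVec, hWe _ hw₀, ← Matrix.mulVec_mulVec, hTe, hTv, f1 _ hw₀]
    rw [hc, Matrix.smul_mulVec, hWe _ hw₀] at h1
    by_contra hn
    apply hne
    have h2 : (c - 1) • w₀ = 0 := by rw [sub_smul, h1, one_smul, sub_self]
    rcases smul_eq_zero.mp h2 with h3 | h3
    · exact absurd (sub_eq_zero.mp h3) hn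
    · exact h3
  intro w hw
  have h1 : (e * T * e) *ᵥ w = w := by rw [hc, hc1, one_smul, hw]
  rw [← Matrix.mulVec_mulVec, hw, ← Matrix.mulVec_mulVec, hTe, hTv] at h1
  rw [← h1]
  exact f3 w

section cmp

variable {r : ℕ} {W : Matrix n (Fin r) ℂ} {V : Matrix (Fin r) n ℂ} {e : Matrix n n ℂ}

/-- compression of a group to a block -/
noncomputable def hom98 (hVW : V * W = 1) (hWV : W * V = e) (Γ' : Subgroup (GL n ℂ))
    (hc : ∀ g ∈ Γ', (g : Matrix n n ℂ) * e = e * (g : Matrix n n ℂ)) : Γ' →* GL (Fin r) ℂ where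
  toFun g := ⟨V * (g.1 : Matrix n n ℂ) * W, V * ((g.1⁻¹ : GL n ℂ) : Matrix n n ℂ) * W, by
      have h1 : (g.1 : Matrix n n ℂ) * ((g.1⁻¹ : GL n ℂ) : Matrix n n ℂ) = 1 := Units.mul_inv g.1
      calc V * (g.1 : Matrix n n ℂ) * W * (V * ((g.1⁻¹ : GL n ℂ) : Matrix n n ℂ) * W)
          = V * ((g.1 : Matrix n n ℂ) * (W * V)) * ((g.1⁻¹ : GL n ℂ) : Matrix n n ℂ) * W := by
            simp only [Matrix.mul_assoc]
        _ = V * W * V * ((g.1 : Matrix n n ℂ) * ((g.1⁻¹ : GL n ℂ) : Matrix n n ℂ)) * W := by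
            rw [hWV, hc g.1 g.2, ← hWV]; simp only [Matrix.mul_assoc]
        _ = 1 := by rw [h1, Matrix.mul_one, Matrix.mul_assoc, hVW, Matrix.mul_one], by
      have h1 : ((g.1⁻¹ : GL n ℂ) : Matrix n n ℂ) * (g.1 : Matrix n n ℂ) = 1 := Units.inv_mul g.1
      calc V * ((g.1⁻¹ : GL n ℂ) : Matrix n n ℂ) * W * (V * (g.1 : Matrix n n ℂ) * W)
          = V * ((g.1⁻¹ : GL n ℂ) : Matrix n n ℂ) * ((W * V) * (g.1 : Matrix n n ℂ)) * W := by
            simp only [Matrix.mul_assoc]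
        _ = V * (((g.1⁻¹ : GL n ℂ) : Matrix n n ℂ) * (g.1 : Matrix n n ℂ)) * (W * V * W) := by
            rw [hWV, ← hc g.1 g.2, ← hWV]; simp only [Matrix.mul_assoc]
        _ = 1 := by rw [h1, Matrix.mul_one, Matrix.mul_assoc, hVW, Matrix.mul_one, hVW]⟩
  map_one' := by
    apply Units.ext
    change V * ((1 : GL n ℂ) : Matrix n n ℂ) * W = 1
    rw [Units.val_one, Matrix.mul_one, hVW]
  map_mul' g g' := by
    apply Units.ext
    change V * ((g.1 * g'.1 : GL n ℂ) : Matrix n n ℂ) * W =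
      V * (g.1 : Matrix n n ℂ) * W * (V * (g'.1 : Matrix n n ℂ) * W)
    rw [Units.val_mul]
    calc V * ((g.1 : Matrix n n ℂ) * (g'.1 : Matrix n n ℂ)) * W
        = V * W * V * ((g.1 : Matrix n n ℂ) * (g'.1 : Matrix n n ℂ)) * W := by rw [hVW, Matrix.one_mul]
      _ = V * ((W * V) * (g.1 : Matrix n n ℂ)) * (g'.1 : Matrix n n ℂ) * W := by simp only [Matrix.mul_assoc]
      _ = V * ((g.1 : Matrix n n ℂ) * (W * V)) * (g'.1 : Matrix n n ℂ) * W := by rw [hWV, hc g.1 g.2]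
      _ = V * (g.1 : Matrix n n ℂ) * W * (V * (g'.1 : Matrix n n ℂ) * W) := by simp only [Matrix.mul_assoc]

/-- the product of compressions -/
theorem cmp_mul98 (hVW : V * W = 1) (hWV : W * V = e) {A : Matrix n n ℂ} (hA : A * e = e * A) (D : Matrix n n ℂ) :
    V * A * W * (V * D * W) = V * (A * D) * W := by
  have hVe : V * e = V := by
    rw [← hWV, ← Matrix.mul_assoc, hVW, Matrix.one_mul]
  calc V * A * W * (V * D * W) = V * (A * (W * V)) * D * W := by simp only [Matrix.mul_assoc]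
    _ = V * e * (A * D) * W := by rw [hWV, hA]; simp only [Matrix.mul_assoc]
    _ = V * (A * D) * W := by rw [hVe]

/-- the group of compressions -/
theorem IsGalW.exists_grp (G : IsGalW w Q S P Γ) (he : IsBlk P e) (hVW : V * W = 1) (hWV : W * V = e) :
    ∃ Δ : Subgroup (GL (Fin r) ℂ), VIrr Δ ∧ ∀ g ∈ Δ, ∀ y ∈ cpL W V (LG Γ),
      (g : Matrix (Fin r) (Fin r) ℂ) * y * ((g⁻¹ : GL (Fin r) ℂ) : Matrix (Fin r) (Fin r) ℂ) ∈ cpL W V (LG Γ) := by
  classical
  have heW : e * W = W := by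
    rw [← hWV, Matrix.mul_assoc, hVW, Matrix.mul_one]
  obtain ⟨Γ', hΓ', hΓi, hcm⟩ := G.comm
  have hc : ∀ g ∈ Γ', (g : Matrix n n ℂ) * e = e * (g : Matrix n n ℂ) := fun g hg => hcm g hg e he.mem
  obtain ⟨φ, hφ⟩ : ∃ φ : Γ' →* GL (Fin r) ℂ, φ = hom98 hVW hWV Γ' hc := ⟨_, rfl⟩
  have hφ1 : ∀ g : Γ', (φ g : Matrix (Fin r) (Fin r) ℂ) = V * (g.1 : Matrix n n ℂ) * W := fun g => by
    rw [hφ]
    rfl
  have hφW : ∀ g : Γ', (g.1 : Matrix n n ℂ) * W = W * (φ g : Matrix (Fin r) (Fin r) ℂ) := by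
    intro g
    rw [hφ1]
    calc (g.1 : Matrix n n ℂ) * W = (g.1 : Matrix n n ℂ) * (e * W) := by rw [heW]
      _ = e * (g.1 : Matrix n n ℂ) * W := by rw [← Matrix.mul_assoc, hc g.1 g.2]
      _ = W * V * (g.1 : Matrix n n ℂ) * W := by rw [hWV]
      _ = W * (V * (g.1 : Matrix n n ℂ) * W) := by simp only [Matrix.mul_assoc]
  refine ⟨φ.range, ?_, ?_⟩
  · intro Γ'' hΓ'' hidx W0 hW0
    obtain ⟨K, hK⟩ : ∃ K, K = Γ''.comap φ := ⟨_, rfl⟩
    have hK1 : K.index ≠ 0 := by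
      rw [hK, Subgroup.index_comap]
      exact hidx
    obtain ⟨Γ3, hΓ3⟩ : ∃ Γ3, Γ3 = K.map Γ'.subtype := ⟨_, rfl⟩
    have h3 : Γ3 ≤ Γ' := by
      rw [hΓ3]
      exact Subgroup.map_subtype_le K
    have hFI : Γ3.relIndex Γ ≠ 0 := by
      rw [← Subgroup.relIndex_mul_relIndex Γ3 Γ' Γ h3 hΓ']
      refine mul_ne_zero ?_ hΓi
      rw [Subgroup.relIndex, Subgroup.subgroupOf, hΓ3, Subgroup.comap_map_eq_self_of_injective]
      · exact hK1
      · exact Subtype.val_injective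
    have hstab : ∀ g ∈ Γ3, ∀ w ∈ W0.map (Matrix.mulVecLin W), (g : Matrix n n ℂ) *ᵥ w ∈
        W0.map (Matrix.mulVecLin W) := by
      intro g hg w hw
      rw [hΓ3, Subgroup.mem_map] at hg
      obtain ⟨g', hg', rfl⟩ := hg
      rw [Submodule.mem_map] at hw
      obtain ⟨w', hw', rfl⟩ := hw
      rw [Submodule.mem_map]
      rw [hK, Subgroup.mem_comap] at hg'
      refine ⟨(φ g' : Matrix (Fin r) (Fin r) ℂ) *ᵥ w', hW0 _ hg' _ hw', ?_⟩
      rw [Matrix.mulVecLin_apply, Matrix.mulVecLin_apply, Matrix.mulVec_mulVec, Matrix.mulVec_mulVec, ← hφW]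
      rfl
    rcases G.block_irr he (h3.trans hΓ') hFI (W0.map (Matrix.mulVecLin W)) hstab (by
      intro w hw
      rw [Submodule.mem_map] at hw
      obtain ⟨w', -, rfl⟩ := hw
      rw [Matrix.mulVecLin_apply, Matrix.mulVec_mulVec, heW]) with h4 | h4
    · left
      rw [eq_bot_iff]
      intro w hw
      have h5 : W *ᵥ w ∈ W0.map (Matrix.mulVecLin W) := ⟨w, hw, rfl⟩
      rw [h4, Submodule.mem_bot] at h5
      have h6 : V *ᵥ (W *ᵥ w) = w := by rw [Matrix.mulVec_mulVec, hVW, Matrix.one_mulVec]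
      rw [h5, Matrix.mulVec_zero] at h6
      rw [Submodule.mem_bot]
      exact h6.symm
    · right
      rw [eq_top_iff]
      intro w _
      have h5 := h4 (W *ᵥ w) (by rw [Matrix.mulVec_mulVec, heW])
      rw [Submodule.mem_map] at h5
      obtain ⟨w', hw', h6⟩ := h5
      rw [Matrix.mulVecLin_apply] at h6
      have h7 := congrArg (V *ᵥ ·) h6
      simp only [Matrix.mulVec_mulVec, hVW, Matrix.one_mulVec] at h7
      rw [← h7]
      exact hw'
  · rintro _ ⟨g, rfl⟩ y ⟨x, hx', rfl⟩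
    refine ⟨(g.1 : Matrix n n ℂ) * x * ((g.1⁻¹ : GL n ℂ) : Matrix n n ℂ), LG_conj (hΓ' g.2) hx', ?_⟩
    rw [← map_inv, hφ1, hφ1, cmp_mul98 hVW hWV (hc g.1 g.2), cmp_mul98 hVW hWV ?_]
    · rfl
    · rw [Matrix.mul_assoc, G.LG_com hx' he.mem, ← Matrix.mul_assoc, hc g.1 g.2, Matrix.mul_assoc]

/-- the compression of `LG` is closed under brackets -/
theorem IsGalW.cpL_br (G : IsGalW w Q S P Γ) (he : IsBlk P e) (hVW : V * W = 1) (hWV : W * V = e) :
    ∀ y ∈ cpL W V (LG Γ), ∀ z ∈ cpL W V (LG Γ), y * z - z * y ∈ cpL W V (LG Γ) := by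
  rintro _ ⟨x, hx, rfl⟩ _ ⟨x', hx', rfl⟩
  refine ⟨x * x' - x' * x, LG_br hx hx', ?_⟩
  rw [cmp_mul98 hVW hWV (G.LG_com hx he.mem), cmp_mul98 hVW hWV (G.LG_com hx' he.mem), Matrix.mul_sub,
    Matrix.sub_mul]

/-- the compressed Hodge-Tate decomposition -/
structure CR (e : Matrix n n ℂ) (W : Matrix n (Fin r) ℂ) (V : Matrix (Fin r) n ℂ) (S' : Finset ℤ)
    (R : ℤ → Matrix n n ℂ) (A : ℤ → Matrix (Fin r) (Fin r) ℂ) : Prop where
  eq : ∀ p, A p = V * R p * W
  mul : ∀ p q, A p * A q = if p = q then A p else 0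
  supp : ∀ p, p ∉ S' → A p = 0
  sum : ∑ p ∈ S', A p = 1
  rank : ∀ p, (A p).rank = (e * R p).rank
  h : V * hR S' R * W = ∑ p ∈ S', (p : ℂ) • A p

theorem IsGalW.exists_CR (G : IsGalW w Q S P Γ) (hG : IsHTw w Q S' Γ R) (he : IsBlk P e) (hVW : V * W = 1)
    (hWV : W * V = e) : ∃ A, CR e W V S' R A := by
  have hRe : ∀ p, R p * e = e * R p := fun p => G.R_com hG he.mem p
  have hAmul : ∀ p q, (V * R p * W) * (V * R q * W) = if p = q then V * R p * W else 0 := by
    intro p q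
    rw [cmp_mul98 hVW hWV (hRe p), hG.mul]
    by_cases hpq : p = q
    · rw [if_pos hpq, if_pos hpq]
    · rw [if_neg hpq, if_neg hpq, Matrix.mul_zero, Matrix.zero_mul]
  refine ⟨fun p => V * R p * W, fun _ => rfl, hAmul, ?_, ?_, ?_, ?_⟩
  · intro p hp
    simp only [hG.supp p hp, Matrix.mul_zero, Matrix.zero_mul]
  · calc ∑ p ∈ S', V * R p * W = V * (∑ p ∈ S', R p) * W := by
          rw [Matrix.mul_sum, Matrix.sum_mul]
      _ = 1 := by rw [hG.sum, Matrix.mul_one, hVW]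
  · intro p
    have h1 : (V * R p * W).trace = ((V * R p * W).rank : ℂ) := trace_eq_rank (by rw [hAmul, if_pos rfl])
    have h2 : (e * R p).trace = ((e * R p).rank : ℂ) := trace_eq_rank (by
      calc e * R p * (e * R p) = e * (R p * e) * R p := by simp only [Matrix.mul_assoc]
        _ = e * e * (R p * R p) := by rw [hRe]; simp only [Matrix.mul_assoc]
        _ = e * R p := by rw [he.idem, hG.mul, if_pos rfl])
    have h3 : (V * R p * W).trace = (e * R p).trace := by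
      rw [Matrix.trace_mul_comm, ← Matrix.mul_assoc, hWV]
    rw [h1, h2] at h3
    exact_mod_cast h3
  · rw [hR, Matrix.mul_sum, Matrix.sum_mul]
    refine Finset.sum_congr rfl fun p _ => ?_
    rw [Matrix.mul_smul, Matrix.smul_mul]

theorem blk_rank (he : IsBlk P e) (hVW : V * W = 1) (hWV : W * V = e) : e.rank = r := by
  have h1 : e.trace = (V * W).trace := by rw [← hWV, Matrix.trace_mul_comm]
  rw [hVW, Matrix.trace_one, trace_eq_rank he.idem, Fintype.card_fin] at h1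
  exact_mod_cast h1

/-- spectral decomposition of a shift of the compressed Hodge-Tate element -/
theorem CR.exists_sd {A : ℤ → Matrix (Fin r) (Fin r) ℂ} (C : CR e W V S' R A) (c : ℤ) :
    ∃ (F : ℝ → Matrix (Fin r) (Fin r) ℂ) (Λ : Finset ℝ),
      SD (V * hR S' R * W - (c : ℂ) • (1 : Matrix (Fin r) (Fin r) ℂ)) F Λ ∧
      (∀ p : ℤ, F ((p - c : ℤ) : ℝ) = A p) ∧ Λ = S'.image (fun p : ℤ => ((p - c : ℤ) : ℝ)) := by
  classical
  have hinj : ∀ p ∈ S', ∀ q ∈ S', ((p - c : ℤ) : ℝ) = ((q - c : ℤ) : ℝ) → p = q := by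
    intro p _ q _ h
    have : p - c = q - c := by exact_mod_cast h
    omega
  obtain ⟨F, hF, hF1, hF0⟩ := sd_of (S := S') (F := A) (c := fun p : ℤ => ((p - c : ℤ) : ℝ)) hinj C.mul C.sum
  refine ⟨F, _, ?_, ?_, rfl⟩
  · have e1 : V * hR S' R * W - (c : ℂ) • (1 : Matrix (Fin r) (Fin r) ℂ) =
        ∑ p ∈ S', ((((p - c : ℤ) : ℝ) : ℝ) : ℂ) • A p := by
      rw [C.h, ← C.sum, Finset.smul_sum, ← Finset.sum_sub_distrib]
      refine Finset.sum_congr rfl fun p _ => ?_
      rw [← sub_smul]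
      congr 1
      push_cast
      ring
    rw [e1]
    exact hF
  · intro p
    by_cases hp : p ∈ S'
    · exact hF1 p hp
    · rw [C.supp p hp]
      refine hF0 _ fun h0 => hp ?_
      obtain ⟨q, hq, hqp⟩ := Finset.mem_image.1 h0
      have h2 : q - c = p - c := by exact_mod_cast hqp
      rwa [show p = q by omega]

/-- B1: a block of `LG` is irreducible. -/
theorem IsGalW.irr' (G : IsGalW w Q S P Γ) (he : IsBlk P e) (hVW : V * W = 1) (hWV : W * V = e)
    (U : Submodule ℂ (Fin r → ℂ)) (hU : ∀ y ∈ cpL W V (LG Γ), ∀ u ∈ U, y *ᵥ u ∈ U) : U = ⊥ ∨ U = ⊤ := by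
  classical
  have hr := blk_rank he hVW hWV
  by_cases h1 : r = 1
  · subst h1
    by_cases h0 : U = ⊥
    · exact Or.inl h0
    · right
      obtain ⟨u, hu, hu0⟩ := (Submodule.ne_bot_iff U).1 h0
      rw [eq_top_iff]
      intro v _
      have hu1 : u 0 ≠ 0 := by
        intro h2
        apply hu0
        funext i
        rw [Subsingleton.elim i 0, h2]
        rfl
      have h3 : v = (v 0 / u 0) • u := by
        funext i
        rw [Subsingleton.elim i 0, Pi.smul_apply, smul_eq_mul, div_mul_cancel₀ _ hu1]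
      rw [h3]
      exact U.smul_mem _ hu
  · obtain ⟨S1, R1, hR1, hg, -⟩ := G.touch e he (by rw [hr]; exact h1)
    obtain ⟨A, C⟩ := G.exists_CR hR1 he hVW hWV
    obtain ⟨Δ, hΔ, hconj⟩ := G.exists_grp he hVW hWV
    obtain ⟨F, Λ, hSD, hF, hΛ⟩ := C.exists_sd 0
    rw [Int.cast_zero, zero_smul, sub_zero] at hSD
    refine clifford (Γ := Δ) _ hconj hΔ (h := V * hR S1 R1 * W) ⟨_, hR1.hR_mem, rfl⟩ hSD ?_ U hU
    intro d hd
    refine hg d fun p => ?_
    by_cases hp : p ∈ S1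
    · have h2 := hd _ (by rw [hΛ]; exact Finset.mem_image_of_mem _ hp)
      rwa [hF, C.rank] at h2
    · rw [hR1.supp p hp, Matrix.mul_zero, Matrix.rank_zero]
      exact dvd_zero d

theorem IsGalW.irr (_H : IsHW w Q S P) (G : IsGalW w Q S P Γ) {e : Matrix n n ℂ} (he : IsBlk P e) {r : ℕ}
    {W : Matrix n (Fin r) ℂ} {V : Matrix (Fin r) n ℂ} (hVW : V * W = 1) (hWV : W * V = e)
    (U : Submodule ℂ (Fin r → ℂ)) (hU : ∀ y ∈ cpL W V (LG Γ), ∀ u ∈ U, y *ᵥ u ∈ U) : U = ⊥ ∨ U = ⊤ :=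
  G.irr' he hVW hWV U hU

/-- a matrix that commutes with the compression of `LG` is a scalar -/
theorem schur98 {k : Type*} [Fintype k] [DecidableEq k] [Nonempty k] (L : Submodule ℂ (Matrix k k ℂ))
    (hirr : ∀ U : Submodule ℂ (k → ℂ), (∀ X ∈ L, ∀ u ∈ U, X *ᵥ u ∈ U) → U = ⊥ ∨ U = ⊤)
    {T : Matrix k k ℂ} (hT : ∀ X ∈ L, T * X = X * T) : ∃ c : ℂ, T = c • (1 : Matrix k k ℂ) := by
  obtain ⟨c, hc⟩ := Module.End.exists_eigenvalue (Matrix.toLin' T)
  refine ⟨c, ?_⟩
  rcases hirr (Module.End.eigenspace (Matrix.toLin' T) c) (by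
    intro X hX w hw
    rw [Module.End.mem_eigenspace_iff, Matrix.toLin'_apply] at hw ⊢
    rw [Matrix.mulVec_mulVec, hT X hX, ← Matrix.mulVec_mulVec, hw, Matrix.mulVec_smul]) with h | h
  · exact absurd h hc
  · apply Matrix.toLin'.injective
    apply LinearMap.ext
    intro u
    have hu : u ∈ Module.End.eigenspace (Matrix.toLin' T) c := by
      rw [h]
      exact Submodule.mem_top
    rw [Module.End.mem_eigenspace_iff] at hu
    rw [hu, Matrix.toLin'_apply, Matrix.smul_mulVec, Matrix.one_mulVec]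

end cmp

end MH
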