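import Pool.Agent.Helper98.GH.Blk
import Pool.Agent.Helper98.GH.One
import Pool.Agent.Helper14.GH.Orth
import Pool.Agent.Helper57.CF.Mat
import Pool.Agent.Helper43.GH.Defs2

/-!
Project GH (MP_b8862a_ag), l-adic side, block B, second part: abstract lemmas on one block: change of basis, the type of
an irreducible Lie algebra with an invariant symmetric form.
-/

set_option linter.unusedSectionVars false

open Matrix Module

namespace GH

open MH

variable {k : Type*} [Fintype k] [DecidableEq k] {L : Submodule ℂ (Matrix k k ℂ)}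

/-- conjugation of a space of matrices -/
def cjS (B Bi : Matrix k k ℂ) (L : Submodule ℂ (Matrix k k ℂ)) : Submodule ℂ (Matrix k k ℂ) where
  carrier := {x | cj Bi B x ∈ L}
  add_mem' := by
    intro x y hx hy
    change cj Bi B (x + y) ∈ L
    rw [cj_add]
    exact L.add_mem hx hy
  zero_mem' := by
    change cj Bi B 0 ∈ L
    rw [cj_zero]
    exact L.zero_mem
  smul_mem' := by
    intro c x hx
    change cj Bi B (c • x) ∈ L
    rw [cj_smul]
    exact L.smul_mem c hx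

theorem mem_cjS {B Bi x : Matrix k k ℂ} : x ∈ cjS B Bi L ↔ cj Bi B x ∈ L := Iff.rfl

/-- the spectral decomposition of a Hermitian matrix is Hermitian -/
theorem spec_of98 {h : Matrix k k ℂ} {E : ℝ → Matrix k k ℂ} {Λ : Finset ℝ} (hE : SD h E Λ) (hh : hᴴ = h) :
    Spec h E Λ := by
  have hF : SD h (fun μ => (E μ)ᴴ) Λ := by
    refine ⟨fun μ ν => ?_, ?_, ?_⟩
    · rw [← Matrix.conjTranspose_mul, hE.mul]
      by_cases hμ : μ = ν
      · rw [if_pos hμ, if_pos hμ.symm, hμ]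
      · rw [if_neg hμ, if_neg (Ne.symm hμ), Matrix.conjTranspose_zero]
    · rw [← Matrix.conjTranspose_sum, hE.sum, Matrix.conjTranspose_one]
    · conv_lhs => rw [← hh, hE.eq]
      rw [Matrix.conjTranspose_sum]
      refine Finset.sum_congr rfl fun μ _ => ?_
      rw [Matrix.conjTranspose_smul]
      congr 1
      exact Complex.conj_ofReal μ
  have hz : ∀ μ ν : ℝ, μ ≠ ν → E μ * (E ν)ᴴ = 0 := by
    intro μ ν hμ
    have e1 : E μ * (h * (E ν)ᴴ) = (ν : ℂ) • (E μ * (E ν)ᴴ) := by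
      rw [hF.l_mul ν, mul_smul_comm]
    rw [← mul_assoc, hE.mul_l, smul_mul_assoc] at e1
    have e2 : ((μ : ℂ) - ν) • (E μ * (E ν)ᴴ) = 0 := by rw [sub_smul, e1, sub_self]
    rcases smul_eq_zero.1 e2 with e3 | e3
    · exact absurd (by exact_mod_cast sub_eq_zero.1 e3) hμ
    · exact e3
  refine ⟨fun μ => ?_, hE.mul, fun μ hμ => hE.supp hμ, hE.sum, hE.eq⟩
  by_cases hμ : μ ∈ Λ
  · have e1 : E μ = E μ * (E μ)ᴴ := by
      conv_lhs => rw [← mul_one (E μ), ← hF.sum, Finset.mul_sum]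
      rw [Finset.sum_eq_single_of_mem μ hμ]
      intro ν _ hν
      exact hz μ ν (Ne.symm hν)
    have e2 : (E μ)ᴴ = E μ * (E μ)ᴴ := by
      conv_lhs => rw [← one_mul (E μ)ᴴ, ← hE.sum, Finset.sum_mul]
      rw [Finset.sum_eq_single_of_mem μ hμ]
      intro ν _ hν
      exact hz ν μ hν
    rw [e2]
    exact e1.symm
  · rw [hE.supp hμ, Matrix.conjTranspose_zero]

/-- conjugation of a spectral decomposition -/
theorem sd_cj98 {h : Matrix k k ℂ} {E : ℝ → Matrix k k ℂ} {Λ : Finset ℝ} (hE : SD h E Λ)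
    {B Bi : Matrix k k ℂ} (h1 : B * Bi = 1) (h2 : Bi * B = 1) :
    SD (cj B Bi h) (fun μ => cj B Bi (E μ)) Λ := by
  refine ⟨fun μ ν => ?_, ?_, ?_⟩
  · rw [cj_mul h2, hE.mul]
    by_cases hμ : μ = ν
    · rw [if_pos hμ, if_pos hμ]
    · rw [if_neg hμ, if_neg hμ, cj_zero]
  · rw [← cj_sum, hE.sum, cj_one h1]
  · conv_lhs => rw [hE.eq, cj_sum]
    exact Finset.sum_congr rfl fun μ _ => cj_smul _ _ _ _

/-- shift of a spectral decomposition -/
theorem sd_shift98 {h : Matrix k k ℂ} {E : ℝ → Matrix k k ℂ} {Λ : Finset ℝ} (S : SD h E Λ) (c : ℝ) :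
    SD (h - (c : ℂ) • (1 : Matrix k k ℂ)) (fun μ => E (μ + c)) (Λ.image (fun μ => μ - c)) where
  mul := by
    intro μ ν
    rw [S.mul]
    by_cases h1 : μ = ν
    · rw [if_pos h1, if_pos (by rw [h1])]
    · rw [if_neg h1, if_neg (fun h2 => h1 (add_right_cancel h2))]
  sum := by
    rw [Finset.sum_image (fun x _ y _ hxy => sub_left_injective hxy)]
    simp only [sub_add_cancel]
    exact S.sum
  eq := by
    rw [Finset.sum_image (fun x _ y _ hxy => sub_left_injective hxy)]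
    simp only [sub_add_cancel]
    conv_lhs => rw [S.eq, ← S.sum, Finset.smul_sum, ← Finset.sum_sub_distrib]
    refine Finset.sum_congr rfl fun μ _ => ?_
    rw [← sub_smul]
    push_cast
    rfl

/-- a basis in which the algebra is closed under the adjoint and `h` is Hermitian -/
theorem exists_coord98 [Nonempty k] (one : (1 : Matrix k k ℂ) ∈ L) (br : ∀ x ∈ L, ∀ y ∈ L, x * y - y * x ∈ L)
    (hirr : ∀ U : Submodule ℂ (k → ℂ), (∀ X ∈ L, ∀ u ∈ U, X *ᵥ u ∈ U) → U = ⊥ ∨ U = ⊤)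
    {h : Matrix k k ℂ} (hh : h ∈ L) {E : ℝ → Matrix k k ℂ} {Λ : Finset ℝ} (hE : SD h E Λ) :
    ∃ B Bi : Matrix k k ℂ, B * Bi = 1 ∧ Bi * B = 1 ∧ (cj B Bi h)ᴴ = cj B Bi h ∧
      ∀ x ∈ cjS B Bi L, xᴴ ∈ cjS B Bi L := by
  classical
  have hc0 : (Fintype.card k : ℂ) ≠ 0 := Nat.cast_ne_zero.2 Fintype.card_ne_zero
  obtain ⟨L0, hL0⟩ : ∃ L0 : Submodule ℂ (Matrix k k ℂ), ∀ y, y ∈ L0 ↔ (y ∈ L ∧ y.trace = 0) := by
    refine ⟨L ⊓ LinearMap.ker (Matrix.traceLinearMap k ℂ ℂ), fun y => ?_⟩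
    rw [Submodule.mem_inf, LinearMap.mem_ker, Matrix.traceLinearMap_apply]
  have hdec : ∀ y ∈ L, y - (y.trace / (Fintype.card k : ℂ)) • (1 : Matrix k k ℂ) ∈ L0 := by
    intro y hy
    rw [hL0]
    refine ⟨L.sub_mem hy (L.smul_mem _ one), ?_⟩
    rw [Matrix.trace_sub, Matrix.trace_smul, Matrix.trace_one, smul_eq_mul, div_mul_cancel₀ _ hc0, sub_self]
  obtain ⟨t, ht⟩ : ∃ t : ℝ, h.trace / (Fintype.card k : ℂ) = (t : ℂ) := by
    refine ⟨(∑ μ ∈ Λ, μ * ((E μ).rank : ℝ)) / (Fintype.card k : ℝ), ?_⟩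
    have h1 : h.trace = ∑ μ ∈ Λ, (μ : ℂ) * ((E μ).rank : ℂ) := by
      conv_lhs => rw [hE.eq]
      rw [Matrix.trace_sum]
      refine Finset.sum_congr rfl fun μ _ => ?_
      rw [Matrix.trace_smul, trace_eq_rank (by rw [hE.mul, if_pos rfl]), smul_eq_mul]
    rw [h1]
    push_cast
    rfl
  obtain ⟨B, Bi, h1, h2, h3, h4⟩ := MH.exists_herm L0
    (fun x hx y hy => by
      rw [hL0] at hx hy ⊢
      refine ⟨br x hx.1 y hy.1, ?_⟩
      rw [Matrix.trace_sub, Matrix.trace_mul_comm, sub_self])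
    (fun U hU => by
      refine hirr U fun X hX u hu => ?_
      have e1 := hU _ (hdec X hX) u hu
      have e2 : X *ᵥ u = (X - (X.trace / (Fintype.card k : ℂ)) • (1 : Matrix k k ℂ)) *ᵥ u +
          (X.trace / (Fintype.card k : ℂ)) • u := by
        rw [Matrix.sub_mulVec, Matrix.smul_mulVec, Matrix.one_mulVec, sub_add_cancel]
      rw [e2]
      exact U.add_mem e1 (U.smul_mem _ hu))
    (fun X hX => ((hL0 X).1 hX).2) (by
      have e1 := hdec h hh
      rw [ht] at e1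
      exact e1) (sd_shift98 hE t)
  refine ⟨B, Bi, h1, h2, ?_, ?_⟩
  · rw [cj_sub, cj_smul, cj_one h1, Matrix.conjTranspose_sub, Matrix.conjTranspose_smul, Matrix.conjTranspose_one] at h3
    have e1 : star (t : ℂ) = (t : ℂ) := Complex.conj_ofReal t
    rw [e1] at h3
    exact sub_left_injective h3
  · intro x hx
    rw [mem_cjS] at hx ⊢
    obtain ⟨c, hc⟩ : ∃ c : ℂ, c = (cj Bi B x).trace / (Fintype.card k : ℂ) := ⟨_, rfl⟩
    have e1 := h4 _ (hdec _ hx)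
    rw [← hc, cj_sub, cj_smul, cj_one h1, cj_cj h1, Matrix.conjTranspose_sub, Matrix.conjTranspose_smul,
      Matrix.conjTranspose_one, cj_sub, cj_smul, cj_one h2] at e1
    have e2 := L.add_mem ((hL0 _).1 e1).1 (L.smul_mem (star c) one)
    rwa [sub_add_cancel] at e2

theorem cjS_one {B Bi : Matrix k k ℂ} (h2 : Bi * B = 1) (one : (1 : Matrix k k ℂ) ∈ L) :
    (1 : Matrix k k ℂ) ∈ cjS B Bi L := by
  rw [mem_cjS, cj_one h2]
  exact one

theorem cjS_br {B Bi : Matrix k k ℂ} (h1 : B * Bi = 1) (br : ∀ x ∈ L, ∀ y ∈ L, x * y - y * x ∈ L) :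
    ∀ x ∈ cjS B Bi L, ∀ y ∈ cjS B Bi L, x * y - y * x ∈ cjS B Bi L := by
  intro x hx y hy
  rw [mem_cjS] at hx hy ⊢
  rw [cj_sub, ← cj_mul h1, ← cj_mul h1]
  exact br _ hx _ hy

theorem cjS_mem {B Bi x : Matrix k k ℂ} (h2 : Bi * B = 1) (hx : x ∈ L) : cj B Bi x ∈ cjS B Bi L := by
  rw [mem_cjS, cj_cj h2]
  exact hx

/-- commutants -/
theorem cjS_irr {B Bi : Matrix k k ℂ} (h1 : B * Bi = 1) (h2 : Bi * B = 1)
    (irr : ∀ T : Matrix k k ℂ, (∀ x ∈ L, T * x = x * T) → ∃ c : ℂ, T = c • (1 : Matrix k k ℂ)) (T : Matrix k k ℂ)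
    (hT : ∀ x ∈ cjS B Bi L, T * x = x * T) : ∃ c : ℂ, T = c • (1 : Matrix k k ℂ) := by
  obtain ⟨c, hc⟩ := irr (cj Bi B T) fun x hx => by
    have e1 := congrArg (cj Bi B) (hT _ (cjS_mem h2 hx))
    rwa [← cj_mul h1, ← cj_mul h1, cj_cj h2] at e1
  refine ⟨c, ?_⟩
  have e2 := congrArg (cj B Bi) hc
  rwa [cj_cj h1, cj_smul, cj_one h1] at e2

theorem trace_cj98 {B Bi : Matrix k k ℂ} (h2 : Bi * B = 1) (x : Matrix k k ℂ) : (cj B Bi x).trace = x.trace := by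
  rw [cj, Matrix.trace_mul_comm, ← mul_assoc, h2, one_mul]

/-- the type does not depend on the basis -/
theorem Ty.of_cjS {B Bi : Matrix k k ℂ} (h1 : B * Bi = 1) (h2 : Bi * B = 1) (hty : Ty (cjS B Bi L)) : Ty L := by
  have b1 : Bᵀ * Biᵀ = 1 := by rw [← Matrix.transpose_mul, h2, Matrix.transpose_one]
  have b2 : Biᵀ * Bᵀ = 1 := by rw [← Matrix.transpose_mul, h1, Matrix.transpose_one]
  rcases hty with hsl | ⟨Q, hQ, hu, hx, hL⟩
  · left
    intro x hx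
    have e1 := hsl (cj B Bi x) (by rw [trace_cj98 h2]; exact hx)
    rwa [mem_cjS, cj_cj h2] at e1
  · right
    have key : ∀ x : Matrix k k ℂ, xᵀ * (Bᵀ * Q * B) + Bᵀ * Q * B * x =
        Bᵀ * ((cj B Bi x)ᵀ * Q + Q * cj B Bi x) * B := by
      intro x
      unfold cj
      rw [Matrix.transpose_mul, Matrix.transpose_mul, mul_add, add_mul]
      congr 1
      · calc xᵀ * (Bᵀ * Q * B) = (Bᵀ * Biᵀ) * (xᵀ * Bᵀ * Q * B) := by
              rw [b1, one_mul]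
              simp only [mul_assoc]
          _ = _ := by simp only [mul_assoc]
      · calc Bᵀ * Q * B * x = Bᵀ * Q * B * x * (Bi * B) := by rw [h2, mul_one]
          _ = _ := by simp only [mul_assoc]
    refine ⟨Bᵀ * Q * B, ?_, ?_, ?_, ?_⟩
    · rcases hQ with hQ | hQ
      · left
        rw [Matrix.transpose_mul, Matrix.transpose_mul, Matrix.transpose_transpose, hQ, mul_assoc]
      · right
        rw [Matrix.transpose_mul, Matrix.transpose_mul, Matrix.transpose_transpose, hQ, neg_mul, mul_neg, mul_assoc]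
    · have u1 : IsUnit Bᵀ := ⟨⟨Bᵀ, Biᵀ, b1, b2⟩, rfl⟩
      have u2 : IsUnit B := ⟨⟨B, Bi, h1, h2⟩, rfl⟩
      exact (u1.mul hu).mul u2
    · intro x hx'
      rw [key] at hx'
      have e1 : (cj B Bi x)ᵀ * Q + Q * cj B Bi x = 0 := by
        calc (cj B Bi x)ᵀ * Q + Q * cj B Bi x =
            (Biᵀ * Bᵀ) * ((cj B Bi x)ᵀ * Q + Q * cj B Bi x) * (B * Bi) := by rw [b2, h1, one_mul, mul_one]
          _ = Biᵀ * (Bᵀ * ((cj B Bi x)ᵀ * Q + Q * cj B Bi x) * B) * Bi := by simp only [mul_assoc]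
          _ = 0 := by rw [hx', mul_zero, zero_mul]
      have e2 := hx _ e1
      rwa [mem_cjS, cj_cj h2] at e2
    · intro x hx'
      obtain ⟨c, hc⟩ := hL _ (cjS_mem h2 hx')
      refine ⟨c, ?_⟩
      rw [key, hc, mul_smul_comm, smul_mul_assoc]

theorem Dg.cj {s B Bi : Matrix k k ℂ} (h1 : B * Bi = 1) (h2 : Bi * B = 1) (hs : Dg s) : Dg (MH.cj B Bi s) := by
  obtain ⟨Λ, F, hm, hS, he⟩ := hs
  refine ⟨Λ, fun μ => MH.cj B Bi (F μ), fun μ ν => ?_, ?_, ?_⟩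
  · rw [cj_mul h2, hm]
    split_ifs
    · rfl
    · rw [cj_zero]
  · rw [← cj_sum, hS, cj_one h1]
  · rw [he, cj_sum]
    exact Finset.sum_congr rfl fun μ _ => cj_smul _ _ _ _

theorem rank_cj_le98 (B Bi x : Matrix k k ℂ) : (cj B Bi x).rank ≤ x.rank := by
  unfold cj
  exact (Matrix.rank_mul_le_left _ _).trans (Matrix.rank_mul_le_right _ _)

theorem Sm.cj {s B Bi : Matrix k k ℂ} (h1 : B * Bi = 1) (hs : Sm s) : Sm (MH.cj B Bi s) := by
  obtain ⟨c, hc⟩ := hs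
  refine ⟨c, ?_⟩
  have e1 : MH.cj B Bi s - c • (1 : Matrix k k ℂ) = MH.cj B Bi (s - c • (1 : Matrix k k ℂ)) := by
    rw [cj_sub, cj_smul, cj_one h1]
  have e2 := rank_cj_le98 B Bi (s - c • (1 : Matrix k k ℂ))
  rw [e1]
  rcases hc with hc | hc
  · exact Or.inl (e2.trans hc)
  · exact Or.inr ((Nat.pow_le_pow_left (Nat.succ_le_succ e2) 2).trans hc)

/-- trace of an infinitesimal similitude -/
theorem trace_sim98 {G Gi x : Matrix k k ℂ} (hG : G * Gi = 1) (hG' : Gi * G = 1) {c : ℂ}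
    (h : xᵀ * G + G * x = c • G) : 2 * x.trace = c * (Fintype.card k : ℂ) := by
  have e1 : ((xᵀ * G + G * x) * Gi).trace = 2 * x.trace := by
    rw [add_mul, Matrix.trace_add, mul_assoc, hG, mul_one, Matrix.trace_transpose, Matrix.trace_mul_comm, ← mul_assoc,
      hG', one_mul, two_mul]
  rw [← e1, h, smul_mul_assoc, hG, Matrix.trace_smul, Matrix.trace_one, smul_eq_mul]

/-- full type and an invariant symmetric form -/
theorem full_of_ty (irr : ∀ T : Matrix k k ℂ, (∀ x ∈ L, T * x = x * T) → ∃ c : ℂ, T = c • (1 : Matrix k k ℂ))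
    (hty : Ty L) {G Gi : Matrix k k ℂ} (hG : G * Gi = 1) (hG' : Gi * G = 1)
    (hGL : ∀ x ∈ L, ∃ c : ℂ, xᵀ * G + G * x = c • G) {x : Matrix k k ℂ} (hx : xᵀ * G + G * x = 0) : x ∈ L := by
  rcases isEmpty_or_nonempty k with hk | hk
  · rw [Subsingleton.elim x 0]
    exact L.zero_mem
  have hc0 : (Fintype.card k : ℂ) ≠ 0 := Nat.cast_ne_zero.2 Fintype.card_ne_zero
  have htr : x.trace = 0 := by
    have e1 := trace_sim98 hG hG' (c := 0) (by rw [zero_smul]; exact hx)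
    rw [zero_mul] at e1
    exact (mul_eq_zero.1 e1).resolve_left two_ne_zero
  rcases hty with hsl | ⟨Q, -, ⟨⟨Q0, Qi, hQ1, hQ2⟩, rfl⟩, hQ, hL⟩
  · exact hsl x htr
  · change Q0 * Qi = 1 at hQ1
    change ∀ y, yᵀ * Q0 + Q0 * y = 0 → y ∈ L at hQ
    change ∀ y ∈ L, ∃ c : ℂ, yᵀ * Q0 + Q0 * y = c • Q0 at hL
    have hcomm : ∀ y : Matrix k k ℂ, yᵀ * Q0 + Q0 * y = 0 → Qi * G * y = y * (Qi * G) := by
      intro y hy
      obtain ⟨d, hd⟩ := hGL y (hQ y hy)
      have e1 := trace_sim98 hQ1 hQ2 (c := 0) (by rw [zero_smul]; exact hy)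
      have e2 := trace_sim98 hG hG' hd
      rw [e1, zero_mul] at e2
      have hd0 : d = 0 := (mul_eq_zero.1 e2.symm).resolve_right hc0
      rw [hd0, zero_smul] at hd
      have e3 : G * y = -(yᵀ * G) := eq_neg_of_add_eq_zero_right hd
      have e4 : yᵀ * Q0 = -(Q0 * y) := eq_neg_of_add_eq_zero_left hy
      calc Qi * G * y = -(Qi * (yᵀ * (Q0 * Qi) * G)) := by
            rw [mul_assoc, e3, mul_neg, hQ1, mul_one]
        _ = -(Qi * (yᵀ * Q0) * Qi * G) := by simp only [mul_assoc]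
        _ = (Qi * Q0) * y * (Qi * G) := by
            rw [e4, mul_neg, neg_mul, neg_mul, neg_neg]
            simp only [mul_assoc]
        _ = y * (Qi * G) := by rw [hQ2, one_mul]
    obtain ⟨c, hc⟩ := irr (Qi * G) fun y hy => by
      obtain ⟨c, hc⟩ := hL y hy
      have e1 : (y - (c / 2) • (1 : Matrix k k ℂ))ᵀ * Q0 + Q0 * (y - (c / 2) • (1 : Matrix k k ℂ)) = 0 := by
        rw [Matrix.transpose_sub, Matrix.transpose_smul, Matrix.transpose_one, sub_mul, mul_sub, smul_mul_assoc,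
          mul_smul_comm, one_mul, mul_one]
        calc yᵀ * Q0 - (c / 2) • Q0 + (Q0 * y - (c / 2) • Q0) = (yᵀ * Q0 + Q0 * y) - c • Q0 := by module
          _ = 0 := by rw [hc, sub_self]
      have e2 := hcomm _ e1
      rw [mul_sub, sub_mul, mul_smul_comm, smul_mul_assoc, one_mul, mul_one] at e2
      exact sub_left_injective e2
    have hGc : G = c • Q0 := by
      calc G = (Q0 * Qi) * G := by rw [hQ1, one_mul]
        _ = Q0 * (Qi * G) := by rw [mul_assoc]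
        _ = c • Q0 := by rw [hc, mul_smul_comm, mul_one]
    have hc1 : c ≠ 0 := by
      rintro rfl
      rw [zero_smul] at hGc
      rw [hGc, zero_mul] at hG
      exact zero_ne_one hG
    apply hQ
    have e3 : c • (xᵀ * Q0 + Q0 * x) = 0 := by
      rw [smul_add, ← mul_smul_comm, ← smul_mul_assoc, ← hGc]
      exact hx
    exact (smul_eq_zero.1 e3).resolve_left hc1

/-- the data of the orthogonal case -/
theorem dat_of_full [Nonempty k] (one : (1 : Matrix k k ℂ) ∈ L) (st : ∀ x ∈ L, xᴴ ∈ L)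
    (irr : ∀ T : Matrix k k ℂ, (∀ x ∈ L, T * x = x * T) → ∃ c : ℂ, T = c • (1 : Matrix k k ℂ))
    {G Gi : Matrix k k ℂ} (hG : G * Gi = 1) (hG' : Gi * G = 1) (hGs : Gᵀ = G)
    (hGL : ∀ x ∈ L, ∃ c : ℂ, xᵀ * G + G * x = c • G)
    (hfull : ∀ x : Matrix k k ℂ, xᵀ * G + G * x = 0 → x ∈ L) {h : Matrix k k ℂ} {E : ℝ → Matrix k k ℂ}
    {Λ : Finset ℝ} (hE : SD h E Λ) (hh : hᴴ = h) (hhG : hᵀ * G + G * h = 0) :
    ∃ (L0 : Submodule ℂ (Matrix k k ℂ)) (Fi : Matrix k k ℂ) (τ : Matrix k k ℂ →ₗ[ℂ] Matrix k k ℂ), Fi * G = 1 ∧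
      (∀ x, τ x = Fi * xᵀ * G) ∧ (∀ x, τ x = -x → x ∈ L0) ∧ Dat τ L0 h E Λ ∧ L1 L0 = L := by
  classical
  have hc0 : (Fintype.card k : ℂ) ≠ 0 := Nat.cast_ne_zero.2 Fintype.card_ne_zero
  obtain ⟨L0, hL0⟩ : ∃ L0 : Submodule ℂ (Matrix k k ℂ), ∀ y, y ∈ L0 ↔ yᵀ * G + G * y = 0 := by
    refine ⟨{ carrier := {y | yᵀ * G + G * y = 0}, add_mem' := ?_, zero_mem' := ?_, smul_mem' := ?_ },
      fun y => Iff.rfl⟩
    · intro a b ha hb
      simp only [Set.mem_ofPred_eq] at ha hb ⊢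
      rw [Matrix.transpose_add, add_mul, mul_add]
      calc aᵀ * G + bᵀ * G + (G * a + G * b) = (aᵀ * G + G * a) + (bᵀ * G + G * b) := by abel
        _ = 0 := by rw [ha, hb, add_zero]
    · simp
    · intro c a ha
      simp only [Set.mem_ofPred_eq] at ha ⊢
      rw [Matrix.transpose_smul, smul_mul_assoc, mul_smul_comm, ← smul_add, ha, smul_zero]
  have htr : ∀ y, yᵀ * G + G * y = 0 → y.trace = 0 := by
    intro y hy
    have e1 := trace_sim98 hG hG' (c := 0) (by rw [zero_smul]; exact hy)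
    rw [zero_mul] at e1
    exact (mul_eq_zero.1 e1).resolve_left two_ne_zero
  have hdec : ∀ y ∈ L, ∃ c : ℂ, y - c • (1 : Matrix k k ℂ) ∈ L0 := by
    intro y hy
    obtain ⟨c, hc⟩ := hGL y hy
    refine ⟨c / 2, ?_⟩
    rw [hL0, Matrix.transpose_sub, Matrix.transpose_smul, Matrix.transpose_one, sub_mul, mul_sub, smul_mul_assoc,
      mul_smul_comm, one_mul, mul_one]
    calc yᵀ * G - (c / 2) • G + (G * y - (c / 2) • G) = (yᵀ * G + G * y) - c • G := by module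
      _ = 0 := by rw [hc, sub_self]
  have hspec := spec_of98 hE hh
  have G0 : Gr L0 h E Λ := by
    refine ⟨hspec, ?_, ?_, (hL0 h).2 hhG⟩
    · intro x hx y hy
      rw [hL0] at hx hy ⊢
      have a1 : xᵀ * G = -(G * x) := eq_neg_of_add_eq_zero_left hx
      have a2 : yᵀ * G = -(G * y) := eq_neg_of_add_eq_zero_left hy
      rw [Matrix.transpose_sub, Matrix.transpose_mul, Matrix.transpose_mul, sub_mul, mul_assoc, mul_assoc, a1, a2,
        mul_neg, mul_neg, ← mul_assoc, ← mul_assoc, a1, a2]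
      simp only [neg_mul, neg_neg, mul_sub, mul_assoc]
      abel
    · intro x hx
      rw [hL0] at hx
      obtain ⟨c, hc⟩ := hGL _ (st x (hfull x hx))
      have e1 := trace_sim98 hG hG' hc
      rw [Matrix.trace_conjTranspose, htr x hx, star_zero, mul_zero] at e1
      have hc1 : c = 0 := (mul_eq_zero.1 e1.symm).resolve_right hc0
      rw [hL0, hc, hc1, zero_smul]
  have irr0 : ∀ T : Matrix k k ℂ, (∀ x ∈ L0, T * x = x * T) → ∃ c : ℂ, T = c • (1 : Matrix k k ℂ) := by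
    intro T hT
    refine irr T fun y hy => ?_
    obtain ⟨c, hc⟩ := hdec y hy
    have e2 := hT _ hc
    rw [mul_sub, sub_mul, mul_smul_comm, smul_mul_assoc, one_mul, mul_one] at e2
    exact sub_left_injective e2
  have hGne : G ≠ 0 := by
    rintro rfl
    rw [zero_mul] at hG
    exact zero_ne_one hG
  obtain ⟨Fi, τ, hFi, hτ, D⟩ := dat_of_form G0 irr0 hGne hGs fun x hx => (hL0 x).1 hx
  have hGFi : G * Fi = 1 := mul_eq_one_comm.1 hFi
  have hfull' : ∀ x, τ x = -x → x ∈ L0 := by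
    intro x hx
    rw [hL0]
    have e1 := congrArg (fun y => G * y) hx
    simp only [hτ, mul_neg] at e1
    rw [← mul_assoc, ← mul_assoc, hGFi, one_mul] at e1
    rw [e1, neg_add_cancel]
  have hLL : L1 L0 = L := by
    ext y
    rw [mem_L1]
    constructor
    · rintro ⟨z, hz, c, rfl⟩
      exact L.add_mem (hfull z ((hL0 z).1 hz)) (L.smul_mem c one)
    · intro hy
      obtain ⟨c, hc⟩ := hdec y hy
      exact ⟨_, hc, c, by rw [sub_add_cancel]⟩
  exact ⟨L0, Fi, τ, hFi, hτ, hfull', D, hLL⟩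

/-- the orthogonal case -/
theorem good_of_full [Nonempty k] (one : (1 : Matrix k k ℂ) ∈ L) (st : ∀ x ∈ L, xᴴ ∈ L)
    (irr : ∀ T : Matrix k k ℂ, (∀ x ∈ L, T * x = x * T) → ∃ c : ℂ, T = c • (1 : Matrix k k ℂ))
    {G Gi : Matrix k k ℂ} (hG : G * Gi = 1) (hG' : Gi * G = 1) (hGs : Gᵀ = G)
    (hGL : ∀ x ∈ L, ∃ c : ℂ, xᵀ * G + G * x = c • G)
    (hfull : ∀ x : Matrix k k ℂ, xᵀ * G + G * x = 0 → x ∈ L) {h : Matrix k k ℂ} {E : ℝ → Matrix k k ℂ}
    {Λ : Finset ℝ} (hE : SD h E Λ) (hh : hᴴ = h) (hhG : hᵀ * G + G * h = 0)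
    (hs : 1 ≤ ∑ μ ∈ Λ.filter (fun μ => 0 < μ), (E μ).rank)
    (hb : (∑ μ ∈ Λ.filter (fun μ => 0 < μ), (E μ).rank) ^ 2 < (E 0).rank) (h4 : 4 ≤ (E 0).rank) :
    Good L h E Λ := by
  obtain ⟨L0, Fi, τ, hFi, hτ, hfull', D, hLL⟩ := dat_of_full one st irr hG hG' hGs hGL hfull hE hh hhG
  have hgood := good_of_skew D hFi hGs hτ hfull' (by rw [D.rank_Pp]; exact hs) (by rw [D.rank_Pp]; exact hb) h4
  rwa [hLL] at hgood

/-- symmetry of the multiplicities -/
theorem card_of_full [Nonempty k] (one : (1 : Matrix k k ℂ) ∈ L) (st : ∀ x ∈ L, xᴴ ∈ L)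
    (irr : ∀ T : Matrix k k ℂ, (∀ x ∈ L, T * x = x * T) → ∃ c : ℂ, T = c • (1 : Matrix k k ℂ))
    {G Gi : Matrix k k ℂ} (hG : G * Gi = 1) (hG' : Gi * G = 1) (hGs : Gᵀ = G)
    (hGL : ∀ x ∈ L, ∃ c : ℂ, xᵀ * G + G * x = c • G)
    (hfull : ∀ x : Matrix k k ℂ, xᵀ * G + G * x = 0 → x ∈ L) {h : Matrix k k ℂ} {E : ℝ → Matrix k k ℂ}
    {Λ : Finset ℝ} (hE : SD h E Λ) (hh : hᴴ = h) (hhG : hᵀ * G + G * h = 0) :
    Fintype.card k = (E 0).rank + 2 * ∑ μ ∈ Λ.filter (fun μ => 0 < μ), (E μ).rank ∧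
      ∀ μ, μ ≠ 0 → (E μ).rank ≤ ∑ μ ∈ Λ.filter (fun μ => 0 < μ), (E μ).rank := by
  obtain ⟨L0, Fi, τ, hFi, hτ, hfull', D, hLL⟩ := dat_of_full one st irr hG hG' hGs hGL hfull hE hh hhG
  have hl : τ h = -h := D.sk h D.mem
  exact ⟨sd_card D.inv hE hl, fun μ hμ => sd_le D.inv hE hl hμ⟩

end GH
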