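import Pool.Agent.Helper98.GH.Sin
import Pool.Agent.Helper21.GH.Gst
import Pool.Agent.Helper21.MH.Full4
import Pool.Agent.Helper14.GH.HW4

/-!
Project GH (MP_b8862a_ag), l-adic side, block B: the type of a block of `LG`.
-/

set_option linter.unusedSectionVars false

open Matrix Module GH

namespace MH

variable {n : Type*} [Fintype n] [DecidableEq n]
variable {w : ℤ} {Q : Matrix n n ℚ} {S S' : Finset ℤ} {P R : ℤ → Matrix n n ℂ} {Γ : Subgroup (GL n ℂ)}

/-! ### the form `Q` -/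

/-- product of tensors -/
private def pt98 {a b : ℕ} (u : (Fin a → n) → ℂ) (v : (Fin b → n) → ℂ) : (Fin a ⊕ Fin b → n) → ℂ :=
  fun i => u (fun k => i (Sum.inl k)) * v (fun k => i (Sum.inr k))

private lemma act_pt98 {a b : ℕ} (u : (Fin a → n) → ℂ) (v : (Fin b → n) → ℂ)
    (A : Fin a ⊕ Fin b → Matrix n n ℂ) (i : Fin a ⊕ Fin b → n) :
    actF A (pt98 u v) i =
      actF (fun k => A (Sum.inl k)) u (fun k => i (Sum.inl k)) *
        actF (fun k => A (Sum.inr k)) v (fun k => i (Sum.inr k)) := by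
  unfold actF
  rw [Finset.sum_mul_sum, ← Fintype.sum_prod_type']
  refine Fintype.sum_equiv (Equiv.sumArrowEquivProdArrow (Fin a) (Fin b) n) _ _ fun j => ?_
  rw [Fintype.prod_sum_type]
  simp only [pt98, Equiv.sumArrowEquivProdArrow, Equiv.coe_fn_mk, Function.comp_def]
  ring

private lemma dact_pt98 {a b : ℕ} (u : (Fin a → n) → ℂ) (v : (Fin b → n) → ℂ)
    (A : Fin a ⊕ Fin b → Matrix n n ℂ) (i : Fin a ⊕ Fin b → n) :
    dact A (pt98 u v) i =
      dact (fun k => A (Sum.inl k)) u (fun k => i (Sum.inl k)) * v (fun k => i (Sum.inr k)) +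
        u (fun k => i (Sum.inl k)) * dact (fun k => A (Sum.inr k)) v (fun k => i (Sum.inr k)) := by
  unfold dact
  simp only [Finset.sum_apply, Fintype.sum_sum_type, act_pt98, Finset.sum_mul, Finset.mul_sum]
  congr 1
  · refine Finset.sum_congr rfl fun k _ => ?_
    congr 1
    · congr 1
      funext l
      by_cases h : l = k
      · subst h
        simp
      · rw [Function.update_of_ne h, Function.update_of_ne (by simpa using h)]
    · have e1 : (fun l => Function.update (fun _ => (1 : Matrix n n ℂ)) (Sum.inl k : Fin a ⊕ Fin b)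
          (A (Sum.inl k)) (Sum.inr l)) = fun _ => 1 := by
        funext l
        rw [Function.update_of_ne (by simp)]
      rw [e1, actF_one]
  · refine Finset.sum_congr rfl fun k _ => ?_
    congr 1
    · have e1 : (fun l => Function.update (fun _ => (1 : Matrix n n ℂ)) (Sum.inr k : Fin a ⊕ Fin b)
          (A (Sum.inr k)) (Sum.inl l)) = fun _ => 1 := by
        funext l
        rw [Function.update_of_ne (by simp)]
      rw [e1, actF_one]
    · congr 1
      funext l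
      by_cases h : l = k
      · subst h
        simp
      · rw [Function.update_of_ne h, Function.update_of_ne (by simpa using h)]

/-- the tensor of a matrix -/
private def q2_98 (M : Matrix n n ℂ) : (Fin 2 → n) → ℂ := fun j => M (j 0) (j 1)

private lemma act_q2_98 (A : Fin 2 → Matrix n n ℂ) (M : Matrix n n ℂ) (i : Fin 2 → n) :
    actF A (q2_98 M) i = (A 0 * M * (A 1)ᵀ) (i 0) (i 1) := by
  unfold actF q2_98
  rw [← Equiv.sum_comp (finTwoArrowEquiv n).symm, Fintype.sum_prod_type]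
  simp only [Matrix.mul_apply, Finset.sum_mul, Matrix.transpose_apply, finTwoArrowEquiv_symm_apply,
    Matrix.cons_val_zero, Matrix.cons_val_one, Fin.prod_univ_two]
  rw [Finset.sum_comm]
  refine Finset.sum_congr rfl fun x _ => Finset.sum_congr rfl fun y _ => ?_
  ring

private lemma dact_q2_98 (A : Fin 2 → Matrix n n ℂ) (M : Matrix n n ℂ) (i : Fin 2 → n) :
    dact A (q2_98 M) i = (A 0 * M + M * (A 1)ᵀ) (i 0) (i 1) := by
  unfold dact
  rw [Fin.sum_univ_two, Pi.add_apply, act_q2_98, act_q2_98, Matrix.add_apply]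
  simp

/-- the elements of `LG` are infinitesimal similitudes -/
theorem IsGalW.LG_sim (H : IsHW w Q S P) (G : IsGalW w Q S P Γ) {X : Matrix n n ℂ} (hX : X ∈ LG Γ) :
    ∃ c : ℂ, Xᵀ * toC Q + toC Q * X = c • toC Q := by
  obtain ⟨_, _, Qi, _, _, hQ1, hQ2, _⟩ := H.exists_basis
  rcases isEmpty_or_nonempty n with hn | hn
  · exact ⟨0, by ext i; exact hn.elim i⟩
  have hgg : ∀ g : GL n ℂ, (g : Matrix n n ℂ) * ((g⁻¹ : GL n ℂ) : Matrix n n ℂ) = 1 := by
    intro g
    rw [← Units.val_mul, mul_inv_cancel, Units.val_one]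
  have hginv : ∀ g ∈ Γ, ∃ z : ℂ,
      toC Q = z • ((((g⁻¹ : GL n ℂ) : Matrix n n ℂ))ᵀ * toC Q * ((g⁻¹ : GL n ℂ) : Matrix n n ℂ)) ∧
      (g : Matrix n n ℂ) * Qi * (g : Matrix n n ℂ)ᵀ = z • Qi := by
    intro g hg
    obtain ⟨z, h1⟩ := G.sim g hg
    set g' := ((g⁻¹ : GL n ℂ) : Matrix n n ℂ) with hg'
    have h2 : (g : Matrix n n ℂ) * g' = 1 := hgg g
    have h3 : g'ᵀ * (g : Matrix n n ℂ)ᵀ = 1 := by rw [← Matrix.transpose_mul, h2, Matrix.transpose_one]
    refine ⟨z, ?_, ?_⟩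
    · calc toC Q = (g'ᵀ * (g : Matrix n n ℂ)ᵀ) * toC Q * ((g : Matrix n n ℂ) * g') := by
            rw [h2, h3, one_mul, mul_one]
        _ = g'ᵀ * ((g : Matrix n n ℂ)ᵀ * toC Q * (g : Matrix n n ℂ)) * g' := by simp only [mul_assoc]
        _ = z • (g'ᵀ * toC Q * g') := by rw [h1, mul_smul_comm, smul_mul_assoc]
    · have h4 : (g : Matrix n n ℂ) = z • (Qi * g'ᵀ * toC Q) := by
        calc (g : Matrix n n ℂ) = (Qi * toC Q) * (g : Matrix n n ℂ) := by rw [hQ2, one_mul]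
          _ = Qi * (g'ᵀ * (g : Matrix n n ℂ)ᵀ) * (toC Q * (g : Matrix n n ℂ)) := by
              rw [h3, mul_one, mul_assoc]
          _ = Qi * g'ᵀ * ((g : Matrix n n ℂ)ᵀ * toC Q * (g : Matrix n n ℂ)) := by simp only [mul_assoc]
          _ = z • (Qi * g'ᵀ * toC Q) := by rw [h1, mul_smul_comm]
      calc (g : Matrix n n ℂ) * Qi * (g : Matrix n n ℂ)ᵀ =
          z • (Qi * g'ᵀ * toC Q * Qi * (g : Matrix n n ℂ)ᵀ) := by
            conv_lhs => rw [mul_assoc]; arg 1; rw [h4]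
            rw [smul_mul_assoc]
            simp only [mul_assoc]
        _ = z • (Qi * (g'ᵀ * (g : Matrix n n ℂ)ᵀ)) := by
            congr 1
            rw [mul_assoc (Qi * g'ᵀ), hQ1, mul_one, mul_assoc]
        _ = z • Qi := by rw [h3, mul_one]
  obtain ⟨x0, y0, hxy⟩ : ∃ x y, Qi x y ≠ 0 := by
    by_contra! hcon
    have h0 : Qi = 0 := by
      ext x y
      exact hcon x y
    rw [h0, mul_zero] at hQ1
    obtain ⟨x⟩ := hn
    have := congrFun (congrFun hQ1 x) x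
    simp at this
  set t : (Fin 2 ⊕ Fin 2 → n) → ℂ := pt98 (q2_98 Qi) (q2_98 (toC Q)) with ht
  have hfix : IsTateTensor Γ 2 2 t := by
    refine ⟨Γ, le_rfl, by rw [Subgroup.relIndex_self]; exact one_ne_zero, ?_⟩
    intro g hg
    obtain ⟨z, h1, h1'⟩ := hginv g hg
    funext i
    rw [ht, act_pt98, act_q2_98, act_q2_98]
    simp only [slot, Sum.elim_inr, Sum.elim_inl, Matrix.transpose_transpose]
    rw [h1']
    have h2 := congrFun (congrFun h1 (i (Sum.inr 0))) (i (Sum.inr 1))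
    simp only [Matrix.smul_apply, smul_eq_mul] at h2 ⊢
    unfold pt98 q2_98
    rw [h2]
    ring
  have h2 := hX 2 2 t hfix
  rw [dL_apply] at h2
  refine ⟨(X * Qi + Qi * Xᵀ) x0 y0 / Qi x0 y0, ?_⟩
  ext x y
  have h3 := congrFun h2 (Sum.elim ![x0, y0] ![x, y])
  rw [ht, dact_pt98, dact_q2_98, dact_q2_98] at h3
  simp only [lslot, Sum.elim_inr, Sum.elim_inl, Matrix.cons_val_zero, Matrix.cons_val_one, Matrix.transpose_neg,
    Matrix.transpose_transpose, Pi.zero_apply, q2_98] at h3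
  rw [neg_mul, mul_neg, ← neg_add, Matrix.neg_apply] at h3
  rw [Matrix.smul_apply, smul_eq_mul, div_mul_eq_mul_div, eq_div_iff hxy]
  linear_combination -h3

/-- a Hodge-Tate element, shifted by half of the weight, is skew -/
theorem IsHTw.skew {m : ℤ} (hm : w = 2 * m) (G : IsHTw w Q S' Γ R) :
    (hR S' R - (m : ℂ) • (1 : Matrix n n ℂ))ᵀ * toC Q + toC Q * (hR S' R - (m : ℂ) • (1 : Matrix n n ℂ)) = 0 := by
  obtain ⟨Z, hZ⟩ : ∃ Z, Z = (hR S' R - (m : ℂ) • (1 : Matrix n n ℂ))ᵀ * toC Q +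
    toC Q * (hR S' R - (m : ℂ) • (1 : Matrix n n ℂ)) := ⟨_, rfl⟩
  rw [← hZ]
  have h2 : ∀ q, (hR S' R - (m : ℂ) • (1 : Matrix n n ℂ)) * R q = ((q - m : ℤ) : ℂ) • R q := by
    intro q
    rw [sub_mul, smul_mul_assoc, one_mul, hR, Finset.sum_mul]
    by_cases hq : q ∈ S'
    · rw [Finset.sum_eq_single_of_mem q hq]
      · rw [smul_mul_assoc, G.mul, if_pos rfl, ← sub_smul]
        congr 1
        push_cast
        ring
      · intro p _ hpq
        rw [smul_mul_assoc, G.mul, if_neg hpq, smul_zero]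
    · rw [G.supp q hq, smul_zero, smul_zero, sub_zero]
      exact Finset.sum_eq_zero fun p _ => mul_zero _
  have h3 : ∀ p q, (R p)ᵀ * Z * R q = 0 := by
    intro p q
    have h4 : (R p)ᵀ * Z * R q = ((p - m : ℤ) : ℂ) • ((R p)ᵀ * toC Q * R q) +
        ((q - m : ℤ) : ℂ) • ((R p)ᵀ * toC Q * R q) := by
      rw [hZ, mul_add, add_mul]
      congr 1
      · rw [← mul_assoc, ← transpose_mul, h2, transpose_smul, smul_mul_assoc, smul_mul_assoc]
      · rw [mul_assoc, mul_assoc, h2, mul_smul_comm, mul_smul_comm, mul_assoc]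
    rw [h4, ← add_smul]
    by_cases hpq : p + q = w
    · have h5 : (((p - m : ℤ) : ℂ) + ((q - m : ℤ) : ℂ)) = 0 := by
        rw [← Int.cast_add, show p - m + (q - m) = 0 by omega, Int.cast_zero]
      rw [h5, zero_smul]
    · rw [G.orth p q hpq, smul_zero]
  calc Z = (∑ p ∈ S', R p)ᵀ * Z * ∑ q ∈ S', R q := by
        rw [G.sum, transpose_one, one_mul, mul_one]
    _ = ∑ q ∈ S', ∑ p ∈ S', (R p)ᵀ * Z * R q := by
        rw [transpose_sum, Matrix.mul_sum]
        refine Finset.sum_congr rfl fun q _ => ?_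
        rw [Matrix.sum_mul, Matrix.sum_mul]
    _ = 0 := Finset.sum_eq_zero fun q _ => Finset.sum_eq_zero fun p _ => h3 p q

section cmp

variable {r : ℕ} {W : Matrix n (Fin r) ℂ} {V : Matrix (Fin r) n ℂ} {e : Matrix n n ℂ}

theorem mem_cpS {L : Submodule ℂ (Matrix n n ℂ)} {x : Matrix (Fin r) (Fin r) ℂ} :
    x ∈ cpS W V L ↔ ∃ y ∈ cpL W V L, ∃ c : ℂ, x = y + c • (1 : Matrix (Fin r) (Fin r) ℂ) :=
  GH.mem_L1 (L := cpL W V L)

theorem one_cpS {L : Submodule ℂ (Matrix n n ℂ)} : (1 : Matrix (Fin r) (Fin r) ℂ) ∈ cpS W V L :=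
  GH.one_L1 (L := cpL W V L)

theorem le_cpS {L : Submodule ℂ (Matrix n n ℂ)} {x : Matrix (Fin r) (Fin r) ℂ} (hx : x ∈ cpL W V L) :
    x ∈ cpS W V L := GH.le_L1 hx

theorem IsGalW.cpS_br (G : IsGalW w Q S P Γ) (he : IsBlk P e) (hVW : V * W = 1) (hWV : W * V = e) :
    ∀ x ∈ cpS W V (LG Γ), ∀ y ∈ cpS W V (LG Γ), x * y - y * x ∈ cpS W V (LG Γ) := by
  intro x hx y hy
  obtain ⟨x', hx', c, rfl⟩ := mem_cpS.1 hx
  obtain ⟨y', hy', d, rfl⟩ := mem_cpS.1 hy
  have e1 : (x' + c • (1 : Matrix (Fin r) (Fin r) ℂ)) * (y' + d • (1 : Matrix (Fin r) (Fin r) ℂ)) -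
      (y' + d • (1 : Matrix (Fin r) (Fin r) ℂ)) * (x' + c • (1 : Matrix (Fin r) (Fin r) ℂ)) = x' * y' - y' * x' := by
    simp only [add_mul, mul_add, mul_smul_comm, smul_mul_assoc, mul_one, one_mul, smul_add]
    rw [smul_comm c d]
    abel
  rw [e1]
  exact le_cpS (G.cpL_br he hVW hWV _ hx' _ hy')

theorem IsGalW.cpS_irr (G : IsGalW w Q S P Γ) (he : IsBlk P e) (hVW : V * W = 1) (hWV : W * V = e)
    (U : Submodule ℂ (Fin r → ℂ)) (hU : ∀ y ∈ cpS W V (LG Γ), ∀ u ∈ U, y *ᵥ u ∈ U) : U = ⊥ ∨ U = ⊤ :=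
  G.irr' he hVW hWV U fun y hy => hU y (le_cpS hy)

theorem IsGalW.cpS_schur (G : IsGalW w Q S P Γ) (he : IsBlk P e) (hVW : V * W = 1) (hWV : W * V = e) (hr : 0 < r)
    (T : Matrix (Fin r) (Fin r) ℂ) (hT : ∀ x ∈ cpS W V (LG Γ), T * x = x * T) :
    ∃ c : ℂ, T = c • (1 : Matrix (Fin r) (Fin r) ℂ) := by
  have : Nonempty (Fin r) := ⟨⟨0, hr⟩⟩
  exact schur98 _ (G.cpS_irr he hVW hWV) hT

/-- the commutant of the conjugates of a small element -/
theorem IsGalW.hS_of (G : IsGalW w Q S P Γ) (he : IsBlk P e) (hVW : V * W = 1) (hWV : W * V = e) (hr : 2 ≤ r)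
    (hR : IsHTw w Q S' Γ R) (hg : ∀ d : ℕ, (∀ p, d ∣ (e * R p).rank) → d = 1) (hD : DomG R e)
    (T : Matrix (Fin r) (Fin r) ℂ) (hT : ∀ s ∈ cpS W V (LG Γ), Dg s → Sm s → T * s = s * T) :
    ∃ c : ℂ, T = c • (1 : Matrix (Fin r) (Fin r) ℂ) := by
  classical
  have : Nonempty (Fin r) := ⟨⟨0, by omega⟩⟩
  have hre := blk_rank he hVW hWV
  obtain ⟨A, C⟩ := G.exists_CR hR he hVW hWV
  obtain ⟨Δ, hΔ, hconj⟩ := G.exists_grp he hVW hWV
  obtain ⟨F, Λ, hSD, hF, hΛ⟩ := C.exists_sd 0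
  rw [Int.cast_zero, zero_smul, sub_zero] at hSD
  set s := V * MH.hR S' R * W with hs
  have hdg : Dg s := by
    rw [hs, C.h]
    refine dg_of (c := fun p : ℤ => (p : ℂ)) ?_ C.mul C.sum
    intro p _ q _ h
    exact_mod_cast h
  have hsm : Sm s := by
    obtain ⟨p, hp⟩ := hD
    have hp0 : p ∈ S' := by
      by_contra h0
      rw [hR.supp p h0, Matrix.mul_zero, Matrix.rank_zero, hre] at hp
      rcases hp with hp | hp
      · omega
      · have h1 : r - 0 + 1 ≤ (r - 0 + 1) ^ 2 := Nat.le_self_pow two_ne_zero _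
        omega
    have h1 := rank_shift_le (c := fun p : ℤ => (p : ℂ)) C.mul C.sum hp0
    rw [← C.h, ← hs, Fintype.card_fin, C.rank] at h1
    refine ⟨(p : ℂ), ?_⟩
    rw [Fintype.card_fin]
    rw [hre] at hp
    rcases hp with hp | hp
    · left
      omega
    · right
      refine (Nat.pow_le_pow_left ?_ 2).trans hp
      omega
  obtain ⟨L', hL'⟩ : ∃ L' : Submodule ℂ (Matrix (Fin r) (Fin r) ℂ), L' = Submodule.span ℂ
    {x | ∃ g ∈ Δ, x = (g : Matrix (Fin r) (Fin r) ℂ) * s * ((g⁻¹ : GL (Fin r) ℂ) : Matrix (Fin r) (Fin r) ℂ)} :=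
    ⟨_, rfl⟩
  have hconj' : ∀ g ∈ Δ, ∀ y ∈ L', (g : Matrix (Fin r) (Fin r) ℂ) * y *
      ((g⁻¹ : GL (Fin r) ℂ) : Matrix (Fin r) (Fin r) ℂ) ∈ L' := by
    intro g hg' y hy
    rw [hL'] at hy ⊢
    induction hy using Submodule.span_induction with
    | mem y hy =>
      obtain ⟨g', hg'', rfl⟩ := hy
      refine Submodule.subset_span ⟨g * g', Δ.mul_mem hg' hg'', ?_⟩
      rw [_root_.mul_inv_rev, Units.val_mul, Units.val_mul]
      simp only [mul_assoc]
    | zero => rw [mul_zero, zero_mul]; exact Submodule.zero_mem _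
    | add x y _ _ hx hy => rw [mul_add, add_mul]; exact Submodule.add_mem _ hx hy
    | smul c x _ hx => rw [mul_smul_comm, smul_mul_assoc]; exact Submodule.smul_mem _ c hx
  refine schur98 L' (fun U hU => ?_) fun X hX => ?_
  · refine clifford (Γ := Δ) L' hconj' hΔ (h := s) ?_ hSD ?_ U hU
    · rw [hL']
      refine Submodule.subset_span ⟨1, Δ.one_mem, ?_⟩
      rw [inv_one, Units.val_one, one_mul, mul_one]
    · intro d hd
      refine hg d fun p => ?_
      by_cases hp : p ∈ S'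
      · have h2 := hd _ (by rw [hΛ]; exact Finset.mem_image_of_mem _ hp)
        rwa [hF, C.rank] at h2
      · rw [hR.supp p hp, Matrix.mul_zero, Matrix.rank_zero]
        exact dvd_zero d
  · rw [hL'] at hX
    induction hX using Submodule.span_induction with
    | mem y hy =>
      obtain ⟨g, hg', rfl⟩ := hy
      have h1 : (g : Matrix (Fin r) (Fin r) ℂ) * ((g⁻¹ : GL (Fin r) ℂ) : Matrix (Fin r) (Fin r) ℂ) = 1 := by
        rw [← Units.val_mul, mul_inv_cancel, Units.val_one]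
      have h2 : ((g⁻¹ : GL (Fin r) ℂ) : Matrix (Fin r) (Fin r) ℂ) * (g : Matrix (Fin r) (Fin r) ℂ) = 1 := by
        rw [← Units.val_mul, inv_mul_cancel, Units.val_one]
      exact hT _ (le_cpS (hconj g hg' s ⟨_, hR.hR_mem, rfl⟩)) (Dg.cj h1 h2 hdg) (Sm.cj h1 hsm)
    | zero => rw [mul_zero, zero_mul]
    | add x y _ _ hx hy => rw [mul_add, add_mul, hx, hy]
    | smul c x _ hx => rw [mul_smul_comm, smul_mul_assoc, hx]

/-- the invariant symmetric form in coordinates -/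
theorem IsGalW.exists_form (H : IsHW w Q S P) (G : IsGalW w Q S P Γ) (he : IsBlk P e) (hVW : V * W = 1)
    (hWV : W * V = e) {m : ℤ} (hm : w = 2 * m) (hO : OrthB Q P e) :
    ∃ F Fi : Matrix (Fin r) (Fin r) ℂ, F * Fi = 1 ∧ Fi * F = 1 ∧ Fᵀ = F ∧
      (∀ x ∈ cpS W V (LG Γ), ∃ c : ℂ, xᵀ * F + F * x = c • F) ∧
      ∀ (S1 : Finset ℤ) (R1 : ℤ → Matrix n n ℂ), IsHTw w Q S1 Γ R1 →
        (V * hR S1 R1 * W - (m : ℂ) • (1 : Matrix (Fin r) (Fin r) ℂ))ᵀ * F +
          F * (V * hR S1 R1 * W - (m : ℂ) • (1 : Matrix (Fin r) (Fin r) ℂ)) = 0 := by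
  classical
  obtain ⟨x, hx, hxs, hx0⟩ := hO
  have hQs : (toC Q)ᵀ = toC Q := by
    rw [H.Q_symm, hm, _root_.zpow_mul]
    norm_num
  have heW : e * W = W := by
    rw [← hWV, Matrix.mul_assoc, hVW, Matrix.mul_one]
  have hVe : V * e = V := by
    rw [← hWV, ← Matrix.mul_assoc, hVW, Matrix.one_mul]
  obtain ⟨F, hF⟩ : ∃ F, F = Wᵀ * (toC Q * x) * W := ⟨_, rfl⟩
  have hFs : Fᵀ = F := by
    rw [hF, Matrix.transpose_mul, Matrix.transpose_mul, Matrix.transpose_transpose, Matrix.transpose_mul, hQs, hxs,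
      ← Matrix.mul_assoc]
  have key : ∀ (X : Matrix n n ℂ) (c : ℂ), X * e = e * X → X * x = x * X → Xᵀ * toC Q + toC Q * X = c • toC Q →
      (V * X * W)ᵀ * F + F * (V * X * W) = c • F := by
    intro X c h1 h2 h3
    have a1 : W * (V * X * W) = X * W := by
      calc W * (V * X * W) = (W * V) * X * W := by simp only [Matrix.mul_assoc]
        _ = X * (e * W) := by rw [hWV, ← h1, Matrix.mul_assoc]
        _ = X * W := by rw [heW]
    calc (V * X * W)ᵀ * F + F * (V * X * W)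
        = (W * (V * X * W))ᵀ * (toC Q * x) * W + Wᵀ * (toC Q * x) * (W * (V * X * W)) := by
          rw [hF, Matrix.transpose_mul W]
          simp only [Matrix.mul_assoc]
      _ = Wᵀ * ((Xᵀ * toC Q + toC Q * X) * x) * W := by
          rw [a1, Matrix.transpose_mul, Matrix.add_mul, Matrix.mul_add, Matrix.add_mul, Matrix.mul_assoc (toC Q) X x,
            h2]
          simp only [Matrix.mul_assoc]
      _ = c • F := by
          rw [h3, hF, smul_mul_assoc, Matrix.mul_smul, Matrix.smul_mul]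
  have hL : ∀ y ∈ cpL W V (LG Γ), ∃ c : ℂ, yᵀ * F + F * y = c • F := by
    rintro _ ⟨X, hX, rfl⟩
    obtain ⟨c, hc⟩ := G.LG_sim H hX
    exact ⟨c, key X c (G.LG_com hX he.mem) (G.LG_com hX hx) hc⟩
  have hF0 : F ≠ 0 := by
    intro h0
    apply hx0
    calc eᵀ * (toC Q * x) * e = Vᵀ * (Wᵀ * (toC Q * x) * W) * V := by
          rw [← hWV, Matrix.transpose_mul]
          simp only [Matrix.mul_assoc]
      _ = 0 := by rw [← hF, h0, Matrix.mul_zero, Matrix.zero_mul]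
  have hker : LinearMap.ker (Matrix.toLin' F) = ⊥ := by
    rcases G.irr' he hVW hWV (LinearMap.ker (Matrix.toLin' F)) (by
      intro y hy u hu
      obtain ⟨c, hc⟩ := hL y hy
      rw [LinearMap.mem_ker, Matrix.toLin'_apply] at hu ⊢
      have h1 : F * y = c • F - yᵀ * F := by rw [← hc]; abel
      rw [Matrix.mulVec_mulVec, h1, Matrix.sub_mulVec, Matrix.smul_mulVec, ← Matrix.mulVec_mulVec, hu,
        Matrix.mulVec_zero, smul_zero, sub_zero]) with h1 | h1
    · exact h1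
    · exfalso
      apply hF0
      rw [LinearMap.ker_eq_top] at h1
      exact (LinearEquiv.map_eq_zero_iff _).1 h1
  have hu : IsUnit F := by
    rw [← Matrix.isUnit_toLin'_iff]
    exact (LinearMap.isUnit_iff_ker_eq_bot _).2 hker
  obtain ⟨⟨F0, Fi, h1, h2⟩, rfl⟩ := hu
  refine ⟨F0, Fi, h1, h2, hFs, ?_, ?_⟩
  · intro y hy
    obtain ⟨y', hy', d, rfl⟩ := mem_cpS.1 hy
    obtain ⟨c, hc⟩ := hL y' hy'
    refine ⟨c + 2 * d, ?_⟩
    change (y' + d • (1 : Matrix (Fin r) (Fin r) ℂ))ᵀ * F0 + F0 * (y' + d • (1 : Matrix (Fin r) (Fin r) ℂ)) = _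
    change y'ᵀ * F0 + F0 * y' = c • F0 at hc
    rw [Matrix.transpose_add, Matrix.transpose_smul, Matrix.transpose_one, Matrix.add_mul, Matrix.mul_add,
      Matrix.smul_mul, Matrix.mul_smul, Matrix.one_mul, Matrix.mul_one, add_smul, ← hc, mul_smul, two_smul]
    abel
  · intro S1 R1 hR1
    have h3 := hR1.skew hm
    have h4 := key (hR S1 R1 - (m : ℂ) • (1 : Matrix n n ℂ)) 0 (by
      rw [sub_mul, mul_sub, G.LG_com hR1.hR_mem he.mem, smul_mul_assoc, mul_smul_comm, one_mul, mul_one]) (by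
      rw [sub_mul, mul_sub, G.LG_com hR1.hR_mem hx, smul_mul_assoc, mul_smul_comm, one_mul, mul_one]) (by
      rw [h3, zero_smul])
    rw [zero_smul] at h4
    have h5 : V * (hR S1 R1 - (m : ℂ) • (1 : Matrix n n ℂ)) * W =
        V * hR S1 R1 * W - (m : ℂ) • (1 : Matrix (Fin r) (Fin r) ℂ) := by
      rw [Matrix.mul_sub, Matrix.sub_mul, Matrix.mul_smul, Matrix.smul_mul, Matrix.mul_one, hVW]
    rwa [h5] at h4

end cmp

end MH
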