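import Pool.Agent.Helper98.GH.GalB

/-!
Project GH (MP_b8862a_ag), l-adic side, block B: the type of a block of `LG` (B2, B3).
-/

set_option linter.unusedSectionVars false

open Matrix Module GH

namespace MH

variable {n : Type*} [Fintype n] [DecidableEq n]
variable {w : ℤ} {Q : Matrix n n ℚ} {S S' : Finset ℤ} {P R : ℤ → Matrix n n ℂ} {Γ : Subgroup (GL n ℂ)}

section cmp

variable {r : ℕ} {W : Matrix n (Fin r) ℂ} {V : Matrix (Fin r) n ℂ} {e : Matrix n n ℂ}

theorem CR.sums {A : ℤ → Matrix (Fin r) (Fin r) ℂ} (C : CR e W V S' R A) {c : ℤ}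
    {F : ℝ → Matrix (Fin r) (Fin r) ℂ} {Λ : Finset ℝ} (hF : ∀ p : ℤ, F ((p - c : ℤ) : ℝ) = A p)
    (hΛ : Λ = S'.image (fun p : ℤ => ((p - c : ℤ) : ℝ))) :
    ∑ μ ∈ Λ.filter (fun μ => 0 < μ), (F μ).rank = ∑ p ∈ S'.filter (fun p => c < p), (e * R p).rank ∧
      (F 0).rank = (e * R c).rank := by
  classical
  have hinj : ∀ p ∈ S', ∀ q ∈ S', ((p - c : ℤ) : ℝ) = ((q - c : ℤ) : ℝ) → p = q := by
    intro p _ q _ h
    have : p - c = q - c := by exact_mod_cast h
    omega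
  constructor
  · rw [hΛ, Finset.filter_image, Finset.sum_image]
    · have h1 : S'.filter (fun p : ℤ => 0 < ((p - c : ℤ) : ℝ)) = S'.filter (fun p => c < p) := by
        apply Finset.filter_congr
        intro p _
        rw [Int.cast_pos]
        omega
      rw [h1]
      refine Finset.sum_congr rfl fun p _ => ?_
      rw [hF, C.rank]
    · intro p hp q hq h
      exact hinj p (Finset.mem_filter.mp hp).1 q (Finset.mem_filter.mp hq).1 h
  · have h1 := hF c
    rw [sub_self, Int.cast_zero] at h1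
    rw [h1, C.rank]

theorem CR.not_one {A : ℤ → Matrix (Fin r) (Fin r) ℂ} (C : CR e W V S' R A) (hr : 2 ≤ r)
    (hg : ∀ d : ℕ, (∀ p, d ∣ (e * R p).rank) → d = 1) (p : ℤ) : A p ≠ 1 := by
  intro h1
  have h2 := hg r fun q => by
    rw [← C.rank]
    by_cases hq : q = p
    · rw [hq, h1, Matrix.rank_one, Fintype.card_fin]
    · have h3 := C.mul q p
      rw [if_neg hq, h1, mul_one] at h3
      rw [h3, Matrix.rank_zero]
      exact dvd_zero r
  omega

/-- all skew matrices, from a decomposition with a dominating middle number -/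
theorem IsGalW.full_irr (G : IsGalW w Q S P Γ) (he : IsBlk P e) (hVW : V * W = 1)
    (hWV : W * V = e) (hr : 3 ≤ r) {m : ℤ} {S1 : Finset ℤ} {R1 : ℤ → Matrix n n ℂ}
    (hR1 : IsHTw w Q S1 Γ R1) (hg : ∀ d : ℕ, (∀ p, d ∣ (e * R1 p).rank) → d = 1) (hD : DomM m S1 R1 e)
    {F Fi : Matrix (Fin r) (Fin r) ℂ} (hF1 : F * Fi = 1) (hF2 : Fi * F = 1) (hFs : Fᵀ = F)
    (hFL : ∀ x ∈ cpS W V (LG Γ), ∃ c : ℂ, xᵀ * F + F * x = c • F)
    (hFh : (V * hR S1 R1 * W - (m : ℂ) • (1 : Matrix (Fin r) (Fin r) ℂ))ᵀ * F +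
          F * (V * hR S1 R1 * W - (m : ℂ) • (1 : Matrix (Fin r) (Fin r) ℂ)) = 0) :
    (∀ x : Matrix (Fin r) (Fin r) ℂ, xᵀ * F + F * x = 0 → x ∈ cpS W V (LG Γ)) ∧ 5 ≤ r := by
  classical
  have hre := blk_rank he hVW hWV
  obtain ⟨A, C⟩ := G.exists_CR hR1 he hVW hWV
  obtain ⟨E, Λ, hSD, hE, hΛ⟩ := C.exists_sd m
  obtain ⟨hsum, h0⟩ := C.sums hE hΛ
  have hD' : 2 ≤ sB m S1 R1 e ∧ sB m S1 R1 e ^ 2 < (e * R1 m).rank := by
    rcases hD with hD | hD
    · exfalso
      refine C.not_one (by omega) hg m ?_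
      calc A m = V * (e * R1 m) * W := by
            rw [C.eq, ← hWV, ← Matrix.mul_assoc V, ← Matrix.mul_assoc V, hVW, Matrix.one_mul]
        _ = 1 := by rw [hD, ← hWV, ← Matrix.mul_assoc V, hVW, Matrix.one_mul, hVW]
    · exact hD
  obtain ⟨hs2, hsq⟩ := hD'
  have h5 : 5 ≤ r := by
    have h3 : (e * R1 m).rank ≤ e.rank := Matrix.rank_mul_le_left e (R1 m)
    have h4 : 2 ^ 2 ≤ sB m S1 R1 e ^ 2 := Nat.pow_le_pow_left hs2 2
    omega
  refine ⟨fun x hx => ?_, h5⟩
  obtain ⟨L0, hL0⟩ : ∃ L0 : Submodule ℂ (Matrix (Fin r) (Fin r) ℂ), ∀ y, y ∈ L0 ↔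
      (y ∈ cpS W V (LG Γ) ∧ yᵀ * F + F * y = 0) := by
    refine ⟨{ carrier := {y | y ∈ cpS W V (LG Γ) ∧ yᵀ * F + F * y = 0}, add_mem' := ?_, zero_mem' := ?_,
              smul_mem' := ?_ }, fun y => Iff.rfl⟩
    · rintro a b ⟨ha', ha⟩ ⟨hb', hb⟩
      refine ⟨Submodule.add_mem _ ha' hb', ?_⟩
      rw [Matrix.transpose_add, Matrix.add_mul, Matrix.mul_add]
      calc aᵀ * F + bᵀ * F + (F * a + F * b) = (aᵀ * F + F * a) + (bᵀ * F + F * b) := by abel
        _ = 0 := by rw [ha, hb, add_zero]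
    · exact ⟨Submodule.zero_mem _, by simp⟩
    · rintro c a ⟨ha', ha⟩
      refine ⟨Submodule.smul_mem _ c ha', ?_⟩
      rw [Matrix.transpose_smul, Matrix.smul_mul, Matrix.mul_smul, ← smul_add, ha, smul_zero]
  have hdec : ∀ y ∈ cpS W V (LG Γ), ∃ c : ℂ, y - c • (1 : Matrix (Fin r) (Fin r) ℂ) ∈ L0 := by
    intro y hy
    obtain ⟨c, hc⟩ := hFL y hy
    refine ⟨c / 2, ?_⟩
    rw [hL0]
    refine ⟨Submodule.sub_mem _ hy (Submodule.smul_mem _ _ one_cpS), ?_⟩
    rw [Matrix.transpose_sub, Matrix.transpose_smul, Matrix.transpose_one, Matrix.sub_mul, Matrix.mul_sub,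
      Matrix.smul_mul, Matrix.mul_smul, Matrix.one_mul, Matrix.mul_one]
    calc yᵀ * F - (c / 2) • F + (F * y - (c / 2) • F) = (yᵀ * F + F * y) - c • F := by module
      _ = 0 := by rw [hc, sub_self]
  have hbr : ∀ X ∈ L0, ∀ Y ∈ L0, X * Y - Y * X ∈ L0 := by
    intro x hx y hy
    rw [hL0] at hx hy ⊢
    refine ⟨G.cpS_br he hVW hWV x hx.1 y hy.1, ?_⟩
    have a1 : xᵀ * F = -(F * x) := eq_neg_of_add_eq_zero_left hx.2
    have a2 : yᵀ * F = -(F * y) := eq_neg_of_add_eq_zero_left hy.2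
    rw [Matrix.transpose_sub, Matrix.transpose_mul, Matrix.transpose_mul, sub_mul, mul_assoc, mul_assoc, a1, a2,
      mul_neg, mul_neg, ← mul_assoc, ← mul_assoc, a1, a2]
    simp only [neg_mul, neg_neg, mul_sub, mul_assoc]
    abel
  have hirr : ∀ U : Submodule ℂ (Fin r → ℂ), (∀ X ∈ L0, ∀ u ∈ U, X *ᵥ u ∈ U) → U = ⊥ ∨ U = ⊤ := by
    intro U hU
    refine G.cpS_irr he hVW hWV U fun y hy u hu => ?_
    obtain ⟨c, hc⟩ := hdec y hy
    have e1 := hU _ hc u hu
    have e2 : y *ᵥ u = (y - c • (1 : Matrix (Fin r) (Fin r) ℂ)) *ᵥ u + c • u := by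
      rw [Matrix.sub_mulVec, Matrix.smul_mulVec, Matrix.one_mulVec, sub_add_cancel]
    rw [e2]
    exact U.add_mem e1 (U.smul_mem _ hu)
  have hh : V * hR S1 R1 * W - (m : ℂ) • (1 : Matrix (Fin r) (Fin r) ℂ) ∈ L0 := by
    rw [hL0]
    exact ⟨Submodule.sub_mem _ (le_cpS ⟨_, hR1.hR_mem, rfl⟩) (Submodule.smul_mem _ _ one_cpS), hFh⟩
  have hmem := full_of_irr4 F Fi hFs hF1 hF2 L0 hbr hirr (fun X hX => ((hL0 X).1 hX).2) hh hSD
    (by rw [hsum]; exact hs2) (by rw [hsum, h0]; exact hsq) (fun d hd => hg d fun p => by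
      by_cases hp : p ∈ S1
      · have h2 := hd _ (by rw [hΛ]; exact Finset.mem_image_of_mem _ hp)
        rwa [hE, C.rank] at h2
      · rw [hR1.supp p hp, Matrix.mul_zero, Matrix.rank_zero]
        exact dvd_zero d)
    (fun hne htr => exists_herm L0 hbr hirr htr hh hSD) hx
  exact ((hL0 x).1 hmem).1

/-- a basis in which the large eigenvalue is zero and everything is closed under the adjoint -/
theorem IsGalW.exists_gr (G : IsGalW w Q S P Γ) (he : IsBlk P e) (hVW : V * W = 1)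
    (hWV : W * V = e) (hr : 2 ≤ r) (hR : IsHTw w Q S' Γ R)
    (hg : ∀ d : ℕ, (∀ p, d ∣ (e * R p).rank) → d = 1) (p : ℤ) :
    ∃ (B Bi h : Matrix (Fin r) (Fin r) ℂ) (E : ℝ → Matrix (Fin r) (Fin r) ℂ) (Λ : Finset ℝ), B * Bi = 1 ∧ Bi * B = 1 ∧
      Gr (cjS B Bi (cpS W V (LG Γ))) h E Λ ∧ E 0 ≠ 1 ∧ (1 - E 0).rank + (e * R p).rank = r := by
  classical
  have : Nonempty (Fin r) := ⟨⟨0, by omega⟩⟩
  obtain ⟨A, C⟩ := G.exists_CR hR he hVW hWV
  obtain ⟨E, Λ, hSD, hE, hΛ⟩ := C.exists_sd p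
  have hmem : V * MH.hR S' R * W - (p : ℂ) • (1 : Matrix (Fin r) (Fin r) ℂ) ∈ cpS W V (LG Γ) :=
    Submodule.sub_mem _ (le_cpS ⟨_, hR.hR_mem, rfl⟩) (Submodule.smul_mem _ _ one_cpS)
  obtain ⟨B, Bi, h1, h2, h3, h4⟩ := exists_coord98 one_cpS (G.cpS_br he hVW hWV) (G.cpS_irr he hVW hWV) hmem hSD
  have hAp : E 0 = A p := by
    have h5 := hE p
    rwa [sub_self, Int.cast_zero] at h5
  refine ⟨B, Bi, _, fun μ => cj B Bi (E μ), Λ, h1, h2, ⟨spec_of98 (sd_cj98 hSD h1 h2) h3,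
    cjS_br h1 (G.cpS_br he hVW hWV), h4, cjS_mem h2 hmem⟩, ?_, ?_⟩
  · intro h5
    apply C.not_one hr hg p
    have h6 := congrArg (cj Bi B) h5
    rwa [cj_cj h2, cj_one h2, hAp] at h6
  · have hAA : A p * A p = A p := by rw [C.mul, if_pos rfl]
    have h5 := rank_compl (F := cj B Bi (A p)) (by rw [cj_mul h2, hAA])
    rw [rank_cj h1 h2 hAA, C.rank, Fintype.card_fin] at h5
    simp only [hAp]
    exact h5

/-- B3, first form -/
theorem IsGalW.ty0 (H : IsHW w Q S P) (G : IsGalW w Q S P Γ) (he : IsBlk P e) (hVW : V * W = 1)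
    (hWV : W * V = e) (hr : 2 ≤ r) : TyF (cpS W V (LG Γ)) := by
  classical
  have hre := blk_rank he hVW hWV
  obtain ⟨S1, R1, hR1, hg, hD⟩ := G.touch e he (by omega)
  have hsl : (∀ x : Matrix (Fin r) (Fin r) ℂ, x.trace = 0 → x ∈ cpS W V (LG Γ)) → TyF (cpS W V (LG Γ)) :=
    fun h => ⟨Or.inl h, Or.inl h⟩
  rcases hD e he with hD | ⟨m, hm, hO, hD⟩
  · obtain ⟨p, hp⟩ := hD
    obtain ⟨B, Bi, h, E, Λ, h1, h2, hG, hE0, hrk⟩ := G.exists_gr he hVW hWV hr hR1 hg p
    rw [hre] at hp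
    rcases Nat.lt_or_ge r 3 with hr3 | hr3
    · -- rank two
      apply hsl
      intro x hx
      have hp1 : (e * R1 p).rank ≠ 0 := by
        intro h0
        rw [h0] at hp
        rcases hp with hp | hp
        · omega
        · have h5 : r - 0 + 1 ≤ (r - 0 + 1) ^ 2 := Nat.le_self_pow two_ne_zero _
          omega
      have h5 := hG.one_sl (cjS_irr h1 h2 (G.cpS_schur he hVW hWV (by omega))) hE0 (by omega)
        (x := cj B Bi x) (by rw [trace_cj98 h2]; exact hx)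
      rwa [mem_cjS, cj_cj h2] at h5
    · have h5 := gst hG (cjS_one h2 one_cpS) hE0 (by
        rw [Fintype.card_fin]
        rcases hp with hp | hp
        · left
          omega
        · right
          refine le_trans (Nat.pow_le_pow_left ?_ 2) hp
          omega) (by rw [Fintype.card_fin]; exact hr3) (fun T hT => by
        obtain ⟨c, hc⟩ := G.hS_of he hVW hWV hr hR1 hg ⟨p, by rw [hre]; exact hp⟩ (cj Bi B T) fun s hs hdg hsm => by
          have e1 := congrArg (cj Bi B) (hT _ (cjS_mem h2 hs) (Dg.cj h1 h2 hdg) (Sm.cj h1 hsm))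
          rwa [← cj_mul h1, ← cj_mul h1, cj_cj h2] at e1
        refine ⟨c, ?_⟩
        have e2 := congrArg (cj B Bi) hc
        rwa [cj_cj h1, cj_smul, cj_one h1] at e2)
      refine ⟨Ty.of_cjS h1 h2 h5.ty, ?_⟩
      rcases h5.five with h6 | h6
      · left
        intro x hx
        have h7 := h6 (cj B Bi x) (by rw [trace_cj98 h2]; exact hx)
        rwa [mem_cjS, cj_cj h2] at h7
      · exact Or.inr h6
  · obtain ⟨F, Fi, hF1, hF2, hFs, hFL, hFh⟩ := G.exists_form H he hVW hWV hm hO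
    have hr3 : 3 ≤ r := by
      by_contra h0
      rcases hD with hD | ⟨hD1, hD2⟩
      · obtain ⟨A, C⟩ := G.exists_CR hR1 he hVW hWV
        refine C.not_one (by omega) hg m ?_
        calc A m = V * (e * R1 m) * W := by
              rw [C.eq, ← hWV, ← Matrix.mul_assoc V, ← Matrix.mul_assoc V, hVW, Matrix.one_mul]
          _ = 1 := by rw [hD, ← hWV, ← Matrix.mul_assoc V, hVW, Matrix.one_mul, hVW]
      · have h3 : (e * R1 m).rank ≤ e.rank := Matrix.rank_mul_le_left e (R1 m)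
        have h4 : 2 ^ 2 ≤ sB m S1 R1 e ^ 2 := Nat.pow_le_pow_left hD1 2
        omega
    obtain ⟨hfull, h5⟩ := G.full_irr he hVW hWV hr3 hR1 hg hD hF1 hF2 hFs hFL (hFh S1 R1 hR1)
    refine ⟨Or.inr ⟨F, Or.inl hFs, ⟨⟨F, Fi, hF1, hF2⟩, rfl⟩, hfull, hFL⟩, Or.inr ?_⟩
    rw [Fintype.card_fin]
    exact h5

end cmp

/-- B3: the type of a block -/
theorem IsGalW.ty (H : IsHW w Q S P) (G : IsGalW w Q S P Γ) {e : Matrix n n ℂ} (he : IsBlk P e) {r : ℕ}
    {W : Matrix n (Fin r) ℂ} {V : Matrix (Fin r) n ℂ} (hVW : V * W = 1) (hWV : W * V = e) (hr : 2 ≤ r) :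
    TyF (cpS W V (LG Γ)) := G.ty0 H he hVW hWV hr

/-- B2: `Good` in every basis of the block in which the compression of `LG` is closed under the adjoint and the Hodge-Tate element
is Hermitian. -/
theorem IsGalW.good (H : IsHW w Q S P) (G : IsGalW w Q S P Γ) {e : Matrix n n ℂ} (he : IsBlk P e) {r : ℕ}
    {W : Matrix n (Fin r) ℂ} {V : Matrix (Fin r) n ℂ} (hVW : V * W = 1) (hWV : W * V = e) (hr : 3 ≤ r)
    {S' : Finset ℤ} {R : ℤ → Matrix n n ℂ} (hRG : IsHTw w Q S' Γ R) (hD : DomR w Q P S' R e)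
    (hns : ∀ c : ℂ, hR S' R * e ≠ c • e) (hst : ∀ y ∈ cpS W V (LG Γ), yᴴ ∈ cpS W V (LG Γ))
    (hh : (V * hR S' R * W)ᴴ = V * hR S' R * W) :
    ∃ (c : ℂ) (E : ℝ → Matrix (Fin r) (Fin r) ℂ) (Λ : Finset ℝ),
      Good (cpS W V (LG Γ)) (V * hR S' R * W - c • (1 : Matrix (Fin r) (Fin r) ℂ)) E Λ := by
  classical
  have hne : Nonempty (Fin r) := ⟨⟨0, by omega⟩⟩
  have hre := blk_rank he hVW hWV
  obtain ⟨A, C⟩ := G.exists_CR hRG he hVW hWV
  have heW : e * W = W := by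
    rw [← hWV, Matrix.mul_assoc, hVW, Matrix.mul_one]
  -- the element is not scalar
  have hns' : ∀ c : ℂ, V * hR S' R * W ≠ c • (1 : Matrix (Fin r) (Fin r) ℂ) := by
    intro c hc
    apply hns c
    calc hR S' R * e = hR S' R * (e * e) := by rw [he.idem]
      _ = e * hR S' R * e := by rw [← mul_assoc, G.LG_com hRG.hR_mem he.mem]
      _ = W * (V * hR S' R * W) * V := by
        rw [← hWV]
        simp only [Matrix.mul_assoc]
      _ = c • e := by rw [hc, Matrix.mul_smul, Matrix.smul_mul, Matrix.mul_one, hWV]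
  have hA1 : ∀ p, A p ≠ 1 := by
    intro p h1
    apply hns' (p : ℂ)
    rw [C.h]
    by_cases hp : p ∈ S'
    · rw [Finset.sum_eq_single_of_mem p hp]
      · rw [h1]
      · intro q _ hq
        have h3 := C.mul q p
        rw [if_neg hq, h1, mul_one] at h3
        rw [h3, smul_zero]
    · exact absurd (h1.symm.trans (C.supp p hp)) one_ne_zero
  obtain ⟨S1, R1, hR1, hg, hD1⟩ := G.touch e he (by omega)
  have hir := G.cpS_schur he hVW hWV (by omega)
  -- a skew shift has real spectrum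
  have horth : ∀ m : ℤ, w = 2 * m → OrthB Q P e → ∃ (c : ℂ) (E : ℝ → Matrix (Fin r) (Fin r) ℂ) (Λ : Finset ℝ),
      Good (cpS W V (LG Γ)) (V * hR S' R * W - c • (1 : Matrix (Fin r) (Fin r) ℂ)) E Λ := by
    intro m hm hO
    obtain ⟨F, Fi, hF1, hF2, hFs, hFL, hFh⟩ := G.exists_form H he hVW hWV hm hO
    have hfull : ∀ x : Matrix (Fin r) (Fin r) ℂ, xᵀ * F + F * x = 0 → x ∈ cpS W V (LG Γ) :=
      fun x hx => full_of_ty hir (G.ty0 H he hVW hWV (by omega)).1 hF1 hF2 hFL hx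
    obtain ⟨E, Λ, hSD, hE, hΛ⟩ := C.exists_sd m
    obtain ⟨hsum, h0⟩ := C.sums hE hΛ
    have hh' : (V * hR S' R * W - (m : ℂ) • (1 : Matrix (Fin r) (Fin r) ℂ))ᴴ =
        V * hR S' R * W - (m : ℂ) • (1 : Matrix (Fin r) (Fin r) ℂ) := by
      have e1 : star ((m : ℤ) : ℂ) = ((m : ℤ) : ℂ) := by simp
      rw [Matrix.conjTranspose_sub, hh, Matrix.conjTranspose_smul, Matrix.conjTranspose_one, e1]
    obtain ⟨hcard, hle⟩ := card_of_full one_cpS hst hir hF1 hF2 hFs hFL hfull hSD hh' (hFh S' R hRG)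
    rw [Fintype.card_fin] at hcard
    have hE0 : E 0 = A m := by
      have h5 := hE m
      rwa [sub_self, Int.cast_zero] at h5
    have hs1 : 1 ≤ ∑ μ ∈ Λ.filter (fun μ => 0 < μ), (E μ).rank := by
      by_contra hcon
      apply hA1 m
      have h6 : (A m).rank = r := by
        rw [hE0] at hcard
        omega
      have hAA : A m * A m = A m := by rw [C.mul, if_pos rfl]
      have h7 := rank_compl hAA
      rw [h6, Fintype.card_fin] at h7
      have h8 : 1 - A m = 0 := rank_eq_zero98 (by omega)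
      exact (sub_eq_zero.1 h8).symm
    have hrA : (A m).rank = (e * R m).rank := C.rank m
    have hnum : (∑ μ ∈ Λ.filter (fun μ => 0 < μ), (E μ).rank) ^ 2 < (E 0).rank ∧ 4 ≤ (E 0).rank := by
      set s := ∑ μ ∈ Λ.filter (fun μ => 0 < μ), (E μ).rank with hs
      set b := (E 0).rank with hb
      rcases hD with ⟨p, hp⟩ | ⟨m', hm', -, hD⟩
      · have hpm : p = m := by
          by_contra hne'
          have h6 : (E ((p - m : ℤ) : ℝ)).rank ≤ s := hle _ (by
            intro h7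
            have h8 : p - m = 0 := by exact_mod_cast h7
            omega)
          rw [hE, C.rank] at h6
          rw [hre] at hp
          rcases hp with hp | hp
          · omega
          · have h9 : r - (e * R p).rank + 1 ≤ r := by
              have h10 : r - (e * R p).rank + 1 ≤ (r - (e * R p).rank + 1) ^ 2 := Nat.le_self_pow two_ne_zero _
              omega
            have h11 : s + b + 1 ≤ r - (e * R p).rank + 1 := by omega
            have h12 : (s + b + 1) ^ 2 ≤ r := (Nat.pow_le_pow_left h11 2).trans hp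
            have h13 : (s + b + 1) ^ 2 = s ^ 2 + b ^ 2 + 2 * (s * b) + 2 * s + 2 * b + 1 := by ring
            have h14 := Nat.zero_le (s ^ 2)
            have h15 := Nat.zero_le (b ^ 2)
            have h16 := Nat.zero_le (s * b)
            omega
        subst hpm
        rw [hre, ← h0] at hp
        rcases hp with hp | hp
        · omega
        · have h9 : r - b + 1 = 2 * s + 1 := by omega
          rw [h9] at hp
          have h10 : (2 * s + 1) ^ 2 = 4 * s ^ 2 + 4 * s + 1 := by ring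
          rw [h10] at hp
          have h11 : s ≤ s ^ 2 := Nat.le_self_pow two_ne_zero _
          constructor <;> omega
      · have hmm : m' = m := by omega
        subst hmm
        rcases hD with hD | ⟨hD1', hD2'⟩
        · exfalso
          apply hA1 m'
          calc A m' = V * (e * R m') * W := by
                rw [C.eq, ← hWV, ← Matrix.mul_assoc V, ← Matrix.mul_assoc V, hVW, Matrix.one_mul]
            _ = 1 := by rw [hD, ← hWV, ← Matrix.mul_assoc V, hVW, Matrix.one_mul, hVW]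
        · have h6 : sB m' S' R e = s := hsum.symm
          rw [h6] at hD1' hD2'
          rw [← h0] at hD2'
          have h7 : 2 ^ 2 ≤ s ^ 2 := Nat.pow_le_pow_left hD1' 2
          exact ⟨hD2', by omega⟩
    exact ⟨(m : ℂ), E, Λ, good_of_full one_cpS hst hir hF1 hF2 hFs hFL hfull hSD hh' (hFh S' R hRG) hs1 hnum.1
      hnum.2⟩
  rcases hD1 e he with hDG1 | ⟨m, hm, hO, -⟩
  swap
  · exact horth m hm hO
  rcases hD with hDG | ⟨m, hm, hO, -⟩
  swap
  · exact horth m hm hO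
  obtain ⟨p, hp⟩ := hDG
  obtain ⟨E, Λ, hSD, hE, hΛ⟩ := C.exists_sd p
  have hE0 : E 0 = A p := by
    have h5 := hE p
    rwa [sub_self, Int.cast_zero] at h5
  have hh' : (V * hR S' R * W - (p : ℂ) • (1 : Matrix (Fin r) (Fin r) ℂ))ᴴ =
      V * hR S' R * W - (p : ℂ) • (1 : Matrix (Fin r) (Fin r) ℂ) := by
    have e1 : star ((p : ℤ) : ℂ) = ((p : ℤ) : ℂ) := by simp
    rw [Matrix.conjTranspose_sub, hh, Matrix.conjTranspose_smul, Matrix.conjTranspose_one, e1]
  have hG : Gr (cpS W V (LG Γ)) (V * hR S' R * W - (p : ℂ) • (1 : Matrix (Fin r) (Fin r) ℂ)) E Λ :=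
    ⟨spec_of98 hSD hh', G.cpS_br he hVW hWV, hst,
      Submodule.sub_mem _ (le_cpS ⟨_, hRG.hR_mem, rfl⟩) (Submodule.smul_mem _ _ one_cpS)⟩
  have hrk : (1 - E 0).rank + (e * R p).rank = r := by
    have h5 := rank_compl (F := A p) (by rw [C.mul, if_pos rfl])
    rw [C.rank, Fintype.card_fin] at h5
    rw [hE0]
    exact h5
  refine ⟨(p : ℂ), E, Λ, gst hG one_cpS (by rw [hE0]; exact hA1 p) ?_ (by rw [Fintype.card_fin]; exact hr)
    (G.hS_of he hVW hWV (by omega) hR1 hg hDG1)⟩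
  rw [Fintype.card_fin]
  rw [hre] at hp
  rcases hp with hp | hp
  · left
    omega
  · right
    refine le_trans (Nat.pow_le_pow_left ?_ 2) hp
    omega

end MH
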